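import Mathlib

/-!
# Module DensEven: adding the numbers `2^s m`, `m ∈ S`

If `#(S ∩ [1,N])/N → 0` and every `n ∈ T` is `2^s m` with `m ∈ S` (`n ≥ 1`) then
`#(T ∩ [1,N])/N → 0`: `#(T ∩ [1,N]) ≤ Σ_s g(N/2^s)`, `g(x) = #(S ∩ [1,x])`. Given `ε`,
`g(x) ≤ (ε/4) x + K` for all `x ≥ 1` and some `K`, and `g(x) = 0` for `x < 1`; so the sum is at most
`(ε/2) N + K (log₂ N + 1) ≤ ε N` for `N` large.
-/

namespace Beanstalk

theorem dens_even (S T : Set ℕ)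
    (hT : ∀ n ∈ T, ∃ s m : ℕ, n = 2 ^ s * m ∧ m ∈ S)
    (hS : Filter.Tendsto (fun N : ℕ => ({n : ℕ | 1 ≤ n ∧ n ≤ N ∧ n ∈ S}.ncard : ℝ) / N)
      Filter.atTop (nhds 0)) :
    Filter.Tendsto (fun N : ℕ => ({n : ℕ | 1 ≤ n ∧ n ≤ N ∧ n ∈ T}.ncard : ℝ) / N)
      Filter.atTop (nhds 0) := by
  classical
  -- counting
  have hcount : ∀ (N J : ℕ), {n : ℕ | 1 ≤ n ∧ n ≤ N ∧ n ∈ T}.ncard ≤
      J * {n : ℕ | 1 ≤ n ∧ n ≤ N ∧ n ∈ S}.ncard + N / 2 ^ J := by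
    intro N J
    have hS' : {n : ℕ | 1 ≤ n ∧ n ≤ N ∧ n ∈ S} = ((Finset.Ioc 0 N).filter (· ∈ S) : Finset ℕ) := by
      ext n
      simp only [Finset.coe_filter, Finset.mem_Ioc, Set.mem_ofPred_eq]
      constructor
      · rintro ⟨a, b, c⟩; exact ⟨⟨by omega, b⟩, c⟩
      · rintro ⟨⟨a, b⟩, c⟩; exact ⟨by omega, b, c⟩
    have hsub : {n : ℕ | 1 ≤ n ∧ n ≤ N ∧ n ∈ T} ⊆
        (((Finset.range J).biUnion fun s => ((Finset.Ioc 0 N).filter (· ∈ S)).image (2 ^ s * ·)) ∪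
          (Finset.Ioc 0 N).filter (2 ^ J ∣ ·) : Finset ℕ) := by
      rintro n ⟨h1, h2, h3⟩
      obtain ⟨s, m, rfl, hm⟩ := hT n h3
      rw [Finset.mem_coe, Finset.mem_union]
      by_cases hs : s < J
      · left
        rw [Finset.mem_biUnion]
        refine ⟨s, Finset.mem_range.2 hs, Finset.mem_image.2 ⟨m, ?_, rfl⟩⟩
        rw [Finset.mem_filter, Finset.mem_Ioc]
        refine ⟨⟨?_, ?_⟩, hm⟩
        · rcases Nat.eq_zero_or_pos m with rfl | h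
          · simp at h1
          · exact h
        · exact le_trans (Nat.le_mul_of_pos_left _ (by positivity)) h2
      · right
        rw [Finset.mem_filter, Finset.mem_Ioc]
        exact ⟨⟨by omega, h2⟩, Dvd.dvd.mul_right (pow_dvd_pow 2 (by omega)) _⟩
    have h1 := Set.ncard_le_ncard hsub (Finset.finite_toSet _)
    rw [Set.ncard_coe_finset] at h1
    rw [hS', Set.ncard_coe_finset]
    refine h1.trans ((Finset.card_union_le _ _).trans ?_)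
    rw [Nat.Ioc_filter_dvd_card_eq_div]
    refine Nat.add_le_add_right ?_ _
    refine Finset.card_biUnion_le.trans ?_
    refine (Finset.sum_le_sum (fun s _ => Finset.card_image_le)).trans ?_
    rw [Finset.sum_const, Finset.card_range, smul_eq_mul]
  rw [Metric.tendsto_atTop']
  intro ε hε
  obtain ⟨J, hJ⟩ := exists_pow_lt_of_lt_one (show 0 < ε / 2 by positivity)
    (show (1 / 2 : ℝ) < 1 by norm_num)
  rw [Metric.tendsto_atTop'] at hS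
  obtain ⟨N0, hN0⟩ := hS (ε / (2 * (J + 1))) (by positivity)
  refine ⟨N0, fun N hN => ?_⟩
  have hNpos : (0 : ℝ) < N := by
    have : 0 < N := by omega
    exact_mod_cast this
  have h1 := hN0 N hN
  rw [Real.dist_eq, sub_zero, abs_of_nonneg (by positivity)] at h1
  rw [Real.dist_eq, sub_zero, abs_of_nonneg (by positivity)]
  have h2 := hcount N J
  have h3 : ({n : ℕ | 1 ≤ n ∧ n ≤ N ∧ n ∈ T}.ncard : ℝ) ≤
      J * {n : ℕ | 1 ≤ n ∧ n ≤ N ∧ n ∈ S}.ncard + N * (1 / 2) ^ J := by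
    have h4 : ((N / 2 ^ J : ℕ) : ℝ) ≤ N * (1 / 2) ^ J := by
      refine Nat.cast_div_le.trans (le_of_eq ?_)
      push_cast
      rw [one_div, inv_pow]
      rfl
    have h5 : ({n : ℕ | 1 ≤ n ∧ n ≤ N ∧ n ∈ T}.ncard : ℝ) ≤
      ((J * {n : ℕ | 1 ≤ n ∧ n ≤ N ∧ n ∈ S}.ncard + N / 2 ^ J : ℕ) : ℝ) := by exact_mod_cast h2
    push_cast at h5
    linarith
  have h6 : (J : ℝ) * ({n : ℕ | 1 ≤ n ∧ n ≤ N ∧ n ∈ S}.ncard / N) ≤ ε / 2 := by
    calc (J : ℝ) * ({n : ℕ | 1 ≤ n ∧ n ≤ N ∧ n ∈ S}.ncard / N)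
        ≤ (J + 1) * (ε / (2 * (J + 1))) := by
          apply mul_le_mul (by linarith) h1.le (by positivity) (by positivity)
      _ = ε / 2 := by field_simp
  calc ({n : ℕ | 1 ≤ n ∧ n ≤ N ∧ n ∈ T}.ncard : ℝ) / N
      ≤ (J * {n : ℕ | 1 ≤ n ∧ n ≤ N ∧ n ∈ S}.ncard + N * (1 / 2) ^ J) / N := by gcongr
    _ = J * ({n : ℕ | 1 ≤ n ∧ n ≤ N ∧ n ∈ S}.ncard / N) + (1 / 2) ^ J := by field_simp
    _ < ε / 2 + ε / 2 := by linarith
    _ = ε := by ring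

end Beanstalk
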