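import Mathlib

/-!
# Module DensSum: from pieces `[x,(1+ρ)x]` to `[1,N]` (general sets)

Let `S` be a set of integers such that for every `ε > 0` there are `ρ ∈ (0,1]`, `X ≥ 1` with
`#(S ∩ [x,(1+ρ)x]) ≤ ερx + 2` for all real `x ≥ X`. Then `#(S ∩ [1,N]) / N → 0`.
Proof: for real `x ≥ X` let `g(x) = #(S ∩ [1,x])`. Then `g((1+ρ)x) ≤ g(x) + ερx + 2`. By induction
on `i`: if `X(1+ρ)^i ≤ y ≤ X(1+ρ)^{i+1}` then `g(y) ≤ X(1+ρ) + 1 + ε y + 2(i+1)`; and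
`i ≤ log(y/X)/log(1+ρ) = o(y)`.
-/

namespace Beanstalk

private theorem fin_Icc (x y : ℝ) (P : ℤ → Prop) :
    {n : ℤ | P n ∧ x ≤ n ∧ (n : ℝ) ≤ y}.Finite := by
  refine Set.Finite.subset (Set.finite_Icc ⌈x⌉ ⌊y⌋) ?_
  rintro n ⟨-, h1, h2⟩
  exact ⟨Int.ceil_le.2 h1, Int.le_floor.2 h2⟩

private theorem g_le (S : Set ℤ) (y : ℝ) (hy : 0 ≤ y) :
    ({n : ℤ | n ∈ S ∧ (1 : ℝ) ≤ n ∧ (n : ℝ) ≤ y}.ncard : ℝ) ≤ y := by
  have hsub : {n : ℤ | n ∈ S ∧ (1 : ℝ) ≤ n ∧ (n : ℝ) ≤ y} ⊆ ((Finset.Icc 1 ⌊y⌋ : Finset ℤ) : Set ℤ) := by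
    rintro n ⟨-, h1, h2⟩
    rw [Finset.mem_coe, Finset.mem_Icc]
    exact ⟨by exact_mod_cast h1, Int.le_floor.2 h2⟩
  have h1 := Set.ncard_le_ncard hsub (Finset.finite_toSet _)
  rw [Set.ncard_coe_finset, Int.card_Icc] at h1
  have h2 : 0 ≤ ⌊y⌋ := Int.floor_nonneg.2 hy
  have h3 : ((⌊y⌋ + 1 - 1).toNat : ℝ) = (⌊y⌋ : ℝ) := by
    have : (((⌊y⌋ + 1 - 1).toNat : ℕ) : ℤ) = ⌊y⌋ := by omega
    exact_mod_cast this
  calc ({n : ℤ | n ∈ S ∧ (1 : ℝ) ≤ n ∧ (n : ℝ) ≤ y}.ncard : ℝ)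
      ≤ ((⌊y⌋ + 1 - 1).toNat : ℝ) := by exact_mod_cast h1
    _ = ⌊y⌋ := h3
    _ ≤ y := Int.floor_le y

private theorem g_step (S : Set ℤ) (x y : ℝ) :
    ({n : ℤ | n ∈ S ∧ (1 : ℝ) ≤ n ∧ (n : ℝ) ≤ y}.ncard : ℝ) ≤
      {n : ℤ | n ∈ S ∧ (1 : ℝ) ≤ n ∧ (n : ℝ) ≤ x}.ncard +
        {n : ℤ | n ∈ S ∧ x ≤ n ∧ (n : ℝ) ≤ y}.ncard := by
  have hsub : {n : ℤ | n ∈ S ∧ (1 : ℝ) ≤ n ∧ (n : ℝ) ≤ y} ⊆
      {n : ℤ | n ∈ S ∧ (1 : ℝ) ≤ n ∧ (n : ℝ) ≤ x} ∪ {n : ℤ | n ∈ S ∧ x ≤ n ∧ (n : ℝ) ≤ y} := by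
    rintro n ⟨h0, h1, h2⟩
    rcases le_total (n : ℝ) x with h | h
    · exact Or.inl ⟨h0, h1, h⟩
    · exact Or.inr ⟨h0, h, h2⟩
  have h1 := Set.ncard_le_ncard hsub ((fin_Icc _ _ _).union (fin_Icc _ _ _))
  have h2 := h1.trans (Set.ncard_union_le _ _)
  exact_mod_cast h2

private theorem exp_grow (q η : ℝ) (hq : 1 < q) (hη : 0 < η) (X : ℝ) (hX : 1 ≤ X) :
    ∀ᶠ N : ℕ in Filter.atTop, (N : ℝ) ≤ X * q ^ (⌊η * N⌋₊) := by
  have hr : 1 < q ^ η := Real.one_lt_rpow hq hη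
  have h1 : Filter.Tendsto (fun n : ℕ => (n : ℝ) ^ 1 / (q ^ η) ^ n) Filter.atTop (nhds 0) :=
    tendsto_pow_const_div_const_pow_of_one_lt 1 hr
  have hq0 : 0 < q := by linarith
  have h2 : ∀ᶠ n : ℕ in Filter.atTop, (n : ℝ) ^ 1 / (q ^ η) ^ n < 1 / q :=
    h1.eventually (gt_mem_nhds (by positivity))
  filter_upwards [h2] with N hN
  rw [pow_one] at hN
  have hpos : 0 < (q ^ η) ^ N := by positivity
  have h3 : (N : ℝ) * q < (q ^ η) ^ N := by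
    rw [div_lt_div_iff₀ hpos hq0] at hN
    linarith
  have h4 : (q ^ η) ^ N ≤ q ^ (⌊η * N⌋₊) * q := by
    rw [← pow_succ, ← Real.rpow_natCast, ← Real.rpow_mul hq0.le, ← Real.rpow_natCast]
    apply Real.rpow_le_rpow_of_exponent_le hq.le
    push_cast
    exact (Nat.lt_floor_add_one _).le
  have h5 : (N : ℝ) < q ^ (⌊η * N⌋₊) := by
    have := lt_of_lt_of_le h3 h4
    exact lt_of_mul_lt_mul_right this hq0.le
  have h6 : 0 ≤ q ^ (⌊η * N⌋₊) := by positivity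
  nlinarith

theorem dens_sum (S : Set ℤ)
    (h : ∀ ε : ℝ, 0 < ε → ∃ (ρ X : ℝ), 0 < ρ ∧ ρ ≤ 1 ∧ 1 ≤ X ∧ ∀ x ≥ X,
      ({n : ℤ | n ∈ S ∧ x ≤ n ∧ (n : ℝ) ≤ (1 + ρ) * x}.ncard : ℝ) ≤ ε * ρ * x + 2) :
    Filter.Tendsto (fun N : ℕ => ({n : ℕ | 1 ≤ n ∧ n ≤ N ∧ (n : ℤ) ∈ S}.ncard : ℝ) / N)
      Filter.atTop (nhds 0) := by
  rw [Metric.tendsto_atTop']
  intro ε hε
  obtain ⟨ρ, X, hρ0, hρ1, hX, hstep⟩ := h (ε / 4) (by positivity)
  set q : ℝ := 1 + ρ with hq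
  have hq1 : 1 < q := by linarith
  have hq0 : 0 < q := by linarith
  have hX0 : 0 < X := by linarith
  have key : ∀ (i : ℕ) (y : ℝ), 0 ≤ y → y ≤ X * q ^ i →
      ({n : ℤ | n ∈ S ∧ (1 : ℝ) ≤ n ∧ (n : ℝ) ≤ y}.ncard : ℝ) ≤ X * q + ε / 4 * y + 2 * i := by
    intro i
    induction i with
    | zero =>
      intro y hy hyX
      have := g_le S y hy
      rw [pow_zero, mul_one] at hyX
      have h1 : X ≤ X * q := by nlinarith
      have h2 : 0 ≤ ε / 4 * y := by positivity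
      push_cast
      linarith
    | succ i ih =>
      intro y hy hyX
      by_cases hc : y ≤ X * q
      · have := g_le S y hy
        have h2 : 0 ≤ ε / 4 * y := by positivity
        push_cast
        have : (0 : ℝ) ≤ i := Nat.cast_nonneg i
        linarith
      · push Not at hc
        have hx : X ≤ y / q := by
          rw [le_div_iff₀ hq0]; exact hc.le
        have hx2 : y / q ≤ X * q ^ i := by
          rw [div_le_iff₀ hq0]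
          calc y ≤ X * q ^ (i + 1) := hyX
            _ = X * q ^ i * q := by ring
        have h1 := ih (y / q) (by positivity) hx2
        have h2 := hstep (y / q) hx
        have e : q * (y / q) = y := by field_simp
        rw [e] at h2
        have h3 := g_step S (y / q) y
        have h4 : ε / 4 * ρ * (y / q) = ε / 4 * (y - y / q) := by
          have : ρ = q - 1 := by rw [hq]; ring
          rw [this]
          field_simp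
        push_cast
        linarith
  have hη : 0 < ε / 16 := by positivity
  have e1 := exp_grow q (ε / 16) hq1 hη X hX
  have e2 : ∀ᶠ N : ℕ in Filter.atTop, X * q ≤ ε / 4 * (N : ℝ) := by
    have : Filter.Tendsto (fun N : ℕ => ε / 4 * (N : ℝ)) Filter.atTop Filter.atTop :=
      Filter.Tendsto.const_mul_atTop (by positivity) tendsto_natCast_atTop_atTop
    exact this.eventually_ge_atTop _
  obtain ⟨N0, hN0⟩ := Filter.eventually_atTop.1 (e1.and (e2.and (Filter.eventually_gt_atTop 0)))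
  refine ⟨N0, fun N hN => ?_⟩
  obtain ⟨g1, g2, g3⟩ := hN0 N hN.le
  have hN' : (0 : ℝ) < N := by exact_mod_cast g3
  have g4 := key _ N hN'.le g1
  have g5 : ((⌊ε / 16 * (N : ℝ)⌋₊ : ℕ) : ℝ) ≤ ε / 16 * N := Nat.floor_le (by positivity)
  have g6 : ({n : ℕ | 1 ≤ n ∧ n ≤ N ∧ (n : ℤ) ∈ S}.ncard : ℝ) ≤
      ({n : ℤ | n ∈ S ∧ (1 : ℝ) ≤ n ∧ (n : ℝ) ≤ N}.ncard : ℝ) := by
    have := Set.ncard_le_ncard_of_injOn (s := {n : ℕ | 1 ≤ n ∧ n ≤ N ∧ (n : ℤ) ∈ S})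
      (t := {n : ℤ | n ∈ S ∧ (1 : ℝ) ≤ n ∧ (n : ℝ) ≤ N}) (fun n : ℕ => (n : ℤ))
      (by
        rintro n ⟨h1, h2, h3⟩
        refine ⟨h3, ?_, ?_⟩
        · have : (1 : ℝ) ≤ (n : ℝ) := by exact_mod_cast h1
          simpa using this
        · have : (n : ℝ) ≤ (N : ℝ) := by exact_mod_cast h2
          simpa using this)
      (fun a _ b _ hab => Nat.cast_injective hab) (fin_Icc _ _ _)
    exact_mod_cast this
  rw [Real.dist_eq, sub_zero, abs_of_nonneg (by positivity), div_lt_iff₀ hN']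
  have g7 : 0 < ε * N := by positivity
  nlinarith

end Beanstalk
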