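import Pool.Agent.Work.MP_8093a3_co.PathE

/-!
# Module GameW: a drawn position has odd part in `D`

Positional winning choice: for `n` odd in `W` let `rank n` be the least length of a derivation
(define `Wr : ℕ → ℤ → Prop`, `Wr 0 n` iff `3n+1 = 4^j` for some `j ≥ 2`, `Wr (r+1) n` iff
`Step v n m ∧ Wr r m` for some `v, m`; `W n ↔ ∃ r, Wr r n`), and choose `b : ℕ → Bool` with: if
`W n` and `rank n = 0` then `b n = true` (so the move leads to `3n+1 = 4^j`); if `rank n = r+1` then
`b n` is the sign of a `Step v n m` with `Wr r m`.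

Key lemma: let `p : ℕ → ℕ` be a play, `p (l+1) = move (p l) (c l)` with arbitrary choices `c`. If
`W (p i)` and `c l = b (p l)` for all `l ≥ i` with `l ≡ i (mod 2)`, then there is `k > i` with
`k - i` odd, `p k = 1` and `p l ≠ 1` for `i ≤ l < k`. Induction on the rank: the first move leads to
`2^v m` with `v` odd (then `v` forced halvings lead to `m` at time `i+1+v ≡ i (mod 2)`, all
intermediate positions are `≥ m ≥ 3`), or to `4^j` (then `2j` halvings lead to `1` at time
`i+1+2j`).

`n ≥ 2`, `n = 2^s m`, `m` odd: for all strategies the position after `s` moves is `m` (and the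
positions before are `≥ 2`). If `m = 1`: `s` odd gives `MoverWins`, `s` even `OpponentWins`. If
`m ≥ 3` and `W m`: `s` even: `MoverWins` with `σ h = b (h.headD 0)`; `s` odd: `OpponentWins` with
`τ h = b (h.headD 0)`. So `Drawn n` implies `m ≥ 3` and `¬ W m`.
-/

namespace Beanstalk

/-- derivations of length `r` -/
private def Wr : ℕ → ℤ → Prop
  | 0, n => ∃ j : ℕ, 2 ≤ j ∧ 3 * n + 1 = 4 ^ j
  | r + 1, n => ∃ (v : ℕ) (m : ℤ), Step v n m ∧ Wr r m

private theorem wr_of_w {n : ℤ} (h : W n) : ∃ r, Wr r n := by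
  induction h with
  | base j n hj h => exact ⟨0, j, hj, h⟩
  | step v n m hs _ ih =>
    obtain ⟨r, hr⟩ := ih
    exact ⟨r + 1, v, m, hs, hr⟩

private theorem w_of_wr : ∀ (r : ℕ) {n : ℤ}, Wr r n → W n
  | 0, _, ⟨j, hj, h⟩ => W.base j _ hj h
  | r + 1, _, ⟨v, m, hs, h⟩ => W.step v _ m hs (w_of_wr r h)

private theorem exists_choice : ∃ (b : ℕ → Bool) (rk : ℕ → ℕ), ∀ n : ℕ, W (n : ℤ) →
    (b n = true ∧ ∃ j : ℕ, 2 ≤ j ∧ 3 * n + 1 = 4 ^ j) ∨
    ∃ v m : ℕ, Odd v ∧ W (m : ℤ) ∧ rk m < rk n ∧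
      ((b n = true ∧ 3 * n + 1 = 2 ^ v * m) ∨ (b n = false ∧ 3 * n - 1 = 2 ^ v * m)) := by
  classical
  let rk : ℕ → ℕ := fun n => if h : ∃ r, Wr r (n : ℤ) then Nat.find h else 0
  have hloc : ∀ n : ℕ, ∃ b : Bool, W (n : ℤ) →
      (b = true ∧ ∃ j : ℕ, 2 ≤ j ∧ 3 * n + 1 = 4 ^ j) ∨
      ∃ v m : ℕ, Odd v ∧ W (m : ℤ) ∧ rk m < rk n ∧
        ((b = true ∧ 3 * n + 1 = 2 ^ v * m) ∨ (b = false ∧ 3 * n - 1 = 2 ^ v * m)) := by
    intro n
    by_cases hn : W (n : ℤ)
    · have hex := wr_of_w hn
      have hrk : rk n = Nat.find hex := dif_pos hex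
      have hspec := Nat.find_spec hex
      rw [← hrk] at hspec
      cases hr : rk n with
      | zero =>
        rw [hr] at hspec
        obtain ⟨j, hj, h⟩ := hspec
        exact ⟨true, fun _ => Or.inl ⟨rfl, j, hj, by exact_mod_cast h⟩⟩
      | succ r =>
        rw [hr] at hspec
        obtain ⟨v, m, hs, hm⟩ := hspec
        have hWm := w_of_wr r hm
        have hm3 := (W_ge hWm).2
        obtain ⟨m', rfl⟩ : ∃ m' : ℕ, m = (m' : ℤ) := ⟨m.toNat, (Int.toNat_of_nonneg (by omega)).symm⟩
        have hrkm : rk m' ≤ r := by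
          have hex' : ∃ r, Wr r (m' : ℤ) := ⟨r, hm⟩
          have : rk m' = Nat.find hex' := dif_pos hex'
          rw [this]
          exact Nat.find_min' hex' hm
        obtain ⟨hv, -, -, he⟩ := hs
        rcases he with he | he
        · refine ⟨true, fun _ => Or.inr ⟨v, m', hv, hWm, by omega, Or.inl ⟨rfl, ?_⟩⟩⟩
          exact_mod_cast he
        · refine ⟨false, fun _ => Or.inr ⟨v, m', hv, hWm, by omega, Or.inr ⟨rfl, ?_⟩⟩⟩
          have h1 : 3 * (n : ℤ) = 2 ^ v * m' + 1 := by linarith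
          have h2 : 3 * n = 2 ^ v * m' + 1 := by exact_mod_cast h1
          omega
    · exact ⟨true, fun h => absurd h hn⟩
  choose b hb using hloc
  exact ⟨b, rk, hb⟩

/-- forced halvings -/
private theorem halving (p : ℕ → ℕ) (c : ℕ → Bool) (hp : ∀ l, p (l + 1) = move (p l) (c l))
    (a v m : ℕ) (h : p a = 2 ^ v * m) : ∀ t ≤ v, p (a + t) = 2 ^ (v - t) * m := by
  intro t
  induction t with
  | zero => intro _; simpa using h
  | succ t ih =>
    intro ht
    have h1 := ih (by omega)
    have h2 : v - t = (v - (t + 1)) + 1 := by omega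
    have h3 : p (a + t) = 2 * (2 ^ (v - (t + 1)) * m) := by
      rw [h1, h2, pow_succ']; ring
    rw [← add_assoc, hp, h3]
    unfold move
    rw [if_pos (by omega)]
    omega

private theorem move_odd_true {n : ℕ} (h : n % 2 = 1) : move n true = 3 * n + 1 := by
  unfold move
  rw [if_neg (by omega)]
  simp

private theorem move_odd_false {n : ℕ} (h : n % 2 = 1) : move n false = 3 * n - 1 := by
  unfold move
  rw [if_neg (by omega)]
  simp

private theorem key (b : ℕ → Bool) (rk : ℕ → ℕ) (hb : ∀ n : ℕ, W (n : ℤ) →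
    (b n = true ∧ ∃ j : ℕ, 2 ≤ j ∧ 3 * n + 1 = 4 ^ j) ∨
    ∃ v m : ℕ, Odd v ∧ W (m : ℤ) ∧ rk m < rk n ∧
      ((b n = true ∧ 3 * n + 1 = 2 ^ v * m) ∨ (b n = false ∧ 3 * n - 1 = 2 ^ v * m)))
    (p : ℕ → ℕ) (c : ℕ → Bool) (hp : ∀ l, p (l + 1) = move (p l) (c l)) :
    ∀ (R i : ℕ), rk (p i) = R → W (p i : ℤ) → (∀ l, i ≤ l → l % 2 = i % 2 → c l = b (p l)) →
      ∃ k, i < k ∧ (k - i) % 2 = 1 ∧ p k = 1 ∧ ∀ l, i ≤ l → l < k → p l ≠ 1 := by
  intro R
  induction R using Nat.strong_induction_on with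
  | _ R ih =>
    intro i hR hW hc
    have hge := W_ge hW
    have hodd : p i % 2 = 1 := by
      have := Int.odd_iff.1 hge.1
      omega
    have h3 : 3 ≤ p i := by exact_mod_cast hge.2
    have hci : c i = b (p i) := hc i le_rfl rfl
    rcases hb (p i) hW with ⟨hbt, j, hj, he⟩ | ⟨v, m, hv, hWm, hrk, he⟩
    · -- base
      have h1 : p (i + 1) = 2 ^ (2 * j) * 1 := by
        rw [hp, hci, hbt, move_odd_true hodd, he, pow_mul]
        norm_num
      have h2 := halving p c hp (i + 1) (2 * j) 1 h1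
      refine ⟨i + 1 + 2 * j, by omega, by omega, ?_, ?_⟩
      · rw [h2 (2 * j) le_rfl]; simp
      · intro l hl1 hl2
        rcases Nat.eq_or_lt_of_le hl1 with rfl | hl
        · omega
        · obtain ⟨t, rfl⟩ : ∃ t, l = i + 1 + t := ⟨l - (i + 1), by omega⟩
          rw [h2 t (by omega)]
          have h4 : 2 * j - t = (2 * j - t - 1) + 1 := by omega
          rw [h4, pow_succ]
          have := Nat.one_le_two_pow (n := 2 * j - t - 1)
          omega
    · -- step
      have hm3 : 3 ≤ m := by exact_mod_cast (W_ge hWm).2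
      have h1 : p (i + 1) = 2 ^ v * m := by
        rcases he with ⟨hbt, he⟩ | ⟨hbf, he⟩
        · rw [hp, hci, hbt, move_odd_true hodd, he]
        · rw [hp, hci, hbf, move_odd_false hodd, he]
      have h2 := halving p c hp (i + 1) v m h1
      have h4 : p (i + 1 + v) = m := by
        rw [h2 v le_rfl]; simp
      have hv' : v % 2 = 1 := Nat.odd_iff.1 hv
      obtain ⟨k, hk1, hk2, hk3, hk4⟩ := ih (rk m) (by omega) (i + 1 + v) (by rw [h4])
        (by rw [h4]; exact hWm) (fun l hl1 hl2 => hc l (by omega) (by omega))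
      refine ⟨k, by omega, by omega, hk3, ?_⟩
      intro l hl1 hl2
      rcases Nat.eq_or_lt_of_le hl1 with rfl | hl
      · omega
      · by_cases hlv : l < i + 1 + v
        · obtain ⟨t, rfl⟩ : ∃ t, l = i + 1 + t := ⟨l - (i + 1), by omega⟩
          rw [h2 t (by omega)]
          have := Nat.one_le_two_pow (n := v - t)
          nlinarith
        · exact hk4 l (by omega) hl2

private theorem pos_succ (n : ℕ) (σ τ : Strategy) (i : ℕ) :
    pos n σ τ (i + 1) = move (pos n σ τ i) ((if i % 2 = 0 then σ else τ) (history n σ τ i)) := rfl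

theorem drawn_odd_part (n : ℕ) (h : Drawn n) : ∃ s m : ℕ, n = 2 ^ s * m ∧ D (m : ℤ) := by
  obtain ⟨hn2, hM, hO⟩ := h
  obtain ⟨s, m, hmo, hnm⟩ := Nat.exists_eq_two_pow_mul_odd (n := n) (by omega)
  have hm1 : m % 2 = 1 := Nat.odd_iff.1 hmo
  refine ⟨s, m, hnm, Int.odd_iff.2 (by omega), ?_, ?_⟩
  · -- m ≥ 3
    by_contra hlt
    have hm : m = 1 := by omega
    subst hm
    have hs : s ≠ 0 := by
      rintro rfl
      simp at hnm
      omega
    have hreach : ∀ σ τ : Strategy, ReachesOneAt n σ τ s := by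
      intro σ τ
      have h2 := halving (pos n σ τ) _ (pos_succ n σ τ) 0 s 1 (by exact hnm)
      constructor
      · have := h2 s le_rfl
        simpa using this
      · intro i hi
        have := h2 i hi.le
        rw [zero_add] at this
        rw [this]
        have h4 : s - i = (s - i - 1) + 1 := by omega
        rw [h4, pow_succ]
        have := Nat.one_le_two_pow (n := s - i - 1)
        omega
    rcases Nat.even_or_odd s with he | ho
    · exact hO ⟨fun _ => true, fun σ => ⟨s, he, hreach _ _⟩⟩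
    · exact hM ⟨fun _ => true, fun τ => ⟨s, ho, hreach _ _⟩⟩
  · intro hW
    obtain ⟨b, rk, hb⟩ := exists_choice
    have hm3 : 3 ≤ m := by exact_mod_cast (W_ge hW).2
    have main : ∀ σ τ : Strategy,
        (∀ l, s ≤ l → l % 2 = s % 2 → (if l % 2 = 0 then σ else τ) (history n σ τ l) =
          b (pos n σ τ l)) →
        ∃ k, s < k ∧ (k - s) % 2 = 1 ∧ ReachesOneAt n σ τ k := by
      intro σ τ hc
      have h2 := halving (pos n σ τ) _ (pos_succ n σ τ) 0 s m (by exact hnm)
      have h3 : pos n σ τ s = m := by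
        have := h2 s le_rfl
        simpa using this
      obtain ⟨k, hk1, hk2, hk3, hk4⟩ := key b rk hb (pos n σ τ) _ (pos_succ n σ τ)
        (rk m) s (by rw [h3]) (by rw [h3]; exact hW) hc
      refine ⟨k, hk1, hk2, hk3, ?_⟩
      intro i hi
      by_cases his : i < s
      · have := h2 i his.le
        rw [zero_add] at this
        rw [this]
        have := Nat.one_le_two_pow (n := s - i)
        nlinarith
      · exact hk4 i (by omega) hi
    rcases Nat.even_or_odd s with he | ho
    · apply hM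
      have he' := Nat.even_iff.1 he
      refine ⟨fun h => b (h.headD 0), fun τ => ?_⟩
      obtain ⟨k, hk1, hk2, hk3⟩ := main (fun h => b (h.headD 0)) τ (by
        intro l hl1 hl2
        rw [if_pos (by omega)]
        rfl)
      exact ⟨k, Nat.odd_iff.2 (by omega), hk3⟩
    · apply hO
      have ho' := Nat.odd_iff.1 ho
      refine ⟨fun h => b (h.headD 0), fun σ => ?_⟩
      obtain ⟨k, hk1, hk2, hk3⟩ := main σ (fun h => b (h.headD 0)) (by
        intro l hl1 hl2
        rw [if_neg (by omega)]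
        rfl)
      exact ⟨k, Nat.even_iff.2 (by omega), hk3⟩

end Beanstalk
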