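import Pool.Agent.Work.MP_8093a3_co.DensD
import Pool.Agent.Work.MP_8093a3_co.DensSum
import Pool.Agent.Work.MP_8093a3_co.DensEven
import Pool.Agent.Work.MP_8093a3_co.GameW

/-!
# Final assembly
-/

namespace Beanstalk

open Filter

theorem main : Tendsto (fun N : ℕ => ({n : ℕ | 1 ≤ n ∧ n ≤ N ∧ Drawn n}.ncard : ℝ) / N)
    atTop (nhds 0) := by
  have h1 := dens_sum {n : ℤ | D n} (fun ε hε => dens_piece ε hε)
  have h2 := dens_even {m : ℕ | D (m : ℤ)} {n : ℕ | Drawn n}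
    (fun n hn => by
      obtain ⟨s, m, h, h'⟩ := drawn_odd_part n hn
      exact ⟨s, m, h, h'⟩) h1
  exact h2

end Beanstalk
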