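import Mathlib

/-!
# The game Beanstalk

Positions are integers `n ≥ 2`; at an even position the move is `n ↦ n/2`, at an odd position the
mover chooses `3n+1` or `3n-1`. The player who makes the move to `1` wins; an infinite play is won
by nobody. A position is drawn if neither player can force a win.
-/

namespace Beanstalk

/-- The position reached from `n`: an even position is halved; at an odd position the mover's
choice `b` leads to `3n+1` (`b = true`) or `3n-1` (`b = false`). -/
def move (n : ℕ) (b : Bool) : ℕ :=
  if n % 2 = 0 then n / 2 else if b then 3 * n + 1 else 3 * n - 1

/-- A strategy chooses a sign, given the list of all positions so far, most recent first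
(the choice is used only at odd positions). -/
abbrev Strategy := List ℕ → Bool

/-- The list of positions (most recent first) after `i` moves of the play which starts at `n`.
The player to move at `n` makes the moves number `0, 2, 4, …` and follows `σ`; the opponent
makes the moves number `1, 3, 5, …` and follows `τ`. -/
def history (n : ℕ) (σ τ : Strategy) : ℕ → List ℕ
  | 0 => [n]
  | i + 1 =>
      move ((history n σ τ i).headD 0) ((if i % 2 = 0 then σ else τ) (history n σ τ i)) ::
        history n σ τ i

/-- The position after `i` moves. -/
def pos (n : ℕ) (σ τ : Strategy) (i : ℕ) : ℕ := (history n σ τ i).headD 0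

/-- The play reaches `1` after exactly `k` moves (and not before). The last of these moves is
made by the player to move at the start if `k` is odd, and by the opponent if `k` is even. -/
def ReachesOneAt (n : ℕ) (σ τ : Strategy) (k : ℕ) : Prop :=
  pos n σ τ k = 1 ∧ ∀ i < k, pos n σ τ i ≠ 1

/-- The player to move at `n` can force a win. -/
def MoverWins (n : ℕ) : Prop :=
  ∃ σ : Strategy, ∀ τ : Strategy, ∃ k, Odd k ∧ ReachesOneAt n σ τ k

/-- The opponent of the player to move at `n` can force a win. -/
def OpponentWins (n : ℕ) : Prop :=
  ∃ τ : Strategy, ∀ σ : Strategy, ∃ k, Even k ∧ ReachesOneAt n σ τ k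

/-- `n` is a drawn position of Beanstalk. -/
def Drawn (n : ℕ) : Prop := 2 ≤ n ∧ ¬ MoverWins n ∧ ¬ OpponentWins n

end Beanstalk
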