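import Pool.Agent.Work.MP_8093a3_co.CntInterval

/-!
# Module NTerm: measure of a union of windows around a periodic set, and measurability

* `nterm`: if `y ∈ [y0,y1]` and `|σy - n| ≤ w` then `σy0 - w ≤ n ≤ σy1 + w`; by `cnt_interval`
  there are at most `((σ(y1-y0)+2w)/2^L + 1) cnt L P` such `n` with `P n` (a finite set), and for
  each of them `{y : |σy-n| ≤ w}` is an interval of length `2w/σ`. Union bound
  (`MeasureTheory.measure_biUnion_finset_le`, everything has finite measure).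
* `measurable_window`: `{y | y ∈ Icc y0 y1 ∧ σ y ∈ U w}` is a countable union (over `n : ℤ`) of
  closed sets.
* `Phi_mono`: larger radius, larger set; all sets lie in `[y0,y1]`.
-/

open MeasureTheory

namespace Beanstalk

/-- a window `{y : |σ y - n| ≤ w}` as an interval -/
theorem window_eq (σ w : ℝ) (hσ : 0 < σ) (n : ℝ) :
    {y : ℝ | |σ * y - n| ≤ w} = Set.Icc ((n - w) / σ) ((n + w) / σ) := by
  ext y
  rw [Set.mem_ofPred_eq, Set.mem_Icc, abs_le, div_le_iff₀ hσ, le_div_iff₀ hσ]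
  constructor
  · rintro ⟨h1, h2⟩; constructor <;> linarith
  · rintro ⟨h1, h2⟩; constructor <;> linarith

theorem nterm (L : ℕ) (P : ℤ → Prop) (hP : Per L P) (y0 y1 σ w : ℝ) (hσ : 0 < σ)
    (hy : y0 ≤ y1) (hw : 0 ≤ w) :
    (volume {y : ℝ | y ∈ Set.Icc y0 y1 ∧ ∃ n : ℤ, P n ∧ |σ * y - n| ≤ w}).toReal ≤
      (2 * w / σ) * (((σ * (y1 - y0) + 2 * w) / 2 ^ L + 1) * cnt L P) := by
  classical
  have hxy : σ * y0 - w ≤ σ * y1 + w := by nlinarith
  obtain ⟨hfin, hcard⟩ := cnt_interval L P hP (σ * y0 - w) (σ * y1 + w) hxy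
  set F : Finset ℤ := hfin.toFinset with hF
  have hsub : {y : ℝ | y ∈ Set.Icc y0 y1 ∧ ∃ n : ℤ, P n ∧ |σ * y - n| ≤ w} ⊆
      ⋃ n ∈ F, {y : ℝ | |σ * y - n| ≤ w} := by
    rintro y ⟨⟨h0, h1⟩, n, hn, hd⟩
    rw [Set.mem_iUnion₂]
    refine ⟨n, ?_, hd⟩
    rw [hF, Set.Finite.mem_toFinset]
    rw [abs_le] at hd
    have e0 : σ * y0 ≤ σ * y := mul_le_mul_of_nonneg_left h0 hσ.le
    have e1 : σ * y ≤ σ * y1 := mul_le_mul_of_nonneg_left h1 hσ.le
    exact ⟨by linarith [hd.1, hd.2], by linarith [hd.1, hd.2], hn⟩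
  have hvol : ∀ n : ℤ, volume {y : ℝ | |σ * y - n| ≤ w} = ENNReal.ofReal (2 * w / σ) := by
    intro n
    rw [window_eq σ w hσ, Real.volume_Icc]
    congr 1
    field_simp
    ring
  have hle : volume {y : ℝ | y ∈ Set.Icc y0 y1 ∧ ∃ n : ℤ, P n ∧ |σ * y - n| ≤ w} ≤
      (F.card : ENNReal) * ENNReal.ofReal (2 * w / σ) := by
    calc volume {y : ℝ | y ∈ Set.Icc y0 y1 ∧ ∃ n : ℤ, P n ∧ |σ * y - n| ≤ w}
        ≤ volume (⋃ n ∈ F, {y : ℝ | |σ * y - n| ≤ w}) := measure_mono hsub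
      _ ≤ ∑ n ∈ F, volume {y : ℝ | |σ * y - n| ≤ w} := measure_biUnion_finset_le _ _
      _ = ∑ n ∈ F, ENNReal.ofReal (2 * w / σ) := Finset.sum_congr rfl (fun n _ => hvol n)
      _ = (F.card : ENNReal) * ENNReal.ofReal (2 * w / σ) := by
          rw [Finset.sum_const, nsmul_eq_mul]
  have hnn : 0 ≤ 2 * w / σ := by positivity
  have h1 : (volume {y : ℝ | y ∈ Set.Icc y0 y1 ∧ ∃ n : ℤ, P n ∧ |σ * y - n| ≤ w}).toReal ≤
      F.card * (2 * w / σ) := by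
    refine ENNReal.toReal_le_of_le_ofReal (by positivity) ?_
    refine le_trans hle ?_
    rw [ENNReal.ofReal_mul (by positivity), ENNReal.ofReal_natCast]
  have hFc : (F.card : ℝ) ≤ ((σ * (y1 - y0) + 2 * w) / 2 ^ L + 1) * cnt L P := by
    have : F.card = {n : ℤ | σ * y0 - w ≤ n ∧ (n : ℝ) ≤ σ * y1 + w ∧ P n}.ncard := by
      rw [hF, Set.ncard_eq_toFinset_card _ hfin]
    rw [this]
    refine le_trans hcard (le_of_eq ?_)
    congr 2
    ring
  calc (volume {y : ℝ | y ∈ Set.Icc y0 y1 ∧ ∃ n : ℤ, P n ∧ |σ * y - n| ≤ w}).toReal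
      ≤ F.card * (2 * w / σ) := h1
    _ = (2 * w / σ) * F.card := by ring
    _ ≤ _ := mul_le_mul_of_nonneg_left hFc hnn

theorem measurable_window (y0 y1 σ w : ℝ) :
    MeasurableSet {y : ℝ | y ∈ Set.Icc y0 y1 ∧ σ * y ∈ U w} := by
  have h : {y : ℝ | y ∈ Set.Icc y0 y1 ∧ σ * y ∈ U w} =
      Set.Icc y0 y1 ∩ ⋃ n : ℤ, {y : ℝ | D n ∧ |σ * y - n| ≤ w} := by
    ext y
    simp only [U, Set.mem_ofPred_eq, Set.mem_inter_iff, Set.mem_iUnion]
  rw [h]
  refine measurableSet_Icc.inter (MeasurableSet.iUnion fun n => ?_)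
  by_cases hn : D n
  · have : {y : ℝ | D n ∧ |σ * y - n| ≤ w} = {y : ℝ | |σ * y - n| ≤ w} := by
      ext y; simp [hn]
    rw [this]
    exact (isClosed_le (by fun_prop) continuous_const).measurableSet
  · have : {y : ℝ | D n ∧ |σ * y - n| ≤ w} = ∅ := by
      ext y; simp [hn]
    rw [this]
    exact MeasurableSet.empty

theorem Phi_set_ne_top (y0 y1 σ w : ℝ) :
    volume {y : ℝ | y ∈ Set.Icc y0 y1 ∧ σ * y ∈ U w} ≠ ⊤ := by
  refine ne_top_of_le_ne_top (b := volume (Set.Icc y0 y1)) ?_ (measure_mono fun y hy => hy.1)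
  rw [Real.volume_Icc]
  exact ENNReal.ofReal_ne_top

theorem Phi_mono (y0 y1 σ w w' : ℝ) (h : w ≤ w') : Phi y0 y1 σ w ≤ Phi y0 y1 σ w' := by
  refine ENNReal.toReal_mono (Phi_set_ne_top _ _ _ _) (measure_mono ?_)
  rintro y ⟨hy, n, hn, hd⟩
  exact ⟨hy, n, hn, le_trans hd h⟩

theorem Phi_nonneg (y0 y1 σ w : ℝ) : 0 ≤ Phi y0 y1 σ w := ENNReal.toReal_nonneg

end Beanstalk
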