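import Pool.Agent.Work.MP_8093a3_co.LatRec
import Pool.Agent.Work.MP_8093a3_co.NTerm

/-!
# Module BaseLemma: one block of type `(3m,5m)` into a `W`-full interval

If `y ∈ [y0,y1]`, `D n`, `|(32/27)^m y - n| ≤ w`, then `n` is `bad0 (3m) (5m)`: otherwise
`Path (3m) (5m) n N` for some `N`, `|N - (27/32)^m n| ≤ (3/2)^{3m}` (`path_err`,
`3^{3m}/2^{5m} = (27/32)^m`), `|(27/32)^m n - y| ≤ (27/32)^m w ≤ w`, so
`N ∈ [y0 - w - (3/2)^{3m}, y1 + w + (3/2)^{3m}]` is odd, hence in `W`, and `W n` by `W_of_path`,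
a contradiction. Then `nterm` with `L = 5m+1`, `P = bad0 (3m) (5m)` (`bad0_per`), and
`lattice_bound` with `(k,d) = (3m,m)`.
-/

open MeasureTheory

namespace Beanstalk

theorem base_lemma (m : ℕ) (y0 y1 w : ℝ) (hw : 0 ≤ w) (hy : y0 ≤ y1)
    (hfull : WFull (y0 - w - (3 / 2) ^ (3 * m)) (y1 + w + (3 / 2) ^ (3 * m))) :
    Phi y0 y1 ((32 / 27) ^ m) w ≤
      (2 * w / (32 / 27) ^ m) * ((((32 / 27) ^ m * (y1 - y0) + 2 * w) / 2 ^ (5 * m + 1) + 1) *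
        (3 * (1073 / 1000) ^ m * (40 / 41) ^ (3 * m) * 2 ^ (5 * m))) := by
  have hσ : (0 : ℝ) < (32 / 27) ^ m := by positivity
  have hsub : {y : ℝ | y ∈ Set.Icc y0 y1 ∧ (32 / 27) ^ m * y ∈ U w} ⊆
      {y : ℝ | y ∈ Set.Icc y0 y1 ∧ ∃ n : ℤ, bad0 (3 * m) (5 * m) n ∧ |(32 / 27) ^ m * y - n| ≤ w} := by
    rintro y ⟨hyI, n, hn, hd⟩
    refine ⟨hyI, n, ⟨hn.1, ?_⟩, hd⟩
    rintro ⟨N, hN⟩
    apply hn.2.2
    refine W_of_path hN ?_
    have he := path_err hN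
    have e1 : (3 : ℝ) ^ (3 * m) / 2 ^ (5 * m) = (27 / 32) ^ m := by
      rw [pow_mul, pow_mul, ← div_pow]; norm_num
    rw [e1] at he
    have e2 : (27 / 32 : ℝ) ^ m * (32 / 27) ^ m = 1 := by
      rw [← mul_pow]; norm_num
    have hl0 : (0 : ℝ) < (27 / 32) ^ m := by positivity
    have hl1 : (27 / 32 : ℝ) ^ m ≤ 1 := pow_le_one₀ (by norm_num) (by norm_num)
    have e3 : |(27 / 32 : ℝ) ^ m * n - y| ≤ w := by
      have : (27 / 32 : ℝ) ^ m * n - y = -((27 / 32 : ℝ) ^ m * ((32 / 27) ^ m * y - n)) := by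
        rw [mul_sub, ← mul_assoc, e2]; ring
      rw [this, abs_neg, abs_mul, abs_of_pos hl0]
      calc (27 / 32 : ℝ) ^ m * |(32 / 27) ^ m * y - n| ≤ 1 * w :=
            mul_le_mul hl1 hd (abs_nonneg _) (by norm_num)
        _ = w := one_mul w
    have e4 : |(N : ℝ) - y| ≤ (3 / 2) ^ (3 * m) + w := by
      have : (N : ℝ) - y = ((N : ℝ) - (27 / 32) ^ m * n) + ((27 / 32) ^ m * n - y) := by ring
      rw [this]
      refine le_trans (abs_add_le _ _) ?_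
      linarith
    have e5 := abs_le.mp e4
    exact hfull N (path_odd hN).2 (by linarith [e5.1, hyI.1]) (by linarith [e5.2, hyI.2])
  have hIcc : volume (Set.Icc y0 y1) ≠ ⊤ := by
    rw [Real.volume_Icc]; exact ENNReal.ofReal_ne_top
  have h1 : Phi y0 y1 ((32 / 27) ^ m) w ≤
      (volume {y : ℝ | y ∈ Set.Icc y0 y1 ∧ ∃ n : ℤ, bad0 (3 * m) (5 * m) n ∧
        |(32 / 27) ^ m * y - n| ≤ w}).toReal :=
    ENNReal.toReal_mono (ne_top_of_le_ne_top hIcc (measure_mono fun y hy => hy.1))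
      (measure_mono hsub)
  refine le_trans h1 ?_
  refine le_trans (nterm (5 * m + 1) (bad0 (3 * m) (5 * m)) (bad0_per (3 * m) (5 * m)) y0 y1 _ w hσ
    hy hw) ?_
  have hlat := lattice_bound (3 * m) m
  have e6 : 3 * m + 2 * m = 5 * m := by ring
  rw [e6] at hlat
  have hnn : 0 ≤ ((32 / 27) ^ m * (y1 - y0) + 2 * w) / 2 ^ (5 * m + 1) + 1 := by
    have : 0 ≤ y1 - y0 := by linarith
    positivity
  refine mul_le_mul_of_nonneg_left ?_ (by positivity)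
  exact mul_le_mul_of_nonneg_left hlat hnn

end Beanstalk
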