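import Pool.Agent.Work.MP_8093a3_co.Defs

/-!
# Module CntInterval

`cnt_interval`: the integers in `[x,y]` lie in `⌊(y-x)/2^L⌋+1` consecutive intervals
`[z, z+2^L)` of integers starting at `z = ⌈x⌉`, and each contains exactly `cnt L P` integers
with `P` (periodicity; `Per L P` is stated with `j : ℤ`, so it is an equivalence).
-/

namespace Beanstalk

theorem Per.iff {L : ℕ} {P : ℤ → Prop} (hP : Per L P) (n j : ℤ) : P (n + 2 ^ L * j) ↔ P n := by
  constructor
  · intro h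
    have := hP _ (-j) h
    have e : n + 2 ^ L * j + 2 ^ L * -j = n := by ring
    rwa [e] at this
  · exact hP n j

open Classical in
/-- one full period `[z, z+2^L)` contains `cnt L P` integers with `P` -/
theorem cnt_period (L : ℕ) (P : ℤ → Prop) (hP : Per L P) (z : ℤ) :
    ((Finset.Ico z (z + 2 ^ L)).filter P).card ≤ cnt L P := by
  unfold cnt
  have hpos : (0 : ℤ) < 2 ^ L := by positivity
  refine Finset.card_le_card_of_injOn (fun n => (n % 2 ^ L).toNat) ?_ ?_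
  · intro n hn
    have hn' := Finset.mem_filter.mp hn
    have h0 : 0 ≤ n % 2 ^ L := Int.emod_nonneg _ hpos.ne'
    have hlt : n % 2 ^ L < 2 ^ L := Int.emod_lt_of_pos _ hpos
    rw [Finset.mem_coe, Finset.mem_filter, Finset.mem_range]
    constructor
    · have : ((n % 2 ^ L).toNat : ℤ) < ((2 ^ L : ℕ) : ℤ) := by
        rw [Int.toNat_of_nonneg h0]; push_cast; exact hlt
      exact_mod_cast this
    · have e : (((n % 2 ^ L).toNat : ℕ) : ℤ) = n + 2 ^ L * (-(n / 2 ^ L)) := by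
        rw [Int.toNat_of_nonneg h0]
        have := Int.emod_add_mul_ediv n (2 ^ L)
        linarith
      rw [e]
      exact hP _ _ hn'.2
  · intro n hn n' hn' heq
    have hn1 := Finset.mem_Ico.mp (Finset.mem_filter.mp hn).1
    have hn2 := Finset.mem_Ico.mp (Finset.mem_filter.mp hn').1
    have h0 : 0 ≤ n % 2 ^ L := Int.emod_nonneg _ hpos.ne'
    have h0' : 0 ≤ n' % 2 ^ L := Int.emod_nonneg _ hpos.ne'
    have heq' : n % 2 ^ L = n' % 2 ^ L := by
      simp only at heq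
      have : (((n % 2 ^ L).toNat : ℕ) : ℤ) = (((n' % 2 ^ L).toNat : ℕ) : ℤ) := by rw [heq]
      rwa [Int.toNat_of_nonneg h0, Int.toNat_of_nonneg h0'] at this
    have hdvd : (2 : ℤ) ^ L ∣ n - n' := Int.ModEq.dvd (Int.ModEq.symm heq')
    have h4 : n - n' = 0 := by
      refine Int.eq_zero_of_abs_lt_dvd hdvd ?_
      rw [abs_lt]
      constructor <;> linarith [hn1.1, hn1.2, hn2.1, hn2.2]
    linarith

open Classical in
theorem cnt_periods (L : ℕ) (P : ℤ → Prop) (hP : Per L P) (z : ℤ) (q : ℕ) :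
    ((Finset.Ico z (z + q * 2 ^ L)).filter P).card ≤ q * cnt L P := by
  induction q with
  | zero => simp
  | succ q ih =>
    have hsub : (Finset.Ico z (z + (q + 1 : ℕ) * 2 ^ L)).filter P ⊆
        (Finset.Ico z (z + q * 2 ^ L)).filter P ∪
          (Finset.Ico (z + q * 2 ^ L) (z + q * 2 ^ L + 2 ^ L)).filter P := by
      intro n hn
      rw [Finset.mem_filter, Finset.mem_Ico] at hn
      rw [Finset.mem_union, Finset.mem_filter, Finset.mem_filter, Finset.mem_Ico, Finset.mem_Ico]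
      obtain ⟨⟨h1, h2⟩, h3⟩ := hn
      push_cast at h2
      by_cases hc : n < z + q * 2 ^ L
      · exact Or.inl ⟨⟨h1, hc⟩, h3⟩
      · refine Or.inr ⟨⟨by linarith, by linarith⟩, h3⟩
    calc ((Finset.Ico z (z + (q + 1 : ℕ) * 2 ^ L)).filter P).card
        ≤ _ := Finset.card_le_card hsub
      _ ≤ _ := Finset.card_union_le _ _
      _ ≤ q * cnt L P + cnt L P := add_le_add ih (cnt_period L P hP _)
      _ = (q + 1) * cnt L P := by ring

theorem cnt_interval (L : ℕ) (P : ℤ → Prop) (hP : Per L P) (x y : ℝ) (hxy : x ≤ y) :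
    {n : ℤ | x ≤ n ∧ (n : ℝ) ≤ y ∧ P n}.Finite ∧
    ({n : ℤ | x ≤ n ∧ (n : ℝ) ≤ y ∧ P n}.ncard : ℝ) ≤ ((y - x) / 2 ^ L + 1) * cnt L P := by
  classical
  have hpos : (0 : ℝ) < 2 ^ L := by positivity
  set q : ℕ := ⌊(y - x) / 2 ^ L⌋₊ + 1 with hq
  have hq1 : (y - x) / 2 ^ L < q := by
    rw [hq]; push_cast; exact Nat.lt_floor_add_one _
  have hq2 : (q : ℝ) ≤ (y - x) / 2 ^ L + 1 := by
    rw [hq]; push_cast
    have := Nat.floor_le (show 0 ≤ (y - x) / 2 ^ L from div_nonneg (by linarith) hpos.le)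
    linarith
  have hsub : {n : ℤ | x ≤ n ∧ (n : ℝ) ≤ y ∧ P n} ⊆
      (((Finset.Ico ⌈x⌉ (⌈x⌉ + q * 2 ^ L)).filter P : Finset ℤ) : Set ℤ) := by
    rintro n ⟨h1, h2, h3⟩
    rw [Finset.mem_coe, Finset.mem_filter, Finset.mem_Ico]
    refine ⟨⟨Int.ceil_le.mpr h1, ?_⟩, h3⟩
    have h4 : y - x < q * 2 ^ L := by rwa [div_lt_iff₀ hpos] at hq1
    have h5 : (n : ℝ) < (⌈x⌉ : ℝ) + q * 2 ^ L := by
      have := Int.le_ceil x
      linarith
    exact_mod_cast h5
  refine ⟨Set.Finite.subset (Finset.finite_toSet _) hsub, ?_⟩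
  have h1 : {n : ℤ | x ≤ n ∧ (n : ℝ) ≤ y ∧ P n}.ncard ≤
      ((Finset.Ico ⌈x⌉ (⌈x⌉ + q * 2 ^ L)).filter P).card := by
    rw [← Set.ncard_coe_finset]
    exact Set.ncard_le_ncard hsub (Finset.finite_toSet _)
  have h2 := cnt_periods L P hP ⌈x⌉ q
  have h3 : ({n : ℤ | x ≤ n ∧ (n : ℝ) ≤ y ∧ P n}.ncard : ℝ) ≤ ((q * cnt L P : ℕ) : ℝ) := by
    exact_mod_cast le_trans h1 h2
  refine le_trans h3 ?_
  push_cast
  exact mul_le_mul_of_nonneg_right hq2 (by positivity)

end Beanstalk
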