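import Pool.Agent.Work.MP_8093a3_co.Defs

/-!
# Module CntTools: counting residue classes

`cnt L P = #{n ∈ [0,2^L) : P n}`.

* `cnt_le_of_rel`: map `n` to `(X mod 2^{L'})` where `X` is chosen with `S' X ∧ R n X`
  (as a natural number `< 2^{L'}`; `S'` holds there by periodicity, with `j` of either sign);
  it is injective on `{n < 2^L : S n}` because two integers in `[0,2^L)` that are congruent
  modulo `2^L` are equal.
* `cnt_classes`: every `n < 2^{M+L}` is `ρ + 2^M j` with unique `ρ < 2^M`, `j < 2^L`.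
-/

namespace Beanstalk

open Finset

theorem cnt_mono (L : ℕ) (P Q : ℤ → Prop) (h : ∀ n, P n → Q n) : cnt L P ≤ cnt L Q := by
  classical
  unfold cnt
  refine Finset.card_le_card ?_
  intro n hn
  rw [Finset.mem_filter] at hn ⊢
  exact ⟨hn.1, h _ hn.2⟩

theorem cnt_or_le (L : ℕ) (P Q R : ℤ → Prop) (h : ∀ n, P n → Q n ∨ R n) :
    cnt L P ≤ cnt L Q + cnt L R := by
  classical
  unfold cnt
  refine le_trans (Finset.card_le_card ?_) (Finset.card_union_le _ _)
  intro n hn
  rw [Finset.mem_filter] at hn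
  rw [Finset.mem_union, Finset.mem_filter, Finset.mem_filter]
  rcases h _ hn.2 with h1 | h1
  · exact Or.inl ⟨hn.1, h1⟩
  · exact Or.inr ⟨hn.1, h1⟩

theorem cnt_false (L : ℕ) (P : ℤ → Prop) (h : ∀ n, ¬ P n) : cnt L P = 0 := by
  classical
  unfold cnt
  rw [Finset.card_eq_zero, Finset.filter_eq_empty_iff]
  intro n _
  exact h _

/-- there are `2^L` odd numbers below `2^(L+1)` -/
theorem cnt_odd_le (L : ℕ) (P : ℤ → Prop) (h : ∀ n, P n → Odd n) : cnt (L + 1) P ≤ 2 ^ L := by
  classical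
  unfold cnt
  have hcard : (Finset.range (2 ^ L)).card = 2 ^ L := Finset.card_range _
  calc ((Finset.range (2 ^ (L + 1))).filter (fun n : ℕ => P (n : ℤ))).card
      ≤ (Finset.range (2 ^ L)).card := by
        refine Finset.card_le_card_of_injOn (fun n => n / 2) ?_ ?_
        · intro n hn
          have hn' := Finset.mem_filter.mp hn
          have h1 := Finset.mem_range.mp hn'.1
          rw [Finset.mem_coe, Finset.mem_range]
          rw [pow_succ] at h1
          simp only
          omega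
        · intro n hn n' hn' heq
          have h1 := (Finset.mem_filter.mp hn).2
          have h2 := (Finset.mem_filter.mp hn').2
          have o1 := h _ h1
          have o2 := h _ h2
          have o1' : Odd n := by exact_mod_cast o1
          have o2' : Odd n' := by exact_mod_cast o2
          obtain ⟨a, ha⟩ := o1'
          obtain ⟨b, hb⟩ := o2'
          simp only at heq
          omega
    _ = 2 ^ L := hcard

theorem cnt_le_of_rel (L L' : ℕ) (S S' : ℤ → Prop) (R : ℤ → ℤ → Prop) (hper : Per L' S')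
    (h : ∀ n, S n → ∃ X, S' X ∧ R n X)
    (hinj : ∀ n n' X X', S n → S n' → R n X → R n' X' → (2 : ℤ) ^ L' ∣ X - X' →
      (2 : ℤ) ^ L ∣ n - n') :
    cnt L S ≤ cnt L' S' := by
  classical
  unfold cnt
  have hex : ∀ n : ℕ, ∃ X : ℤ, S (n : ℤ) → (S' X ∧ R n X) := by
    intro n
    by_cases hn : S (n : ℤ)
    · obtain ⟨X, hX⟩ := h _ hn
      exact ⟨X, fun _ => hX⟩
    · exact ⟨0, fun hh => absurd hh hn⟩
  choose f hf using hex
  have hpos : (0 : ℤ) < 2 ^ L' := by positivity
  refine Finset.card_le_card_of_injOn (fun n => (f n % 2 ^ L').toNat) ?_ ?_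
  · intro n hn
    have hn' := Finset.mem_filter.mp hn
    obtain ⟨h1, h2⟩ := hf n hn'.2
    have h0 : 0 ≤ f n % 2 ^ L' := Int.emod_nonneg _ hpos.ne'
    have hlt : f n % 2 ^ L' < 2 ^ L' := Int.emod_lt_of_pos _ hpos
    rw [Finset.mem_coe, Finset.mem_filter, Finset.mem_range]
    constructor
    · have : ((f n % 2 ^ L').toNat : ℤ) < ((2 ^ L' : ℕ) : ℤ) := by
        rw [Int.toNat_of_nonneg h0]; push_cast; exact hlt
      exact_mod_cast this
    · have e : (((f n % 2 ^ L').toNat : ℕ) : ℤ) = f n + 2 ^ L' * (-(f n / 2 ^ L')) := by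
        rw [Int.toNat_of_nonneg h0]
        have := Int.emod_add_mul_ediv (f n) (2 ^ L')
        linarith
      rw [e]
      exact hper _ _ h1
  · intro n hn n' hn' heq
    have hn1 := Finset.mem_filter.mp hn
    have hn2 := Finset.mem_filter.mp hn'
    obtain ⟨-, r1⟩ := hf n hn1.2
    obtain ⟨-, r2⟩ := hf n' hn2.2
    have h0 : 0 ≤ f n % 2 ^ L' := Int.emod_nonneg _ hpos.ne'
    have h0' : 0 ≤ f n' % 2 ^ L' := Int.emod_nonneg _ hpos.ne'
    have heq' : f n % 2 ^ L' = f n' % 2 ^ L' := by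
      simp only at heq
      have : (((f n % 2 ^ L').toNat : ℕ) : ℤ) = (((f n' % 2 ^ L').toNat : ℕ) : ℤ) := by rw [heq]
      rwa [Int.toNat_of_nonneg h0, Int.toNat_of_nonneg h0'] at this
    have hdvd : (2 : ℤ) ^ L' ∣ f n - f n' :=
      Int.ModEq.dvd (Int.ModEq.symm heq')
    have h3 := hinj n n' _ _ hn1.2 hn2.2 r1 r2 hdvd
    have l1 := Finset.mem_range.mp hn1.1
    have l2 := Finset.mem_range.mp hn2.1
    have l1' : (n : ℤ) < 2 ^ L := by exact_mod_cast l1
    have l2' : (n' : ℤ) < 2 ^ L := by exact_mod_cast l2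
    have h4 : (n : ℤ) - n' = 0 := by
      refine Int.eq_zero_of_abs_lt_dvd h3 ?_
      rw [abs_lt]
      constructor <;> omega
    omega

theorem cnt_classes (M L : ℕ) (S : ℤ → Prop) :
    cnt (M + L) S = ∑ ρ ∈ Finset.range (2 ^ M), cnt L (fun j => S ((ρ : ℤ) + 2 ^ M * j)) := by
  classical
  unfold cnt
  have hpos : 0 < 2 ^ M := by positivity
  have h1 : ((Finset.range (2 ^ (M + L))).filter (fun n : ℕ => S (n : ℤ))).card =
      ∑ ρ ∈ Finset.range (2 ^ M),
        (((Finset.range (2 ^ (M + L))).filter (fun n : ℕ => S (n : ℤ))).filter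
          (fun n => n % 2 ^ M = ρ)).card := by
    refine Finset.card_eq_sum_card_fiberwise ?_
    intro n _
    rw [Finset.mem_coe, Finset.mem_range]
    exact Nat.mod_lt _ hpos
  rw [h1]
  refine Finset.sum_congr rfl ?_
  intro ρ hρ
  have hρ' := Finset.mem_range.mp hρ
  symm
  refine Finset.card_bij (fun j _ => ρ + 2 ^ M * j) ?_ ?_ ?_
  · intro j hj
    rw [Finset.mem_filter, Finset.mem_range] at hj
    rw [Finset.mem_filter, Finset.mem_filter, Finset.mem_range]
    refine ⟨⟨?_, ?_⟩, ?_⟩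
    · rw [pow_add]
      calc ρ + 2 ^ M * j < 2 ^ M + 2 ^ M * j := by omega
        _ = 2 ^ M * (j + 1) := by ring
        _ ≤ 2 ^ M * 2 ^ L := Nat.mul_le_mul_left _ hj.1
    · have := hj.2
      push_cast
      exact this
    · rw [Nat.add_mul_mod_self_left]
      exact Nat.mod_eq_of_lt hρ'
  · intro j _ j' _ heq
    have : 2 ^ M * j = 2 ^ M * j' := by omega
    exact Nat.eq_of_mul_eq_mul_left hpos this
  · intro n hn
    rw [Finset.mem_filter, Finset.mem_filter, Finset.mem_range] at hn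
    obtain ⟨⟨hn1, hn2⟩, hn3⟩ := hn
    have hdiv : ρ + 2 ^ M * (n / 2 ^ M) = n := by
      rw [← hn3]; exact Nat.mod_add_div n (2 ^ M)
    refine ⟨n / 2 ^ M, ?_, hdiv⟩
    rw [Finset.mem_filter, Finset.mem_range]
    constructor
    · rw [Nat.div_lt_iff_lt_mul hpos]
      rw [pow_add] at hn1
      linarith [Nat.mul_comm (2 ^ M) (2 ^ L)]
    · have : ((ρ : ℤ) + 2 ^ M * ((n / 2 ^ M : ℕ) : ℤ)) = (n : ℤ) := by
        exact_mod_cast hdiv
      show S ((ρ : ℤ) + 2 ^ M * ((n / 2 ^ M : ℕ) : ℤ))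
      rw [this]
      exact hn2

end Beanstalk
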