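import Mathlib

/-!
# Module Cover: every large real number lies in some `(2/3)^c (32/27)^m [p,q]`, `c` bounded

Let `α = log(3/2)/log(32/27)`, irrational: `α = u/v` would give `(3/2)^v = (32/27)^u`, i.e.
`3^{v+3u} = 2^{v+5u}` with `u, v ≥ 1`, impossible. Let `δ = min(1, log(q/p)/log(32/27))`. By
Dirichlet/irrationality there is `h ≥ 1` with `0 < ‖hα‖ < δ` (distance to the nearest integer),
say `hα = u + η`, `0 < |η| < δ`. For every real `ξ` some `i ∈ {0,…,⌈1/|η|⌉}` has
`fract(ξ + i h α) ∈` any given arc of length `δ` (steps of size `|η| < δ` around the circle).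
Put `C = h⌈1/|η|⌉`. For given `x`, apply with `ξ = log x/log(32/27)` and the arc
`[log p/log(32/27), log p/log(32/27)+δ]` modulo 1: `(log x + c log(3/2) - log y)/log(32/27) = m` is
an integer for some `y ∈ [p,q]`; and `m ≥ M` (in particular `m ≥ 0`) for `x` large, because
`m log(32/27) ≥ log x - log q`.
-/

namespace Beanstalk

private theorem irr : Irrational (Real.log (3 / 2) / Real.log (32 / 27)) := by
  rw [Irrational]
  rintro ⟨r, hr⟩
  have h1 : 0 < Real.log (3 / 2) := Real.log_pos (by norm_num)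
  have h2 : 0 < Real.log (32 / 27) := Real.log_pos (by norm_num)
  have hrpos : 0 < r := by
    have : (0 : ℝ) < r := by rw [hr]; positivity
    exact_mod_cast this
  have hden : (0 : ℝ) < r.den := by exact_mod_cast r.den_pos
  have hnum : (r.num.toNat : ℤ) = r.num := Int.toNat_of_nonneg (Rat.num_nonneg.2 hrpos.le)
  have hr2 : (r : ℝ) = (r.num.toNat : ℝ) / r.den := by
    have : (r : ℝ) = (r.num : ℝ) / r.den := by exact_mod_cast (Rat.num_div_den r).symm
    rw [this]
    congr 1
    exact_mod_cast hnum.symm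
  rw [hr2, div_eq_div_iff hden.ne' h2.ne'] at hr
  set u := r.num.toNat
  set v := r.den
  have h3 : Real.log ((32 / 27) ^ u) = Real.log ((3 / 2) ^ v) := by
    rw [Real.log_pow, Real.log_pow]
    linarith
  have h4 : ((32 / 27 : ℝ)) ^ u = (3 / 2) ^ v :=
    Real.log_injOn_pos (by simp only [Set.mem_Ioi]; positivity)
      (by simp only [Set.mem_Ioi]; positivity) h3
  have h5 : (2 : ℝ) ^ (5 * u + v) = 3 ^ (3 * u + v) := by
    rw [div_pow, div_pow, div_eq_div_iff (by positivity) (by positivity)] at h4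
    rw [pow_add, pow_add, pow_mul, pow_mul]
    norm_num
    linarith
  have h6 : (2 : ℕ) ^ (5 * u + v) = 3 ^ (3 * u + v) := by exact_mod_cast h5
  have hv : 0 < v := r.den_pos
  have h7 : Even ((2 : ℕ) ^ (5 * u + v)) := (even_two).pow_of_ne_zero (by omega)
  rw [h6] at h7
  have h8 : Odd ((3 : ℕ) ^ (3 * u + v)) := Odd.pow (by decide)
  exact (Nat.not_even_iff_odd.2 h8) h7

private theorem circ (α a b : ℝ) (hα : Irrational α) (hab : a < b) :
    ∃ C : ℕ, ∀ y : ℝ, ∃ c ≤ C, ∃ m : ℤ, a < y + c * α - m ∧ y + c * α - m < b := by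
  have hd : DenseRange (fun n : ℤ => n • ((α : ℝ) : AddCircle (1 : ℝ))) :=
    AddCircle.denseRange_zsmul_coe_iff.2 (by simpa using hα)
  let T : Set (AddCircle (1 : ℝ)) := (fun x : ℝ => (x : AddCircle (1 : ℝ))) '' Set.Ioo a b
  have hTo : IsOpen T := QuotientAddGroup.isOpenMap_coe _ isOpen_Ioo
  have hTne : T.Nonempty := by
    obtain ⟨z, hz⟩ := exists_between hab
    exact ⟨_, z, hz, rfl⟩
  let V : ℤ → Set (AddCircle (1 : ℝ)) := fun n => {ξ | ξ + n • ((α : ℝ) : AddCircle (1 : ℝ)) ∈ T}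
  have hVo : ∀ n, IsOpen (V n) := fun n => hTo.preimage (by fun_prop)
  have hVc : (Set.univ : Set (AddCircle (1 : ℝ))) ⊆ ⋃ n, V n := by
    intro ξ _
    have hopen : IsOpen ((fun x => ξ + x) ⁻¹' T) := hTo.preimage (by fun_prop)
    have hne : ((fun x => ξ + x) ⁻¹' T).Nonempty := by
      obtain ⟨z, hz⟩ := hTne
      exact ⟨-ξ + z, by simpa using hz⟩
    obtain ⟨n, hn⟩ := hd.exists_mem_open hopen hne
    exact Set.mem_iUnion.2 ⟨n, hn⟩
  obtain ⟨F, hF⟩ := isCompact_univ.elim_finite_subcover V hVo hVc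
  let N : ℕ := F.sup Int.natAbs
  refine ⟨2 * N, fun y => ?_⟩
  have hmem : ((y + N * α : ℝ) : AddCircle (1 : ℝ)) ∈ ⋃ i ∈ F, V i := hF (Set.mem_univ _)
  simp only [Set.mem_iUnion, exists_prop] at hmem
  obtain ⟨n, hnF, hn⟩ := hmem
  have hnN : n.natAbs ≤ N := Finset.le_sup (f := Int.natAbs) hnF
  obtain ⟨z, hz, hzeq⟩ := hn
  simp only at hzeq
  refine ⟨((N : ℤ) + n).toNat, by omega, ?_⟩
  have hc : ((((N : ℤ) + n).toNat : ℕ) : ℝ) = N + n := by
    have h1 : ((((N : ℤ) + n).toNat : ℕ) : ℤ) = N + n := Int.toNat_of_nonneg (by omega)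
    exact_mod_cast h1
  rw [hc]
  have h2 : ((z : ℝ) : AddCircle (1 : ℝ)) = ((y + (N + n) * α : ℝ) : AddCircle (1 : ℝ)) := by
    rw [hzeq, ← AddCircle.coe_zsmul, ← AddCircle.coe_add]
    congr 1
    rw [zsmul_eq_mul]
    ring
  have h3 := (QuotientAddGroup.eq.1 h2)
  rw [AddSubgroup.mem_zmultiples_iff] at h3
  obtain ⟨m, hm⟩ := h3
  refine ⟨m, ?_⟩
  have hm' : (m : ℝ) = -z + (y + (N + n) * α) := by
    rw [← hm]; simp
  have e : y + (N + n) * α - m = z := by rw [hm']; ring
  rw [e]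
  exact hz

theorem cover (p q : ℝ) (hp : 0 < p) (hpq : p < q) : ∃ C : ℕ, ∀ M : ℕ, ∃ X : ℝ, ∀ x ≥ X,
    ∃ c ≤ C, ∃ m ≥ M, (2 / 3 : ℝ) ^ c * (32 / 27) ^ m * p ≤ x ∧
      x ≤ (2 / 3 : ℝ) ^ c * (32 / 27) ^ m * q := by
  have h1 : 0 < Real.log (3 / 2) := Real.log_pos (by norm_num)
  set L := Real.log (32 / 27) with hL
  have h2 : 0 < L := Real.log_pos (by norm_num)
  have hq : 0 < q := hp.trans hpq
  have hlog : Real.log p / L < Real.log q / L :=
    div_lt_div_of_pos_right (Real.log_lt_log hp hpq) h2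
  obtain ⟨C, hC⟩ := circ _ _ _ irr hlog
  refine ⟨C, fun M => ⟨max 1 (q * (32 / 27) ^ M), fun x hx => ?_⟩⟩
  have hx1 : 1 ≤ x := le_trans (le_max_left _ _) hx
  have hx2 : q * (32 / 27) ^ M ≤ x := le_trans (le_max_right _ _) hx
  have hx0 : 0 < x := by linarith
  obtain ⟨c, hc, m, ha, hb⟩ := hC (Real.log x / L)
  rw [← hL] at ha hb
  have ha' : Real.log p < Real.log x + c * Real.log (3 / 2) - m * L := by
    have := mul_lt_mul_of_pos_right ha h2
    rw [div_mul_cancel₀ _ h2.ne'] at this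
    have e : (Real.log x / L + c * (Real.log (3 / 2) / L) - m) * L =
        Real.log x + c * Real.log (3 / 2) - m * L := by
      field_simp
    linarith
  have hb' : Real.log x + c * Real.log (3 / 2) - m * L < Real.log q := by
    have := mul_lt_mul_of_pos_right hb h2
    rw [div_mul_cancel₀ _ h2.ne'] at this
    have e : (Real.log x / L + c * (Real.log (3 / 2) / L) - m) * L =
        Real.log x + c * Real.log (3 / 2) - m * L := by
      field_simp
    linarith
  have hmM : (M : ℝ) ≤ m := by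
    have h3 : Real.log q + M * L ≤ Real.log x := by
      have := Real.log_le_log (by positivity) hx2
      rw [Real.log_mul hq.ne' (by positivity), Real.log_pow] at this
      exact this
    have h4 : 0 ≤ (c : ℝ) * Real.log (3 / 2) := by positivity
    have h5 : (M : ℝ) * L < m * L := by linarith
    exact (lt_of_mul_lt_mul_right h5 h2.le).le
  have hmM' : (M : ℤ) ≤ m := by exact_mod_cast hmM
  have hmn : ((m.toNat : ℕ) : ℝ) = m := by
    have : ((m.toNat : ℕ) : ℤ) = m := Int.toNat_of_nonneg (by omega)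
    exact_mod_cast this
  have hl23 : Real.log (2 / 3) = - Real.log (3 / 2) := by
    rw [← Real.log_inv]; norm_num
  refine ⟨c, hc, m.toNat, by omega, ?_, ?_⟩
  · rw [← Real.log_le_log_iff (by positivity) hx0, Real.log_mul (by positivity) hp.ne',
      Real.log_mul (by positivity) (by positivity), Real.log_pow, Real.log_pow, hmn, hl23, ← hL]
    linarith
  · rw [← Real.log_le_log_iff hx0 (by positivity), Real.log_mul (by positivity) hq.ne',
      Real.log_mul (by positivity) (by positivity), Real.log_pow, Real.log_pow, hmn, hl23, ← hL]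
    linarith

end Beanstalk
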