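import Pool.Agent.Work.MP_8093a3_co.Game

/-!
# Beanstalk: definitions shared by all modules of MP_8093a3_co

The combinatorial skeleton of the proof: control-keeping moves `Step`, paths `Path k V n N`
(`k` moves, total exponent `V`), the set `W` of odd numbers from which the mover reaches
`(4^j-1)/3`, its complement `D`, and counting of residue classes `cnt`.
-/

namespace Beanstalk

/-! ## Moves that keep control, and paths -/

/-- A move of the player on odd numbers after which the same player moves again: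
`n → 3n ± 1 = 2^v m → m`, with `v` odd. -/
def Step (v : ℕ) (n m : ℤ) : Prop :=
  Odd v ∧ Odd n ∧ Odd m ∧ (3 * n + 1 = 2 ^ v * m ∨ 3 * n - 1 = 2 ^ v * m)

/-- `Path k V n N`: from `n` to `N` by `k` control-keeping moves with total exponent `V`. -/
inductive Path : ℕ → ℕ → ℤ → ℤ → Prop
  | refl (n : ℤ) : Odd n → Path 0 0 n n
  | cons {k V v : ℕ} {n m N : ℤ} : Step v n m → Path k V m N → Path (k + 1) (V + v) n N

/-- Some path of type `(k,V)` starts at `n`. -/
def Reach (k V : ℕ) (n : ℤ) : Prop := ∃ N, Path k V n N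

/-- Odd numbers from which the mover can reach some `(4^j-1)/3`, `j ≥ 2`, keeping control. -/
inductive W : ℤ → Prop
  | base (j : ℕ) (n : ℤ) : 2 ≤ j → 3 * n + 1 = 4 ^ j → W n
  | step (v : ℕ) (n m : ℤ) : Step v n m → W m → W n

/-- The odd numbers `≥ 3` that are not in `W` (the odd drawn positions). -/
def D (n : ℤ) : Prop := Odd n ∧ 3 ≤ n ∧ ¬ W n

/-- All odd integers in `[x, y]` are in `W`. -/
def WFull (x y : ℝ) : Prop := ∀ n : ℤ, Odd n → x ≤ n → (n : ℝ) ≤ y → W n

/-- Some odd `n` and `n+d` reach a common number by paths of the same type. -/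
def Pair (d : ℤ) : Prop := ∃ (k V : ℕ) (n N : ℤ), Path k V n N ∧ Path k V (n + d) N

/-! ## Counting residue classes -/

open Classical in
/-- Number of `n ∈ {0, …, 2^L - 1}` with `P n`. -/
noncomputable def cnt (L : ℕ) (P : ℤ → Prop) : ℕ :=
  ((Finset.range (2 ^ L)).filter (fun n : ℕ => P (n : ℤ))).card

/-- `P` is periodic modulo `2^L`. -/
def Per (L : ℕ) (P : ℤ → Prop) : Prop := ∀ n j : ℤ, P n → P (n + 2 ^ L * j)

/-- Odd numbers with no path of type `(k,V)`. -/
def bad0 (k V : ℕ) (n : ℤ) : Prop := Odd n ∧ ¬ Reach k V n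

/-- Odd numbers `n ≡ ±3 (mod 8)` with no path of type `(k,V)`. -/
def bad1 (k V : ℕ) (n : ℤ) : Prop := Odd n ∧ (n % 8 = 3 ∨ n % 8 = 5) ∧ ¬ Reach k V n

/-- `3n ± 1` is exactly divisible by `2^j` (for `j ≥ 2` this is the larger of the two). -/
def Val (j : ℕ) (n : ℤ) : Prop :=
  ∃ m : ℤ, Odd m ∧ (3 * n + 1 = 2 ^ j * m ∨ 3 * n - 1 = 2 ^ j * m)

/-! ## Blocks -/

/-- The class of `n` is good for blocks of size `a`: both steering types are available. -/
def good (a : ℕ) (n : ℤ) : Prop := Reach (192 * a) (320 * a) n ∧ Reach (190 * a) (320 * a) n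

/-- A trajectory of `S` blocks of size `a` from `n` with initial offset `o` and fewer than `m`
bad blocks. Bad block: type `(320a,320a)`, offset `+64`; good block: type `(192a,320a)` if the
offset is `0`, and type `(190a,320a)` with offset `-1` if the offset is positive. -/
def Traj (a S : ℕ) (n : ℤ) (o m : ℕ) : Prop :=
  ∃ (X : ℕ → ℤ) (O : ℕ → ℕ) (bad : Finset ℕ),
    bad ⊆ Finset.range S ∧ bad.card < m ∧ X 0 = n ∧ O 0 = o ∧
    (∀ s < S, s ∈ bad → Path (320 * a) (320 * a) (X s) (X (s + 1)) ∧ O (s + 1) = O s + 64) ∧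
    (∀ s < S, s ∉ bad → O s = 0 → Path (192 * a) (320 * a) (X s) (X (s + 1)) ∧ O (s + 1) = 0) ∧
    (∀ s < S, s ∉ bad → 0 < O s →
      Path (190 * a) (320 * a) (X s) (X (s + 1)) ∧ O (s + 1) + 1 = O s)

/-- Odd `n` for which the prefix `(c,c)` followed by `S` blocks always has `≥ m` bad blocks. -/
def Fail (a S c m : ℕ) (n : ℤ) : Prop :=
  Odd n ∧ ¬ ∃ n', Path c c n n' ∧ Traj a S n' 0 m

/-! ## Windows -/

/-- Points within `w` of an element of `D`. -/
def U (w : ℝ) : Set ℝ := {x | ∃ n : ℤ, D n ∧ |x - n| ≤ w}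

/-- Measure of the `y ∈ [y₀,y₁]` with `σ y ∈ U w`. -/
noncomputable def Phi (y0 y1 σ w : ℝ) : ℝ :=
  (MeasureTheory.volume {y : ℝ | y ∈ Set.Icc y0 y1 ∧ σ * y ∈ U w}).toReal

end Beanstalk
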