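import Pool.Agent.Work.MP_8093a3_co.PathE

/-!
# Module HitW: elements of `W` in every class `N + 2·3^k ℤ`, `N` odd

`5 ∈ W` (`3·5+1 = 4²`), and `n = (5·2^v-1)/3 ∈ W` for `v` odd (`Step v n 5`).
Given an odd `N` and `k`, `3N+1` is a unit modulo `3^{k+1}`; 2 is a primitive root modulo `3^{k+1}`,
so there are arbitrarily large `v` with `5·2^v ≡ 3N+1 (mod 3^{k+1})`; modulo 3 this gives
`2^{v+1} ≡ 1`, so `v` is odd; both sides are even for `v ≥ 1`, so the congruence holds modulo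
`2·3^{k+1}`: `5·2^v - 1 = 3(N + 2·3^k j)`, and `j → ∞` with `v`.
(Primitive root: by induction on `k`: every `u` prime to 3 is `≡ 2^v (mod 3^k)` for some `v`; lift:
`2^{2·3^{k-1}} = 1 + 3^k t` with `3 ∤ t`, the three numbers `2^{v+2·3^{k-1}i}`, `i = 0,1,2`, are
distinct modulo `3^{k+1}`.)
-/

namespace Beanstalk

/-- `2^(2·3^k) = 1 + 3^(k+1) t` with `3 ∤ t` -/
private theorem ord (k : ℕ) : ∃ t : ℤ, (2 : ℤ) ^ (2 * 3 ^ k) = 1 + 3 ^ (k + 1) * t ∧ ¬ (3 : ℤ) ∣ t := by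
  induction k with
  | zero => exact ⟨1, by norm_num, by decide⟩
  | succ k ih =>
    obtain ⟨t, ht, h3⟩ := ih
    -- (1 + x)^3 = 1 + 3x + 3x² + x³ with x = 3^(k+1) t
    refine ⟨t + 3 ^ (k + 1) * t ^ 2 + 3 ^ (2 * k + 1) * t ^ 3, ?_, ?_⟩
    · have e : 2 * 3 ^ (k + 1) = (2 * 3 ^ k) * 3 := by ring
      rw [e, pow_mul, ht]
      ring
    · intro hd
      apply h3
      have h4 : (3 : ℤ) ∣ 3 ^ (k + 1) * t ^ 2 + 3 ^ (2 * k + 1) * t ^ 3 := by
        refine dvd_add ?_ ?_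
        · exact Dvd.dvd.mul_right (dvd_pow_self _ (by omega)) _
        · exact Dvd.dvd.mul_right (dvd_pow_self _ (by omega)) _
      have h5 := dvd_sub hd h4
      have e : t + 3 ^ (k + 1) * t ^ 2 + 3 ^ (2 * k + 1) * t ^ 3 -
        (3 ^ (k + 1) * t ^ 2 + 3 ^ (2 * k + 1) * t ^ 3) = t := by ring
      rwa [e] at h5

private theorem pow_one_add (k i : ℕ) (t : ℤ) :
    ∃ r : ℤ, (1 + 3 ^ (k + 1) * t) ^ i = 1 + 3 ^ (k + 1) * (i * t) + 3 ^ (k + 2) * r := by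
  induction i with
  | zero => exact ⟨0, by simp⟩
  | succ i ih =>
    obtain ⟨r, hr⟩ := ih
    refine ⟨r * (1 + 3 ^ (k + 1) * t) + 3 ^ k * (i * t * t), ?_⟩
    rw [pow_succ, hr]
    push_cast
    ring

private theorem exists_v (k : ℕ) (u : ℤ) (hu : ¬ (3 : ℤ) ∣ u) :
    ∃ v : ℕ, (3 : ℤ) ^ k ∣ 2 ^ v - u := by
  induction k with
  | zero => exact ⟨0, by simp⟩
  | succ k ih =>
    obtain ⟨v, s, hs⟩ := ih
    rcases Nat.eq_zero_or_pos k with rfl | hk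
    · -- modulo 3
      have h3 : u % 3 = 1 ∨ u % 3 = 2 := by omega
      rcases h3 with h | h
      · exact ⟨0, by norm_num; omega⟩
      · exact ⟨1, by norm_num; omega⟩
    · obtain ⟨k, rfl⟩ : ∃ k', k = k' + 1 := ⟨k - 1, by omega⟩
      obtain ⟨t, ht, h3⟩ := ord k
      -- choose i with 3 | s + i t 2^v
      have h2v : ¬ (3 : ℤ) ∣ 2 ^ v := by
        intro h
        have := Int.prime_three.dvd_of_dvd_pow h
        omega
      have hunit : ¬ (3 : ℤ) ∣ t * 2 ^ v := by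
        intro h
        rcases Int.prime_three.dvd_or_dvd h with h | h
        · exact h3 h
        · exact h2v h
      obtain ⟨i, hi⟩ : ∃ i : ℕ, (3 : ℤ) ∣ s + i * (t * 2 ^ v) := by
        generalize t * 2 ^ v = w at hunit
        have hw : w % 3 = 1 ∨ w % 3 = 2 := by omega
        have hs' : s % 3 = 0 ∨ s % 3 = 1 ∨ s % 3 = 2 := by omega
        rcases hw with hw | hw <;> rcases hs' with hs' | hs' | hs'
        · exact ⟨0, by push_cast; omega⟩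
        · exact ⟨2, by push_cast; omega⟩
        · exact ⟨1, by push_cast; omega⟩
        · exact ⟨0, by push_cast; omega⟩
        · exact ⟨1, by push_cast; omega⟩
        · exact ⟨2, by push_cast; omega⟩
      obtain ⟨g, hg⟩ := hi
      obtain ⟨r, hr⟩ := pow_one_add k i t
      refine ⟨v + (2 * 3 ^ k) * i, g + 2 ^ v * r, ?_⟩
      rw [pow_add, pow_mul, ht, hr]
      have e : (3 : ℤ) ^ (k + 1 + 1) * (g + 2 ^ v * r) =
          3 ^ (k + 1) * (3 * g) + 3 ^ (k + 1 + 1) * (2 ^ v * r) := by ring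
      rw [e, ← hg]
      linear_combination hs

theorem two_pow_mod_three_pow (k : ℕ) (u : ℤ) (hu : ¬ (3 : ℤ) ∣ u) (B : ℕ) :
    ∃ v : ℕ, B ≤ v ∧ (3 : ℤ) ^ k ∣ 2 ^ v - u := by
  obtain ⟨v, hv⟩ := exists_v k u hu
  obtain ⟨t, ht, -⟩ := ord k
  have hdvd : (3 : ℤ) ^ k ∣ 2 ^ ((2 * 3 ^ k) * B) - 1 := by
    have h1 : (3 : ℤ) ^ k ∣ 2 ^ (2 * 3 ^ k) - 1 := ⟨3 * t, by rw [ht]; ring⟩
    have h2 : (2 : ℤ) ^ (2 * 3 ^ k) - 1 ∣ 2 ^ ((2 * 3 ^ k) * B) - 1 := by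
      have h3 := sub_dvd_pow_sub_pow ((2 : ℤ) ^ (2 * 3 ^ k)) 1 B
      rw [one_pow, ← pow_mul] at h3
      exact h3
    exact h1.trans h2
  refine ⟨v + (2 * 3 ^ k) * B, ?_, ?_⟩
  · have : B ≤ (2 * 3 ^ k) * B := Nat.le_mul_of_pos_left _ (by positivity)
    omega
  · have e : (2 : ℤ) ^ (v + (2 * 3 ^ k) * B) - u = 2 ^ v * (2 ^ ((2 * 3 ^ k) * B) - 1) + (2 ^ v - u) := by
      rw [pow_add]; ring
    rw [e]
    exact dvd_add (Dvd.dvd.mul_left hdvd _) hv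

theorem hit_W (k : ℕ) (N : ℤ) (hN : Odd N) (B : ℤ) : ∃ j : ℤ, B ≤ j ∧ W (N + 2 * 3 ^ k * j) := by
  have hcop : IsCoprime (5 : ℤ) (3 ^ (k + 1)) :=
    IsCoprime.pow_right (by rw [Int.isCoprime_iff_gcd_eq_one]; decide)
  obtain ⟨a, b, hab⟩ := hcop
  set u : ℤ := a * (3 * N + 1) with hu
  have h5u : 5 * u = 3 * N + 1 - 3 ^ (k + 1) * (b * (3 * N + 1)) := by
    rw [hu]; linear_combination (3 * N + 1) * hab
  have hu3 : ¬ (3 : ℤ) ∣ u := by
    rintro ⟨c, hc⟩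
    have e : (3 : ℤ) ^ (k + 1) = 3 * 3 ^ k := by ring
    rw [hc, e] at h5u
    have : (3 : ℤ) ∣ 1 := ⟨5 * c - N + 3 ^ k * (b * (3 * N + 1)), by linear_combination -h5u⟩
    omega
  obtain ⟨v, hvB, s, hs⟩ := two_pow_mod_three_pow (k + 1) u hu3
    ((3 * |N| + 2 + 2 * 3 ^ (k + 1) * |B|).toNat + 1)
  have hX : (5 : ℤ) * 2 ^ v = 3 * N + 1 + 3 ^ (k + 1) * (5 * s - b * (3 * N + 1)) := by
    linear_combination 5 * hs + h5u
  set y : ℤ := 5 * s - b * (3 * N + 1) with hy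
  have hv1 : 1 ≤ v := by omega
  -- v is odd
  have hvodd : Odd v := by
    by_contra hev
    rw [Nat.not_odd_iff_even] at hev
    obtain ⟨w, hw⟩ := hev
    have h4 : (2 : ℤ) ^ v = 4 ^ w := by
      rw [hw, ← two_mul, pow_mul]; norm_num
    have h41 : (3 : ℤ) ∣ 4 ^ w - 1 := by
      have := sub_dvd_pow_sub_pow (4 : ℤ) 1 w
      norm_num at this
      exact this
    obtain ⟨z, hz⟩ := h41
    have e : (3 : ℤ) ^ (k + 1) = 3 * 3 ^ k := by ring
    rw [h4, e] at hX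
    have : (3 : ℤ) ∣ 4 := ⟨N + 3 ^ k * y - 5 * z, by linear_combination hX - 5 * hz⟩
    omega
  -- y is even
  have hyev : Even y := by
    by_contra hodd
    rw [Int.not_even_iff_odd] at hodd
    have h1 : Odd ((3 : ℤ) ^ (k + 1) * y) := (Odd.pow (by decide)).mul hodd
    have h2 : Even ((5 : ℤ) * 2 ^ v) := by
      obtain ⟨v', rfl⟩ : ∃ v', v = v' + 1 := ⟨v - 1, by omega⟩
      exact ⟨5 * 2 ^ v', by ring⟩
    have h3 : Even (3 * N + 1) := by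
      obtain ⟨r, hr⟩ := hN
      exact ⟨3 * r + 2, by rw [hr]; ring⟩
    have h4 : Odd (3 * N + 1 + 3 ^ (k + 1) * y) := h3.add_odd h1
    rw [← hX] at h4
    exact (Int.not_even_iff_odd.2 h4) h2
  obtain ⟨j, hj⟩ := hyev
  have hn : 3 * (N + 2 * 3 ^ k * j) + 1 = 2 ^ v * 5 := by
    have e : (3 : ℤ) ^ (k + 1) = 3 * 3 ^ k := by ring
    rw [hj, e] at hX
    linear_combination -hX
  refine ⟨j, ?_, ?_⟩
  · -- size
    by_contra hlt
    push Not at hlt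
    have h2v : (v : ℤ) < 2 ^ v := by exact_mod_cast Nat.lt_two_pow_self
    have hv2 : 3 * |N| + 2 + 2 * 3 ^ (k + 1) * |B| ≤ (v : ℤ) := by
      have := Int.self_le_toNat (3 * |N| + 2 + 2 * 3 ^ (k + 1) * |B|)
      omega
    have h6 : (3 : ℤ) ^ (k + 1) * y = 2 * 3 ^ (k + 1) * j := by rw [hj]; ring
    have h7 : (2 : ℤ) * 3 ^ (k + 1) * j ≤ 2 * 3 ^ (k + 1) * |B| := by
      have : j ≤ |B| := le_trans hlt.le (le_abs_self B)
      exact mul_le_mul_of_nonneg_left this (by positivity)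
    have h8 : N ≤ |N| := le_abs_self N
    rw [h6] at hX
    have h9 : (0 : ℤ) < 2 ^ v := by positivity
    linarith
  · refine W.step v _ 5 ⟨hvodd, ?_, by decide, Or.inl hn⟩ (W.base 2 5 le_rfl (by norm_num))
    obtain ⟨r, hr⟩ := hN
    exact ⟨r + 3 ^ k * j, by rw [hr]; ring⟩

end Beanstalk
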