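import Pool.Agent.Work.MP_8093a3_co.Merge
import Pool.Agent.Work.MP_8093a3_co.HitW

/-!
# Module WFullEx: arbitrarily long `W`-full intervals

`merge_all` for `S = ` odd integers in `[0, ⌈ℓ⌉+2]`: `Path k V (s+c) N`; shift by
`2^{V+1}j`: `s + c + 2^{V+1}j` goes to `N + 2·3^k j`, which is in `W` for suitable arbitrarily large
`j` (`hit_W`; `N` is odd by `path_odd`). `c` is even, so all odd integers in
`[c+2^{V+1}j, c+2^{V+1}j+ℓ]` are in `W` (`W_of_path`).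
-/

namespace Beanstalk

theorem exists_wfull (ℓ B : ℝ) : ∃ A : ℝ, B ≤ A ∧ WFull A (A + ℓ) := by
  classical
  obtain ⟨m, hm⟩ : ∃ m : ℤ, ℓ ≤ m ∧ (1 : ℤ) ≤ m :=
    ⟨max ⌈ℓ⌉ 1, (Int.le_ceil ℓ).trans (by exact_mod_cast le_max_left _ _), le_max_right _ _⟩
  obtain ⟨k, V, c, N, hc, hp⟩ := merge_all ((Finset.Icc 0 m).filter (fun s : ℤ => Odd s))
    (fun s hs => (Finset.mem_filter.1 hs).2)
  have h1 : (1 : ℤ) ∈ (Finset.Icc 0 m).filter (fun s : ℤ => Odd s) :=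
    Finset.mem_filter.2 ⟨Finset.mem_Icc.2 ⟨by norm_num, hm.2⟩, by decide⟩
  have hN : Odd N := (path_odd (hp 1 h1)).2
  obtain ⟨j, hjB, hjW⟩ := hit_W k N hN (max 0 (⌈B⌉ - c))
  have hj0 : 0 ≤ j := le_trans (le_max_left _ _) hjB
  have hj1 : ⌈B⌉ - c ≤ j := le_trans (le_max_right _ _) hjB
  refine ⟨((c + 2 ^ (V + 1) * j : ℤ) : ℝ), ?_, ?_⟩
  · have h2 : ⌈B⌉ ≤ c + 2 ^ (V + 1) * j := by
      have h3 : (1 : ℤ) ≤ 2 ^ (V + 1) := one_le_pow₀ (by norm_num)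
      nlinarith
    exact (Int.le_ceil B).trans (by exact_mod_cast h2)
  · intro n hn hx hy
    have hx' : c + 2 ^ (V + 1) * j ≤ n := by exact_mod_cast hx
    have hy' : n ≤ c + 2 ^ (V + 1) * j + m := by
      have : (n : ℝ) ≤ ((c + 2 ^ (V + 1) * j + m : ℤ) : ℝ) := by
        push_cast
        push_cast at hy
        linarith [hm.1]
      exact_mod_cast this
    have hodd : Odd (n - (c + 2 ^ (V + 1) * j)) := by
      refine hn.sub_even (hc.add ?_)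
      exact ⟨2 ^ V * j, by ring⟩
    have hs : n - (c + 2 ^ (V + 1) * j) ∈ (Finset.Icc 0 m).filter (fun s : ℤ => Odd s) :=
      Finset.mem_filter.2 ⟨Finset.mem_Icc.2 ⟨by linarith, by linarith⟩, hodd⟩
    have g := path_shift (hp _ hs) j
    have e : n - (c + 2 ^ (V + 1) * j) + c + 2 ^ (V + 1) * j = n := by ring
    rw [e] at g
    exact W_of_path g hjW

end Beanstalk
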