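import Pool.Agent.Work.MP_8093a3_co.ThmF
import Pool.Agent.Work.MP_8093a3_co.WFullEx
import Pool.Agent.Work.MP_8093a3_co.Cover

/-!
# Module DensD: `D` has density zero

Given `ε > 0` take `L, r` from `thmF (ε/2)`; WFull interval `[A, A+2r+3L+…]` with `A` large
(`A ≥ r + L + 1`): put `p = A + r`, `q = p + L` and `ρ = L/p ≤ 1`; for `y0 ∈ [p,q]`, `y1 = (1+ρ)y0`
satisfies `y1 - y0 = ρ y0 ≥ L` and `y1 ≤ q + ρ q ≤ p + L + 2L`, so `[y0-r,y1+r] ⊂ [A, A+2r+3L]` is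
`W`-full. `C` from `cover p q`, `M` from `thmF`, `X` from `cover`. For `x ≥ X`:
`x = (2/3)^c(32/27)^m y0`, `y0 ∈ [p,q]`, `c ≤ C`, `m ≥ M`; with `σ = (2/3)^c(32/27)^m`:
the volume of `{z ∈ [x,(1+ρ)x] : z ∈ U 1}` is `σ Phi y0 y1 σ 1 ≤ (ε/2) ρ x`.
The intervals `[n, n+1)`, `n ∈ D ∩ [x,(1+ρ)x - 1]`, are disjoint and lie in it; so
`#(D ∩ [x,(1+ρ)x]) ≤ (ε/2)ρx + 2`.
Summing over `x_i = N(1+ρ)^{-i} ≥ X`: `#(D ∩ [1,N]) ≤ X(1+ρ) + 1 + (ε/2) N + 2(log N/log(1+ρ) + 2)`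
`≤ ε N` for `N` large. (`dens_piece` is the local statement; `dens_sum` the summation.)
-/

namespace Beanstalk

open MeasureTheory

private theorem fin_D (x y : ℝ) : {n : ℤ | D n ∧ x ≤ n ∧ (n : ℝ) ≤ y}.Finite := by
  refine Set.Finite.subset (Set.finite_Icc ⌈x⌉ ⌊y⌋) ?_
  rintro n ⟨-, h1, h2⟩
  exact ⟨Int.ceil_le.2 h1, Int.le_floor.2 h2⟩

/-- counting by measure -/
private theorem count_le (y0 y1 σ : ℝ) (hσ : 0 < σ) :
    ({n : ℤ | D n ∧ σ * y0 ≤ n ∧ (n : ℝ) ≤ σ * y1 - 1}.ncard : ℝ) ≤ σ * Phi y0 y1 σ 1 := by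
  have hfin := fin_D (σ * y0) (σ * y1 - 1)
  set F := hfin.toFinset with hF
  have hcard : {n : ℤ | D n ∧ σ * y0 ≤ n ∧ (n : ℝ) ≤ σ * y1 - 1}.ncard = F.card := by
    rw [hF, Set.ncard_eq_toFinset_card _ hfin]
  rw [hcard]
  set T : Set ℝ := {y : ℝ | y ∈ Set.Icc y0 y1 ∧ σ * y ∈ U 1} with hT
  have hTfin : volume T ≠ ⊤ := by
    have : volume T ≤ volume (Set.Icc y0 y1) := measure_mono fun y hy => hy.1
    refine ne_top_of_le_ne_top ?_ this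
    rw [Real.volume_Icc]
    exact ENNReal.ofReal_ne_top
  have hsub : (⋃ n ∈ F, Set.Ico ((n : ℝ) / σ) (((n : ℝ) + 1) / σ)) ⊆ T := by
    intro y hy
    simp only [Set.mem_iUnion, exists_prop] at hy
    obtain ⟨n, hn, h1, h2⟩ := hy
    rw [hF, Set.Finite.mem_toFinset] at hn
    obtain ⟨hD, h3, h4⟩ := hn
    rw [div_le_iff₀ hσ] at h1
    rw [lt_div_iff₀ hσ] at h2
    refine ⟨⟨?_, ?_⟩, n, hD, ?_⟩
    · have : σ * y0 ≤ σ * y := by linarith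
      exact le_of_mul_le_mul_left this hσ
    · have : σ * y ≤ σ * y1 := by linarith
      exact le_of_mul_le_mul_left this hσ
    · rw [abs_le]
      constructor <;> linarith
  have hdisj : (F : Set ℤ).PairwiseDisjoint
      (fun n : ℤ => Set.Ico ((n : ℝ) / σ) (((n : ℝ) + 1) / σ)) := by
    intro a _ b _ hab
    rw [Function.onFun, Set.disjoint_left]
    rintro y ⟨h1, h2⟩ ⟨h3, h4⟩
    rw [div_le_iff₀ hσ] at h1 h3
    rw [lt_div_iff₀ hσ] at h2 h4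
    apply hab
    have h5 : (a : ℝ) < b + 1 := by linarith
    have h6 : (b : ℝ) < a + 1 := by linarith
    have h5' : a < b + 1 := by exact_mod_cast h5
    have h6' : b < a + 1 := by exact_mod_cast h6
    omega
  have hmeas := measure_mono (μ := volume) hsub
  rw [measure_biUnion_finset hdisj (fun _ _ => measurableSet_Ico)] at hmeas
  have hone : ∀ n : ℤ, volume (Set.Ico ((n : ℝ) / σ) (((n : ℝ) + 1) / σ)) =
      ENNReal.ofReal (1 / σ) := by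
    intro n
    rw [Real.volume_Ico]
    congr 1
    field_simp
    ring
  simp only [hone] at hmeas
  rw [Finset.sum_const, nsmul_eq_mul] at hmeas
  have h1 := ENNReal.toReal_mono hTfin hmeas
  rw [ENNReal.toReal_mul, ENNReal.toReal_ofReal (by positivity), ENNReal.toReal_natCast] at h1
  have h2 : (F.card : ℝ) * (1 / σ) ≤ Phi y0 y1 σ 1 := h1
  calc (F.card : ℝ) = σ * (F.card * (1 / σ)) := by field_simp
    _ ≤ σ * Phi y0 y1 σ 1 := by gcongr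

theorem dens_piece (ε : ℝ) (hε : 0 < ε) : ∃ (ρ X : ℝ), 0 < ρ ∧ ρ ≤ 1 ∧ 1 ≤ X ∧ ∀ x ≥ X,
    ({n : ℤ | D n ∧ x ≤ n ∧ (n : ℝ) ≤ (1 + ρ) * x}.ncard : ℝ) ≤ ε * ρ * x + 2 := by
  obtain ⟨L, r, hL, hr, hC⟩ := thmF ε hε
  obtain ⟨A, hA, hfull⟩ := exists_wfull (2 * r + 3 * L) (r + L + 1)
  set p : ℝ := A + r with hp
  have hpL : L ≤ p := by rw [hp]; linarith
  have hp1 : 1 ≤ p := by linarith
  have hp0 : 0 < p := by linarith
  obtain ⟨C, hcov⟩ := cover p (p + L) hp0 (by linarith)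
  obtain ⟨M, hM⟩ := hC C
  obtain ⟨X, hX⟩ := hcov M
  refine ⟨L / p, max X 1, by positivity, (div_le_one hp0).2 hpL, le_max_right _ _, ?_⟩
  intro x hx
  obtain ⟨c, hc, m, hm, h1, h2⟩ := hX x (le_trans (le_max_left _ _) hx)
  have hx1 : 1 ≤ x := le_trans (le_max_right _ _) hx
  set σ : ℝ := (2 / 3) ^ c * (32 / 27) ^ m with hσ
  have hσ0 : 0 < σ := by positivity
  set ρ : ℝ := L / p with hρ
  have hρ0 : 0 < ρ := by positivity
  have hρ1 : ρ ≤ 1 := (div_le_one hp0).2 hpL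
  have hρp : ρ * p = L := by rw [hρ]; field_simp
  set y0 : ℝ := x / σ with hy0
  have hσy : σ * y0 = x := by rw [hy0]; field_simp
  have hy0p : p ≤ y0 := by rw [hy0, le_div_iff₀ hσ0]; linarith
  have hy0q : y0 ≤ p + L := by rw [hy0, div_le_iff₀ hσ0]; linarith
  have hy1 : y0 + L ≤ (1 + ρ) * y0 := by
    have : ρ * p ≤ ρ * y0 := by gcongr
    linarith
  have hfull' : WFull (y0 - r) ((1 + ρ) * y0 + r) := by
    intro n hn hn1 hn2
    refine hfull n hn ?_ ?_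
    · rw [hp] at hy0p
      linarith
    · have h3 : (1 + ρ) * y0 ≤ (1 + ρ) * (p + L) := by gcongr
      have h4 : ρ * L ≤ L := by nlinarith
      have h5 : (1 + ρ) * (p + L) = p + L + ρ * p + ρ * L := by ring
      rw [hρp] at h5
      have h6 : p = A + r := hp
      linarith
  have h3 := hM y0 ((1 + ρ) * y0) (by linarith) hy1 hfull' c hc m hm
  have h4 := count_le y0 ((1 + ρ) * y0) σ hσ0
  have e1 : σ * ((1 + ρ) * y0) = (1 + ρ) * x := by rw [← hσy]; ring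
  rw [hσy, e1] at h4
  have h5 : σ * Phi y0 ((1 + ρ) * y0) σ 1 ≤ ε * ρ * x := by
    calc σ * Phi y0 ((1 + ρ) * y0) σ 1 ≤ σ * (ε * ((1 + ρ) * y0 - y0)) := by
          exact mul_le_mul_of_nonneg_left h3 hσ0.le
      _ = ε * ρ * x := by rw [← hσy]; ring
  -- at most one more integer
  have hsub : {n : ℤ | D n ∧ x ≤ n ∧ (n : ℝ) ≤ (1 + ρ) * x} ⊆
      {n : ℤ | D n ∧ x ≤ n ∧ (n : ℝ) ≤ (1 + ρ) * x - 1} ∪ {⌊(1 + ρ) * x⌋} := by
    rintro n ⟨a, b, d⟩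
    by_cases h : (n : ℝ) ≤ (1 + ρ) * x - 1
    · exact Or.inl ⟨a, b, h⟩
    · right
      push Not at h
      rw [Set.mem_singleton_iff, eq_comm, Int.floor_eq_iff]
      exact ⟨d, by linarith⟩
  have h6 := Set.ncard_le_ncard hsub ((fin_D _ _).union (Set.finite_singleton _))
  have h7 := h6.trans (Set.ncard_union_le _ _)
  rw [Set.ncard_singleton] at h7
  have h8 : ({n : ℤ | D n ∧ x ≤ n ∧ (n : ℝ) ≤ (1 + ρ) * x}.ncard : ℝ) ≤
    {n : ℤ | D n ∧ x ≤ n ∧ (n : ℝ) ≤ (1 + ρ) * x - 1}.ncard + 1 := by exact_mod_cast h7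
  linarith

end Beanstalk
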