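import Pool.Agent.Work.MP_8093a3_co.LatRec

/-!
# Module FailCount: few numbers have many bad blocks

* `bad_block`: not good means `bad0 (192a) (320a)` or `bad0 (190a) (320a)`; `lattice_bound` with
  `(k,d) = (192a,64a)` and `(190a,65a)`, and `1.073^64 (40/41)^192 ≤ 9/10`,
  `1.073^65 (40/41)^190 ≤ 9/10` (norm_num).
* `traj_bad`, `traj_good0`, `traj_good1`: put a block in front of a trajectory (shift the
  sequences `X`, `O` by one and the set `bad` by `+1`).
* `fail_traj`: let `F(S,m,o)` be the set of odd `n` with `¬ Traj a S n o m`. Claim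
  `cnt (320aS+1) F(S,m,o) ≤ C(S,m) f^m 2^{320aS}`, `f = 6(9/10)^a`, for all `o`, by induction on
  `S`. `S = 0`: `Traj a 0 n o m` holds iff `0 < m`; for `m = 0` the bound is `cnt 1 Odd = 1`.
  Step: use `cnt_classes (320a+1) (320aS)` (note `320a(S+1)+1 = (320a+1)+320aS`). For an odd class
  `ρ < 2^{320a+1}`: if `ρ` is good choose `N₀` with `Path (192a) (320a) ρ N₀` (`o = 0`) or
  `Path (190a) (320a) ρ N₀` (`o > 0`); by `path_shift`, `ρ + 2^{320a+1} j` has the same type of
  path to `N₀ + 2·3^k j`; if `ρ + 2^{320a+1} j ∈ F(S+1,m,o)` then `N₀ + 2·3^k j ∈ F(S,m,o')`, with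
  `o' = 0`, resp. `o - 1`. The map `j ↦ N₀ + 2·3^k j` is injective from residues mod `2^{320aS}`
  to residues mod `2^{320aS+1}` (`cnt_le_of_rel` with `R j X := X = N₀ + 2·3^k j`), so the class
  contributes at most `cnt (320aS+1) F(S,m,o')`. If `ρ` is not good, use `exists_pathA` (type
  `(320a,320a)`) and get `F(S,m-1,o+64)` for `m ≥ 1`, and the trivial bound `2^{320aS}` for
  `m = 0`. There are at most `2^{320a}` odd classes and at most `f 2^{320a}` of them are not good
  (whether `ρ` is good depends only on the class, `reach_per`). So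
  `c(S+1,m) ≤ 2^{320a} c(S,m) + f 2^{320a} c(S,m-1)`, and Pascal's rule.
  (`F` has to be periodic modulo `2^{320aS+1}` to apply `cnt_le_of_rel`: prove
  `traj_per : Per (320*a*S+1) (fun n => Odd n ∧ ¬ Traj a S n o m)` by showing that
  `Traj a S n o m → Traj a S (n + 2^{320aS+1} j) o m`, shift all `X s` by path_shift.)
* `fail_count`: the same argument once more for the prefix: classes `ρ < 2^{c+1}`, path
  `Path c c ρ A`, `ρ + 2^{c+1}j ↦ A + 2·3^c j`; there are `2^c` odd classes.
-/

namespace Beanstalk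

theorem bad_block (a : ℕ) :
    (cnt (320 * a + 1) (fun n => Odd n ∧ ¬ good a n) : ℝ) ≤ 6 * (9 / 10) ^ a * 2 ^ (320 * a) := by
  have h1 := cnt_or_le (320 * a + 1) (fun n => Odd n ∧ ¬ good a n) (bad0 (192 * a) (320 * a))
    (bad0 (190 * a) (320 * a)) (by
      rintro n ⟨hn, hg⟩
      by_cases h : Reach (192 * a) (320 * a) n
      · exact Or.inr ⟨hn, fun h' => hg ⟨h, h'⟩⟩
      · exact Or.inl ⟨hn, h⟩)
  have h2 := lattice_bound (192 * a) (64 * a)
  have h3 := lattice_bound (190 * a) (65 * a)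
  have e1 : 192 * a + 2 * (64 * a) = 320 * a := by ring
  have e2 : 190 * a + 2 * (65 * a) = 320 * a := by ring
  rw [e1] at h2
  rw [e2] at h3
  have h4 : (cnt (320 * a + 1) (fun n => Odd n ∧ ¬ good a n) : ℝ) ≤
      cnt (320 * a + 1) (bad0 (192 * a) (320 * a)) +
        cnt (320 * a + 1) (bad0 (190 * a) (320 * a)) := by exact_mod_cast h1
  have n1 : ((1073 / 1000 : ℝ)) ^ 64 * (40 / 41) ^ 192 ≤ 9 / 10 := by norm_num
  have n2 : ((1073 / 1000 : ℝ)) ^ 65 * (40 / 41) ^ 190 ≤ 9 / 10 := by norm_num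
  have m1 : ((1073 / 1000 : ℝ)) ^ (64 * a) * (40 / 41) ^ (192 * a) ≤ (9 / 10) ^ a := by
    rw [pow_mul, pow_mul, ← mul_pow]
    exact pow_le_pow_left₀ (by positivity) n1 a
  have m2 : ((1073 / 1000 : ℝ)) ^ (65 * a) * (40 / 41) ^ (190 * a) ≤ (9 / 10) ^ a := by
    rw [pow_mul, pow_mul, ← mul_pow]
    exact pow_le_pow_left₀ (by positivity) n2 a
  have hp : (0 : ℝ) < 2 ^ (320 * a) := by positivity
  have k1 : 3 * (1073 / 1000 : ℝ) ^ (64 * a) * (40 / 41) ^ (192 * a) * 2 ^ (320 * a) ≤
      3 * (9 / 10) ^ a * 2 ^ (320 * a) := by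
    rw [mul_assoc 3]
    gcongr
  have k2 : 3 * (1073 / 1000 : ℝ) ^ (65 * a) * (40 / 41) ^ (190 * a) * 2 ^ (320 * a) ≤
      3 * (9 / 10) ^ a * 2 ^ (320 * a) := by
    rw [mul_assoc 3]
    gcongr
  calc (cnt (320 * a + 1) (fun n => Odd n ∧ ¬ good a n) : ℝ) ≤ _ := h4
    _ ≤ 3 * (9 / 10) ^ a * 2 ^ (320 * a) + 3 * (9 / 10) ^ a * 2 ^ (320 * a) :=
        add_le_add (h2.trans k1) (h3.trans k2)
    _ = 6 * (9 / 10) ^ a * 2 ^ (320 * a) := by ring

/-- recursive form of `Traj` -/
private def TR (a : ℕ) : ℕ → ℤ → ℕ → ℕ → Prop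
  | 0, _, _, m => 0 < m
  | S + 1, n, o, m =>
      (∃ (X : ℤ) (m' : ℕ), m = m' + 1 ∧ Path (320 * a) (320 * a) n X ∧ TR a S X (o + 64) m') ∨
      (o = 0 ∧ ∃ X : ℤ, Path (192 * a) (320 * a) n X ∧ TR a S X 0 m) ∨
      (∃ o' : ℕ, o = o' + 1 ∧ ∃ X : ℤ, Path (190 * a) (320 * a) n X ∧ TR a S X o' m)

private theorem tr_of_traj (a : ℕ) : ∀ (S : ℕ) (n : ℤ) (o m : ℕ), Traj a S n o m → TR a S n o m := by
  classical
  intro S
  induction S with
  | zero =>
    rintro n o m ⟨X, O, bad, hb, hc, -⟩
    have : 0 < m := by omega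
    exact this
  | succ S ih =>
    rintro n o m ⟨X, O, bad, hb, hc, hX0, hO0, h1, h2, h3⟩
    set bad' : Finset ℕ := (Finset.range S).filter (fun s => s + 1 ∈ bad) with hbad'
    have hmem : ∀ s, s ∈ bad' ↔ s + 1 ∈ bad := by
      intro s
      rw [hbad', Finset.mem_filter, Finset.mem_range]
      constructor
      · exact fun h => h.2
      · intro h
        have := Finset.mem_range.1 (hb h)
        exact ⟨by omega, h⟩
    have hcard : bad'.card = (bad.erase 0).card := by
      refine Finset.card_bij (fun s _ => s + 1) ?_ ?_ ?_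
      · intro s hs
        exact Finset.mem_erase.2 ⟨by omega, (hmem s).1 hs⟩
      · intro s _ t _ h
        omega
      · intro s hs
        obtain ⟨hs0, hs1⟩ := Finset.mem_erase.1 hs
        obtain ⟨t, rfl⟩ : ∃ t, s = t + 1 := ⟨s - 1, by omega⟩
        exact ⟨t, (hmem t).2 hs1, rfl⟩
    have hrest : ∀ m', bad'.card < m' → TR a S (X 1) (O 1) m' := by
      intro m' hm'
      refine ih _ _ _ ⟨fun s => X (s + 1), fun s => O (s + 1), bad', Finset.filter_subset _ _, hm',
        rfl, rfl, ?_, ?_, ?_⟩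
      · intro s hs hsb
        exact h1 (s + 1) (by omega) ((hmem s).1 hsb)
      · intro s hs hsb ho
        exact h2 (s + 1) (by omega) (fun h => hsb ((hmem s).2 h)) ho
      · intro s hs hsb ho
        exact h3 (s + 1) (by omega) (fun h => hsb ((hmem s).2 h)) ho
    by_cases h0 : 0 ∈ bad
    · left
      obtain ⟨p, q⟩ := h1 0 (by omega) h0
      rw [zero_add, hX0] at p
      rw [zero_add, hO0] at q
      have hcc := Finset.card_erase_of_mem h0
      have hpos : 0 < bad.card := Finset.card_pos.2 ⟨0, h0⟩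
      refine ⟨X 1, m - 1, by omega, p, ?_⟩
      rw [← q]
      exact hrest _ (by omega)
    · have hcc : (bad.erase 0).card = bad.card := by rw [Finset.erase_eq_of_notMem h0]
      rcases Nat.eq_zero_or_pos o with ho | ho
      · right; left
        obtain ⟨p, q⟩ := h2 0 (by omega) h0 (by rw [hO0]; exact ho)
        rw [zero_add, hX0] at p
        rw [zero_add] at q
        refine ⟨ho, X 1, p, ?_⟩
        rw [← q]
        exact hrest _ (by omega)
      · right; right
        obtain ⟨p, q⟩ := h3 0 (by omega) h0 (by rw [hO0]; exact ho)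
        rw [zero_add, hX0] at p
        rw [zero_add, hO0] at q
        exact ⟨O 1, q.symm, X 1, p, hrest _ (by omega)⟩

private theorem traj_of_tr (a : ℕ) : ∀ (S : ℕ) (n : ℤ) (o m : ℕ), TR a S n o m → Traj a S n o m := by
  classical
  intro S
  induction S with
  | zero =>
    intro n o m h
    have h' : 0 < m := h
    exact ⟨fun _ => n, fun _ => o, ∅, by simp, by simpa using h', rfl, rfl,
      fun s hs => absurd hs (Nat.not_lt_zero _), fun s hs => absurd hs (Nat.not_lt_zero _),
      fun s hs => absurd hs (Nat.not_lt_zero _)⟩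
  | succ S ih =>
    -- common construction
    have build : ∀ (n : ℤ) (o : ℕ) (X1 : ℤ) (o1 m m1 : ℕ) (b : Bool),
        Traj a S X1 o1 m1 → (if b then m1 + 1 ≤ m else m1 ≤ m) →
        (b = true → Path (320 * a) (320 * a) n X1 ∧ o1 = o + 64) →
        (b = false → o = 0 → Path (192 * a) (320 * a) n X1 ∧ o1 = 0) →
        (b = false → 0 < o → Path (190 * a) (320 * a) n X1 ∧ o1 + 1 = o) →
        Traj a (S + 1) n o m := by
      rintro n o X1 o1 m m1 b ⟨X, O, bad, hb, hc, hX0, hO0, h1, h2, h3⟩ hm g1 g2 g3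
      set bad' : Finset ℕ := (bad.image (· + 1)) ∪ (if b then {0} else ∅) with hbad'
      have hmem : ∀ s, s + 1 ∈ bad' ↔ s ∈ bad := by
        intro s
        rw [hbad', Finset.mem_union, Finset.mem_image]
        constructor
        · rintro (⟨t, ht, h⟩ | h)
          · have : t = s := by omega
            rwa [← this]
          · cases b <;> simp at h
        · intro h
          exact Or.inl ⟨s, h, rfl⟩
      have hmem0 : 0 ∈ bad' ↔ b = true := by
        rw [hbad', Finset.mem_union, Finset.mem_image]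
        constructor
        · rintro (⟨t, ht, h⟩ | h)
          · omega
          · cases b
            · simp at h
            · rfl
        · rintro rfl
          right; simp
      have hcard : bad'.card < m := by
        have hc1 : (bad.image (· + 1)).card ≤ bad.card := Finset.card_image_le
        cases b
        · simp only [Bool.false_eq_true, if_false] at hm hbad'
          rw [hbad', Finset.union_empty]
          omega
        · simp only [if_true] at hm hbad'
          rw [hbad']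
          have : (bad.image (· + 1) ∪ {0}).card ≤ (bad.image (· + 1)).card + 1 :=
            (Finset.card_union_le _ _).trans (by simp)
          omega
      refine ⟨fun s => match s with | 0 => n | s + 1 => X s, fun s => match s with
        | 0 => o | s + 1 => O s, bad', ?_, hcard, rfl, rfl, ?_, ?_, ?_⟩
      · intro s hs
        rw [Finset.mem_range]
        rcases s with _ | s
        · omega
        · have := Finset.mem_range.1 (hb ((hmem s).1 hs))
          omega
      · intro s hs hsb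
        rcases s with _ | s
        · show Path (320 * a) (320 * a) n (X 0) ∧ O 0 = o + 64
          rw [hX0, hO0]
          exact g1 (hmem0.1 hsb)
        · exact h1 s (by omega) ((hmem s).1 hsb)
      · intro s hs hsb ho
        rcases s with _ | s
        · show Path (192 * a) (320 * a) n (X 0) ∧ O 0 = 0
          rw [hX0, hO0]
          have hbf : b = false := by
            cases b
            · rfl
            · exact absurd (hmem0.2 rfl) hsb
          exact g2 hbf ho
        · exact h2 s (by omega) (fun h => hsb ((hmem s).2 h)) ho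
      · intro s hs hsb ho
        rcases s with _ | s
        · show Path (190 * a) (320 * a) n (X 0) ∧ O 0 + 1 = o
          rw [hX0, hO0]
          have hbf : b = false := by
            cases b
            · rfl
            · exact absurd (hmem0.2 rfl) hsb
          exact g3 hbf ho
        · exact h3 s (by omega) (fun h => hsb ((hmem s).2 h)) ho
    intro n o m h
    rcases h with ⟨X1, m', hm, hp, ht⟩ | ⟨ho, X1, hp, ht⟩ | ⟨o', ho, X1, hp, ht⟩
    · exact build n o X1 (o + 64) m m' true (ih _ _ _ ht) (by simp; omega)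
        (fun _ => ⟨hp, rfl⟩) (by simp) (by simp)
    · exact build n o X1 0 m m false (ih _ _ _ ht) (by simp)
        (by simp) (fun _ _ => ⟨hp, rfl⟩) (fun _ h => by omega)
    · exact build n o X1 o' m m false (ih _ _ _ ht) (by simp)
        (by simp) (fun _ h => by omega) (fun _ _ => ⟨hp, ho.symm⟩)

private theorem traj_iff (a S : ℕ) (n : ℤ) (o m : ℕ) : Traj a S n o m ↔ TR a S n o m :=
  ⟨tr_of_traj a S n o m, traj_of_tr a S n o m⟩

private theorem tr_shift (a : ℕ) : ∀ (S : ℕ) (n : ℤ) (o m : ℕ) (j : ℤ), TR a S n o m →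
    TR a S (n + 2 ^ (320 * a * S + 1) * j) o m := by
  intro S
  induction S with
  | zero => intro n o m j h; exact h
  | succ S ih =>
    intro n o m j h
    have key : ∀ (k : ℕ) (X : ℤ), Path k (320 * a) n X →
        Path k (320 * a) (n + 2 ^ (320 * a * (S + 1) + 1) * j)
          (X + 2 ^ (320 * a * S + 1) * (3 ^ k * j)) := by
      intro k X hp
      have := path_shift hp (2 ^ (320 * a * S) * j)
      have e1 : n + 2 ^ (320 * a + 1) * (2 ^ (320 * a * S) * j) =
          n + 2 ^ (320 * a * (S + 1) + 1) * j := by ring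
      have e2 : X + 2 * 3 ^ k * (2 ^ (320 * a * S) * j) =
          X + 2 ^ (320 * a * S + 1) * (3 ^ k * j) := by ring
      rwa [e1, e2] at this
    rcases h with ⟨X1, m', hm, hp, ht⟩ | ⟨ho, X1, hp, ht⟩ | ⟨o', ho, X1, hp, ht⟩
    · exact Or.inl ⟨_, m', hm, key _ _ hp, ih _ _ _ _ ht⟩
    · exact Or.inr (Or.inl ⟨ho, _, key _ _ hp, ih _ _ _ _ ht⟩)
    · exact Or.inr (Or.inr ⟨o', ho, _, key _ _ hp, ih _ _ _ _ ht⟩)

theorem traj_per (a S o m : ℕ) :
    Per (320 * a * S + 1) (fun n => Odd n ∧ ¬ Traj a S n o m) := by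
  rintro n j ⟨⟨r, hr⟩, hN⟩
  refine ⟨⟨r + 2 ^ (320 * a * S) * j, by rw [hr]; ring⟩, fun h => hN ?_⟩
  rw [traj_iff] at h ⊢
  have := tr_shift a S _ o m (-j) h
  have e : n + 2 ^ (320 * a * S + 1) * j + 2 ^ (320 * a * S + 1) * -j = n := by ring
  rwa [e] at this

private theorem cnt_le_pow (L : ℕ) (P : ℤ → Prop) : cnt L P ≤ 2 ^ L := by
  classical
  unfold cnt
  refine (Finset.card_filter_le _ _).trans ?_
  rw [Finset.card_range]

/-- a class with a path of `k` steps -/
private theorem class_le (a S : ℕ) (k V : ℕ) (ρ N₀ : ℤ) (hp : Path k V ρ N₀) (o' m' : ℕ)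
    (P : ℤ → Prop) (hP : ∀ j : ℤ, P (ρ + 2 ^ (V + 1) * j) → ¬ Traj a S (N₀ + 2 * 3 ^ k * j) o' m') :
    cnt (320 * a * S) (fun j => P (ρ + 2 ^ (V + 1) * j)) ≤
      cnt (320 * a * S + 1) (fun n => Odd n ∧ ¬ Traj a S n o' m') := by
  refine cnt_le_of_rel _ _ _ _ (fun j X => X = N₀ + 2 * 3 ^ k * j) (traj_per a S o' m') ?_ ?_
  · intro j hj
    refine ⟨_, ⟨?_, hP j hj⟩, rfl⟩
    obtain ⟨r, hr⟩ := (path_odd hp).2
    exact ⟨r + 3 ^ k * j, by rw [hr]; ring⟩
  · rintro j j' X X' - - rfl rfl hdvd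
    have e1 : N₀ + 2 * 3 ^ k * j - (N₀ + 2 * 3 ^ k * j') = 2 * (3 ^ k * (j - j')) := by ring
    rw [e1, pow_succ', mul_dvd_mul_iff_left (by norm_num)] at hdvd
    have hc : IsCoprime ((2 : ℤ) ^ (320 * a * S)) (3 ^ k) :=
      IsCoprime.pow (by rw [Int.isCoprime_iff_gcd_eq_one]; decide)
    exact hc.dvd_of_dvd_mul_left hdvd

open Classical in
private theorem sum_ite_cnt (L : ℕ) (P : ℤ → Prop) (c : ℝ) :
    ∑ ρ ∈ Finset.range (2 ^ L), (if P (ρ : ℤ) then c else 0) = cnt L P * c := by
  unfold cnt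
  rw [← Finset.sum_filter, Finset.sum_const, nsmul_eq_mul]

theorem fail_traj (a S o m : ℕ) :
    (cnt (320 * a * S + 1) (fun n => Odd n ∧ ¬ Traj a S n o m) : ℝ) ≤
      (S.choose m) * (6 * (9 / 10) ^ a) ^ m * 2 ^ (320 * a * S) := by
  classical
  induction S generalizing o m with
  | zero =>
    rcases Nat.eq_zero_or_pos m with rfl | hm
    · have h1 := cnt_odd_le (320 * a * 0) (fun n => Odd n ∧ ¬ Traj a 0 n o 0) (fun n h => h.1)
      have h2 : (cnt (320 * a * 0 + 1) (fun n => Odd n ∧ ¬ Traj a 0 n o 0) : ℝ) ≤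
        (2 : ℝ) ^ (320 * a * 0) := by exact_mod_cast h1
      simpa using h2
    · have h1 : cnt (320 * a * 0 + 1) (fun n => Odd n ∧ ¬ Traj a 0 n o m) = 0 := by
        refine cnt_false _ _ ?_
        rintro n ⟨-, h⟩
        exact h ((traj_iff a 0 n o m).2 hm)
      rw [h1]
      push_cast
      positivity
  | succ S ih =>
    rcases Nat.eq_zero_or_pos m with rfl | hm
    · have h1 := cnt_odd_le (320 * a * (S + 1)) (fun n => Odd n ∧ ¬ Traj a (S + 1) n o 0)
        (fun n h => h.1)
      have h2 : (cnt (320 * a * (S + 1) + 1) (fun n => Odd n ∧ ¬ Traj a (S + 1) n o 0) : ℝ) ≤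
        (2 : ℝ) ^ (320 * a * (S + 1)) := by exact_mod_cast h1
      simpa using h2
    · obtain ⟨m, rfl⟩ : ∃ m', m = m' + 1 := ⟨m - 1, by omega⟩
      set f : ℝ := 6 * (9 / 10) ^ a with hf
      set P : ℤ → Prop := fun n => Odd n ∧ ¬ Traj a (S + 1) n o (m + 1) with hP
      set c1 : ℝ := (S.choose (m + 1)) * f ^ (m + 1) * 2 ^ (320 * a * S) with hc1
      set c0 : ℝ := (S.choose m) * f ^ m * 2 ^ (320 * a * S) with hc0
      have hf0 : 0 ≤ f := by rw [hf]; positivity
      have e0 : 320 * a * (S + 1) + 1 = (320 * a + 1) + 320 * a * S := by ring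
      rw [e0, cnt_classes]
      push_cast
      have hterm : ∀ ρ ∈ Finset.range (2 ^ (320 * a + 1)),
          (cnt (320 * a * S) (fun j => P ((ρ : ℤ) + 2 ^ (320 * a + 1) * j)) : ℝ) ≤
          (if Odd (ρ : ℤ) then c1 else 0) +
            (if Odd (ρ : ℤ) ∧ ¬ good a (ρ : ℤ) then c0 else 0) := by
        intro ρ _
        have hc1' : 0 ≤ c1 := by rw [hc1]; positivity
        have hc0' : 0 ≤ c0 := by rw [hc0]; positivity
        by_cases hodd : Odd (ρ : ℤ)
        · rw [if_pos hodd]
          by_cases hg : good a (ρ : ℤ)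
          · rw [if_neg (fun h => h.2 hg), add_zero]
            obtain ⟨⟨N1, hN1⟩, ⟨N2, hN2⟩⟩ := hg
            rcases Nat.eq_zero_or_pos o with ho | ho
            · have h1 := class_le a S _ _ _ _ hN1 0 (m + 1) P (by
                rintro j ⟨-, h2⟩ h3
                apply h2
                rw [traj_iff] at h3 ⊢
                exact Or.inr (Or.inl ⟨ho, _, path_shift hN1 j, h3⟩))
              exact (by exact_mod_cast h1 : (cnt (320 * a * S)
                (fun j => P ((ρ : ℤ) + 2 ^ (320 * a + 1) * j)) : ℝ) ≤ _).trans (ih 0 (m + 1))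
            · obtain ⟨o', rfl⟩ : ∃ o', o = o' + 1 := ⟨o - 1, by omega⟩
              have h1 := class_le a S _ _ _ _ hN2 o' (m + 1) P (by
                rintro j ⟨-, h2⟩ h3
                apply h2
                rw [traj_iff] at h3 ⊢
                exact Or.inr (Or.inr ⟨o', rfl, _, path_shift hN2 j, h3⟩))
              exact (by exact_mod_cast h1 : (cnt (320 * a * S)
                (fun j => P ((ρ : ℤ) + 2 ^ (320 * a + 1) * j)) : ℝ) ≤ _).trans (ih o' (m + 1))
          · rw [if_pos ⟨hodd, hg⟩]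
            obtain ⟨N3, hN3⟩ := exists_pathA (320 * a) hodd
            have h1 := class_le a S _ _ _ _ hN3 (o + 64) m P (by
                rintro j ⟨-, h2⟩ h3
                apply h2
                rw [traj_iff] at h3 ⊢
                exact Or.inl ⟨_, m, rfl, path_shift hN3 j, h3⟩)
            have h2 : (cnt (320 * a * S)
                (fun j => P ((ρ : ℤ) + 2 ^ (320 * a + 1) * j)) : ℝ) ≤ c0 :=
              (by exact_mod_cast h1 : (cnt (320 * a * S)
                (fun j => P ((ρ : ℤ) + 2 ^ (320 * a + 1) * j)) : ℝ) ≤ _).trans (ih (o + 64) m)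
            linarith
        · have h1 : cnt (320 * a * S) (fun j => P ((ρ : ℤ) + 2 ^ (320 * a + 1) * j)) = 0 := by
            refine cnt_false _ _ ?_
            rintro j ⟨h2, -⟩
            apply hodd
            obtain ⟨r, hr⟩ := h2
            exact ⟨r - 2 ^ (320 * a) * j, by
              have : (2 : ℤ) ^ (320 * a + 1) = 2 * 2 ^ (320 * a) := by ring
              rw [this] at hr
              linarith⟩
          rw [h1, if_neg hodd, if_neg (fun h => hodd h.1)]
          simp
      refine (Finset.sum_le_sum hterm).trans ?_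
      have s1 : ∑ ρ ∈ Finset.range (2 ^ (320 * a + 1)), (if Odd (ρ : ℤ) then c1 else 0) =
          cnt (320 * a + 1) (fun n => Odd n) * c1 := by
        rw [← sum_ite_cnt]
        refine Finset.sum_congr rfl fun ρ _ => ?_
        by_cases h : Odd (ρ : ℤ)
        · rw [if_pos h, if_pos h]
        · rw [if_neg h, if_neg h]
      have s2 : ∑ ρ ∈ Finset.range (2 ^ (320 * a + 1)),
          (if Odd (ρ : ℤ) ∧ ¬ good a (ρ : ℤ) then c0 else 0) =
          cnt (320 * a + 1) (fun n => Odd n ∧ ¬ good a n) * c0 := by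
        rw [← sum_ite_cnt]
        refine Finset.sum_congr rfl fun ρ _ => ?_
        by_cases h : Odd (ρ : ℤ) ∧ ¬ good a (ρ : ℤ)
        · rw [if_pos h, if_pos h]
        · rw [if_neg h, if_neg h]
      rw [Finset.sum_add_distrib, s1, s2]
      have b1 : (cnt (320 * a + 1) (fun n => Odd n) : ℝ) ≤ 2 ^ (320 * a) := by
        exact_mod_cast cnt_odd_le (320 * a) (fun n => Odd n) (fun n h => h)
      have b2 := bad_block a
      have hc1' : 0 ≤ c1 := by rw [hc1]; positivity
      have hc0' : 0 ≤ c0 := by rw [hc0]; positivity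
      calc (cnt (320 * a + 1) (fun n => Odd n) : ℝ) * c1 +
            (cnt (320 * a + 1) (fun n => Odd n ∧ ¬ good a n) : ℝ) * c0
          ≤ 2 ^ (320 * a) * c1 + (f * 2 ^ (320 * a)) * c0 := by gcongr
        _ = ((S.choose m + S.choose (m + 1) : ℕ) : ℝ) * f ^ (m + 1) * 2 ^ (320 * a * (S + 1)) := by
            rw [hc1, hc0]
            push_cast
            ring
        _ = ((S + 1).choose (m + 1)) * f ^ (m + 1) * 2 ^ (320 * a * (S + 1)) := by
            rw [Nat.choose_succ_succ]

theorem fail_per (a S c m : ℕ) : Per (c + 320 * a * S + 1) (Fail a S c m) := by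
  rintro n j ⟨⟨r, hr⟩, hN⟩
  refine ⟨⟨r + 2 ^ (c + 320 * a * S) * j, by rw [hr]; ring⟩, fun h => hN ?_⟩
  obtain ⟨n', hp, ht⟩ := h
  have h1 := path_shift hp (-(2 ^ (320 * a * S) * j))
  have e : n + 2 ^ (c + 320 * a * S + 1) * j + 2 ^ (c + 1) * -(2 ^ (320 * a * S) * j) = n := by ring
  rw [e] at h1
  refine ⟨_, h1, ?_⟩
  rw [traj_iff] at ht ⊢
  have h2 := tr_shift a S _ 0 m (-(3 ^ c * j)) ht
  have e2 : n' + 2 ^ (320 * a * S + 1) * -(3 ^ c * j) =
      n' + 2 * 3 ^ c * -(2 ^ (320 * a * S) * j) := by ring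
  rwa [e2] at h2

theorem fail_count (a S c m : ℕ) :
    (cnt (c + 320 * a * S + 1) (Fail a S c m) : ℝ) ≤
      (S.choose m) * (6 * (9 / 10) ^ a) ^ m * 2 ^ (c + 320 * a * S) := by
  classical
  set f : ℝ := 6 * (9 / 10) ^ a with hf
  set c1 : ℝ := (S.choose m) * f ^ m * 2 ^ (320 * a * S) with hc1
  have hf0 : 0 ≤ f := by rw [hf]; positivity
  have hc1' : 0 ≤ c1 := by rw [hc1]; positivity
  have e0 : c + 320 * a * S + 1 = (c + 1) + 320 * a * S := by ring
  rw [e0, cnt_classes]
  push_cast
  have hterm : ∀ ρ ∈ Finset.range (2 ^ (c + 1)),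
      (cnt (320 * a * S) (fun j => Fail a S c m ((ρ : ℤ) + 2 ^ (c + 1) * j)) : ℝ) ≤
      (if Odd (ρ : ℤ) then c1 else 0) := by
    intro ρ _
    by_cases hodd : Odd (ρ : ℤ)
    · rw [if_pos hodd]
      obtain ⟨N3, hN3⟩ := exists_pathA c hodd
      have h1 := class_le a S _ _ _ _ hN3 0 m (Fail a S c m) (by
          rintro j ⟨-, h2⟩ h3
          exact h2 ⟨_, path_shift hN3 j, h3⟩)
      exact (by exact_mod_cast h1 : (cnt (320 * a * S)
        (fun j => Fail a S c m ((ρ : ℤ) + 2 ^ (c + 1) * j)) : ℝ) ≤ _).trans (fail_traj a S 0 m)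
    · have h1 : cnt (320 * a * S) (fun j => Fail a S c m ((ρ : ℤ) + 2 ^ (c + 1) * j)) = 0 := by
        refine cnt_false _ _ ?_
        rintro j ⟨h2, -⟩
        apply hodd
        obtain ⟨r, hr⟩ := h2
        exact ⟨r - 2 ^ c * j, by
          have : (2 : ℤ) ^ (c + 1) = 2 * 2 ^ c := by ring
          rw [this] at hr
          linarith⟩
      rw [h1, if_neg hodd]
      simp
  refine (Finset.sum_le_sum hterm).trans ?_
  have s1 : ∑ ρ ∈ Finset.range (2 ^ (c + 1)), (if Odd (ρ : ℤ) then c1 else 0) =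
      cnt (c + 1) (fun n => Odd n) * c1 := by
    rw [← sum_ite_cnt]
    refine Finset.sum_congr rfl fun ρ _ => ?_
    by_cases h : Odd (ρ : ℤ)
    · rw [if_pos h, if_pos h]
    · rw [if_neg h, if_neg h]
  rw [s1]
  have b1 : (cnt (c + 1) (fun n => Odd n) : ℝ) ≤ 2 ^ c := by
    exact_mod_cast cnt_odd_le c (fun n => Odd n) (fun n h => h)
  calc (cnt (c + 1) (fun n => Odd n) : ℝ) * c1 ≤ 2 ^ c * c1 := by gcongr
    _ = (S.choose m) * f ^ m * 2 ^ (c + 320 * a * S) := by
        rw [hc1]; ring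

end Beanstalk
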