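import Pool.Agent.Work.MP_8093a3_co.PathE
import Pool.Agent.Work.MP_8093a3_co.CntTools

/-!
# Module LatA: case inequalities of the lattice lemma (`caseA`, `caseTail`)
(the header describes all four cases; this file has the last two)

`Val j n` (`j ≥ 2`): `3n+η = 2^j m`, `m` odd, `η = ±1`.

* `caseV2`. If `n % 8 ∈ {1,7}` then `Step 1 n X` with `X = (3n-1)/2` (`n % 8 = 1`, then
  `X % 4 = 1`), resp. `X = (3n+1)/2` (`n % 8 = 7`, then `X % 4 = 3`). If `X` reaches `(k,V)` then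
  `n` reaches `(k+1,V+1)`; so `X` is `bad0 k V`. `X` modulo `2^{V+1}` (`V+1 ≥ 2`) determines the
  sign, hence `n` modulo `2^{V+2}`. Use `cnt_le_of_rel`.
* `caseB` (`j` odd): `Step j n m`; for each of the two signs `n ↦ m` is injective modulo
  `(2^{V+j+1}, 2^{V+1})`; `m` is `bad0 k V`. (Split the predicate into the two signs with
  `cnt_or_le` and apply `cnt_le_of_rel` twice.)
* `caseA` (`j ≥ 4`): if `3n-η = 2^j m` (`m` odd) then `A^i(n) = 3^{i-1} 2^{j-i} m + η` for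
  `1 ≤ i ≤ j-1` (first step `3n+η = 2(2^{j-1}m+η)`, then `3x-η = 2x'` for
  `x = 3^{i-1}2^{j-i}m+η`), all odd for `i ≤ j-2`; so `Path (j-2) (j-2) n X` with
  `X = 4·3^{j-3} m + η`, `X ≡ η+4 (mod 8)`, i.e. `X % 8 ∈ {3,5}` and `X % 8` determines `η`; and
  `2^{j-2} X = 3^{j-2} n + η(2^{j-2}-3^{j-3})`. Hence `X` modulo `2^{V+1}`, `V+1 ≥ 3`, determines
  `n` modulo `2^{V+(j-2)+1}`, and `X` is `bad1 k V`.
* `caseTail`: `3n-η = 2^8 m` (`m` any integer): `Path 6 6 n X` with `X = 3^5·4 m + η`, odd,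
  `X ≡ η (mod 4)`; `2^6 X = 3^6 n + η(2^6-3^5)`; `X` is `bad0 k V`, and `V+1 ≥ 2` gives `η`.
-/

namespace Beanstalk

/-- numbers close to a fixed point `η` follow it -/
theorem chain (i p : ℕ) (z η : ℤ) (hη : η = 1 ∨ η = -1) :
    Path i i (2 ^ (i + p + 1) * z + η) (3 ^ i * 2 ^ (p + 1) * z + η) := by
  have hodd : ∀ (q : ℕ) (z : ℤ), Odd (2 ^ (q + 1) * z + η) := by
    intro q z
    rcases hη with h | h
    · exact ⟨2 ^ q * z, by rw [h]; ring⟩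
    · exact ⟨2 ^ q * z - 1, by rw [h]; ring⟩
  induction i generalizing z with
  | zero =>
    have := Path.refl _ (hodd p z)
    simpa using this
  | succ i ih =>
    have h1 := ih (3 * z)
    have hs : Step 1 (2 ^ (i + 1 + p + 1) * z + η) (2 ^ (i + p + 1) * (3 * z) + η) := by
      refine ⟨⟨0, by ring⟩, hodd (i + 1 + p) z, hodd (i + p) (3 * z), ?_⟩
      rcases hη with h | h
      · right; rw [h]; ring
      · left; rw [h]; ring
    have h2 := Path.cons hs h1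
    have e : (3 : ℤ) ^ i * 2 ^ (p + 1) * (3 * z) + η = 3 ^ (i + 1) * 2 ^ (p + 1) * z + η := by ring
    rw [e] at h2
    exact h2

/-- the path along the orbit of `A` for a number of large valuation -/
theorem chain_from {n m η : ℤ} {i : ℕ} (hη : η = 1 ∨ η = -1) (hn : Odd n)
    (h : 3 * n - η = 2 ^ (i + 3) * m) :
    Path (i + 1) (i + 1) n (3 ^ i * 4 * m + η) := by
  have h1 := chain i 1 m η hη
  have hs : Step 1 n (2 ^ (i + 1 + 1) * m + η) := by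
    refine ⟨⟨0, by ring⟩, hn, (path_odd h1).1, ?_⟩
    rcases hη with h' | h'
    · left
      rw [h'] at h ⊢
      have e : 3 * n + 1 = (3 * n - 1) + 2 := by ring
      rw [e, h]; ring
    · right
      rw [h'] at h ⊢
      have e : 3 * n - 1 = (3 * n - -1) - 2 := by ring
      rw [e, h]; ring
  have h2 := Path.cons hs h1
  have e : (3 : ℤ) ^ i * 2 ^ (1 + 1) * m + η = 3 ^ i * 4 * m + η := by norm_num
  rw [e] at h2
  exact h2

theorem caseA (j k V : ℕ) (hj : 4 ≤ j) (hV : 2 ≤ V) :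
    cnt (V + (j - 2) + 1) (fun n => Odd n ∧ Val j n ∧ ¬ Reach (k + (j - 2)) (V + (j - 2)) n) ≤
      cnt (V + 1) (bad1 k V) := by
  obtain ⟨i, rfl⟩ : ∃ i, j = i + 3 := ⟨j - 3, by omega⟩
  have e2 : i + 3 - 2 = i + 1 := by omega
  rw [e2]
  have hper : Per (V + 1) (bad1 k V) := by
    rintro n r ⟨hn, h8, hR⟩
    have h0 := bad0_per k V n r ⟨hn, hR⟩
    refine ⟨h0.1, ?_, h0.2⟩
    obtain ⟨W', rfl⟩ : ∃ W', V = W' + 2 := ⟨V - 2, by omega⟩
    have e : n + 2 ^ (W' + 2 + 1) * r = n + 8 * (2 ^ W' * r) := by ring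
    rw [e, Int.add_mul_emod_self_left]
    exact h8
  refine cnt_le_of_rel (V + (i + 1) + 1) (V + 1) _ _
    (fun n X => ∃ η : ℤ, ((η = 1 ∧ X % 8 = 5) ∨ (η = -1 ∧ X % 8 = 3)) ∧
      2 ^ (i + 1) * X = 3 ^ (i + 1) * n + η * (2 ^ (i + 1) - 3 ^ i)) hper ?_ ?_
  · rintro n ⟨hn, ⟨m, hm, he⟩, hR⟩
    obtain ⟨η, hη, h⟩ : ∃ η : ℤ, (η = 1 ∨ η = -1) ∧ 3 * n - η = 2 ^ (i + 3) * m := by
      rcases he with he | he
      · exact ⟨-1, Or.inr rfl, by rw [← he]; ring⟩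
      · exact ⟨1, Or.inl rfl, he⟩
    have hp := chain_from hη hn h
    have h3odd : Odd ((3 : ℤ) ^ i * m) := (Odd.pow (by decide)).mul hm
    obtain ⟨r, hr⟩ := h3odd
    have hX : (3 : ℤ) ^ i * 4 * m + η = 8 * r + 4 + η := by
      have : (3 : ℤ) ^ i * 4 * m = 4 * (3 ^ i * m) := by ring
      rw [this, hr]; ring
    have hmod : (η = 1 ∧ ((3 : ℤ) ^ i * 4 * m + η) % 8 = 5) ∨
        (η = -1 ∧ ((3 : ℤ) ^ i * 4 * m + η) % 8 = 3) := by
      rw [hX]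
      rcases hη with h' | h'
      · left; exact ⟨h', by omega⟩
      · right; exact ⟨h', by omega⟩
    refine ⟨3 ^ i * 4 * m + η, ⟨(path_odd hp).2, ?_, ?_⟩, η, hmod, ?_⟩
    · rcases hmod with h' | h'
      · exact Or.inr h'.2
      · exact Or.inl h'.2
    · rintro ⟨N, hN⟩
      apply hR
      have := path_trans hp hN
      refine ⟨N, ?_⟩
      rw [add_comm k, add_comm V]
      exact this
    · have hn3 : 3 * n = 2 ^ (i + 3) * m + η := by linear_combination h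
      have : (3 : ℤ) ^ (i + 1) * n = 3 ^ i * (3 * n) := by ring
      rw [this, hn3]; ring
  · rintro n n' X X' - - ⟨η, hη, hX⟩ ⟨η', hη', hX'⟩ ⟨r, hr⟩
    obtain ⟨W', rfl⟩ : ∃ W', V = W' + 2 := ⟨V - 2, by omega⟩
    have h8 : (X - X') % 8 = 0 := by
      have e : (2 : ℤ) ^ (W' + 2 + 1) = 8 * 2 ^ W' := by ring
      rw [hr, e, mul_assoc]; exact Int.mul_emod_right 8 _
    have hηη : η = η' := by
      rcases hη with ⟨a1, a2⟩ | ⟨a1, a2⟩ <;> rcases hη' with ⟨b1, b2⟩ | ⟨b1, b2⟩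
      · rw [a1, b1]
      · omega
      · omega
      · rw [a1, b1]
    have hcop : IsCoprime ((2 : ℤ) ^ (W' + 2 + (i + 1) + 1)) (3 ^ (i + 1)) := by
      apply IsCoprime.pow_left
      apply IsCoprime.pow_right
      exact ⟨-1, 1, by norm_num⟩
    have hd3 : (2 : ℤ) ^ (W' + 2 + (i + 1) + 1) ∣ 3 ^ (i + 1) * (n - n') := by
      refine ⟨r, ?_⟩
      have e : (2 : ℤ) ^ (W' + 2 + (i + 1) + 1) = 2 ^ (i + 1) * 2 ^ (W' + 2 + 1) := by
        rw [← pow_add]; congr 1; ring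
      rw [e]
      rw [← hηη] at hX'
      linear_combination 2 ^ (i + 1) * hr - hX + hX'
    exact hcop.dvd_of_dvd_mul_left hd3

theorem eta_eq4 {X X' η η' : ℤ} (h4 : (X - X') % 4 = 0)
    (h : (η = 1 ∧ X % 4 = 1) ∨ (η = -1 ∧ X % 4 = 3))
    (h' : (η' = 1 ∧ X' % 4 = 1) ∨ (η' = -1 ∧ X' % 4 = 3)) : η = η' := by
  rcases h with ⟨a1, a2⟩ | ⟨a1, a2⟩ <;> rcases h' with ⟨b1, b2⟩ | ⟨b1, b2⟩
  · rw [a1, b1]
  · omega
  · omega
  · rw [a1, b1]

theorem caseTail (k V : ℕ) (hV : 1 ≤ V) :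
    cnt (V + 6 + 1) (fun n => Odd n ∧ (∃ m : ℤ, 3 * n + 1 = 2 ^ 8 * m ∨ 3 * n - 1 = 2 ^ 8 * m) ∧
        ¬ Reach (k + 6) (V + 6) n) ≤
      cnt (V + 1) (bad0 k V) := by
  refine cnt_le_of_rel (V + 6 + 1) (V + 1) _ _
    (fun n X => ∃ η : ℤ, ((η = 1 ∧ X % 4 = 1) ∨ (η = -1 ∧ X % 4 = 3)) ∧
      2 ^ 6 * X = 3 ^ 6 * n + η * (2 ^ 6 - 3 ^ 5)) (bad0_per k V) ?_ ?_
  · rintro n ⟨hn, ⟨m, he⟩, hR⟩
    obtain ⟨η, hη, h⟩ : ∃ η : ℤ, (η = 1 ∨ η = -1) ∧ 3 * n - η = 2 ^ (5 + 3) * m := by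
      rcases he with he | he
      · exact ⟨-1, Or.inr rfl, by linear_combination he⟩
      · exact ⟨1, Or.inl rfl, by linear_combination he⟩
    have hp := chain_from hη hn h
    have hmod : (η = 1 ∧ ((3 : ℤ) ^ 5 * 4 * m + η) % 4 = 1) ∨
        (η = -1 ∧ ((3 : ℤ) ^ 5 * 4 * m + η) % 4 = 3) := by
      have e4 : (3 : ℤ) ^ 5 * 4 * m + η = η + 4 * (3 ^ 5 * m) := by ring
      rw [e4, Int.add_mul_emod_self_left]
      rcases hη with h' | h'
      · left; exact ⟨h', by rw [h']; rfl⟩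
      · right; exact ⟨h', by rw [h']; rfl⟩
    refine ⟨3 ^ 5 * 4 * m + η, ⟨(path_odd hp).2, ?_⟩, η, hmod, ?_⟩
    · rintro ⟨N, hN⟩
      apply hR
      have h6 := path_trans hp hN
      have e1 : 5 + 1 + k = k + 6 := by ring
      have e2 : 5 + 1 + V = V + 6 := by ring
      rw [e1, e2] at h6
      exact ⟨N, h6⟩
    · linear_combination (-(3 : ℤ) ^ 5) * h
  · rintro n n' X X' - - ⟨η, hη, hX⟩ ⟨η', hη', hX'⟩ ⟨r, hr⟩
    obtain ⟨W', rfl⟩ : ∃ W', V = W' + 1 := ⟨V - 1, by omega⟩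
    have h4 : (X - X') % 4 = 0 := by
      have e : (2 : ℤ) ^ (W' + 1 + 1) = 4 * 2 ^ W' := by ring
      rw [hr, e, mul_assoc]; exact Int.mul_emod_right 4 _
    have hηη : η = η' := eta_eq4 h4 hη hη'
    have hcop : IsCoprime ((2 : ℤ) ^ (W' + 1 + 6 + 1)) (3 ^ 6) := by
      apply IsCoprime.pow_left
      apply IsCoprime.pow_right
      exact ⟨-1, 1, by norm_num⟩
    have hd3 : (2 : ℤ) ^ (W' + 1 + 6 + 1) ∣ 3 ^ 6 * (n - n') := by
      refine ⟨r, ?_⟩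
      have e : (2 : ℤ) ^ (W' + 1 + 6 + 1) = 2 ^ 6 * 2 ^ (W' + 1 + 1) := by
        rw [← pow_add]; congr 1; ring
      rw [e]
      rw [← hηη] at hX'
      linear_combination 2 ^ 6 * hr - hX + hX'
    exact hcop.dvd_of_dvd_mul_left hd3

end Beanstalk
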