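import Pool.Agent.Work.MP_8093a3_co.PathE
import Pool.Agent.Work.MP_8093a3_co.CntTools

/-!
# Module LatB: case inequalities of the lattice lemma (`caseV2`, `caseB`)
(the header describes all four cases; this file has the first two)

`Val j n` (`j ≥ 2`): `3n+η = 2^j m`, `m` odd, `η = ±1`.

* `caseV2`. If `n % 8 ∈ {1,7}` then `Step 1 n X` with `X = (3n-1)/2` (`n % 8 = 1`, then
  `X % 4 = 1`), resp. `X = (3n+1)/2` (`n % 8 = 7`, then `X % 4 = 3`). If `X` reaches `(k,V)` then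
  `n` reaches `(k+1,V+1)`; so `X` is `bad0 k V`. `X` modulo `2^{V+1}` (`V+1 ≥ 2`) determines the
  sign, hence `n` modulo `2^{V+2}`. Use `cnt_le_of_rel`.
* `caseB` (`j` odd): `Step j n m`; for each of the two signs `n ↦ m` is injective modulo
  `(2^{V+j+1}, 2^{V+1})`; `m` is `bad0 k V`. (Split the predicate into the two signs with
  `cnt_or_le` and apply `cnt_le_of_rel` twice.)
* `caseA` (`j ≥ 4`): if `3n-η = 2^j m` (`m` odd) then `A^i(n) = 3^{i-1} 2^{j-i} m + η` for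
  `1 ≤ i ≤ j-1` (first step `3n+η = 2(2^{j-1}m+η)`, then `3x-η = 2x'` for
  `x = 3^{i-1}2^{j-i}m+η`), all odd for `i ≤ j-2`; so `Path (j-2) (j-2) n X` with
  `X = 4·3^{j-3} m + η`, `X ≡ η+4 (mod 8)`, i.e. `X % 8 ∈ {3,5}` and `X % 8` determines `η`; and
  `2^{j-2} X = 3^{j-2} n + η(2^{j-2}-3^{j-3})`. Hence `X` modulo `2^{V+1}`, `V+1 ≥ 3`, determines
  `n` modulo `2^{V+(j-2)+1}`, and `X` is `bad1 k V`.
* `caseTail`: `3n-η = 2^8 m` (`m` any integer): `Path 6 6 n X` with `X = 3^5·4 m + η`, odd,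
  `X ≡ η (mod 4)`; `2^6 X = 3^6 n + η(2^6-3^5)`; `X` is `bad0 k V`, and `V+1 ≥ 2` gives `η`.
-/

namespace Beanstalk

/-- the valuation-2 step: explicit -/
theorem stepV2 {n : ℤ} (hn : Odd n) (h8 : n % 8 = 1 ∨ n % 8 = 7) :
    ∃ X : ℤ, Step 1 n X ∧ ((X % 4 = 1 ∧ 2 * X = 3 * n - 1) ∨ (X % 4 = 3 ∧ 2 * X = 3 * n + 1)) := by
  rcases h8 with h8 | h8
  · obtain ⟨t, ht⟩ : ∃ t, n = 8 * t + 1 := ⟨n / 8, by omega⟩
    refine ⟨12 * t + 1, ⟨⟨0, by ring⟩, hn, ⟨6 * t, by ring⟩, Or.inr ?_⟩, Or.inl ⟨by omega, ?_⟩⟩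
    · rw [ht]; ring
    · rw [ht]; ring
  · obtain ⟨t, ht⟩ : ∃ t, n = 8 * t + 7 := ⟨n / 8, by omega⟩
    refine ⟨12 * t + 11, ⟨⟨0, by ring⟩, hn, ⟨6 * t + 5, by ring⟩, Or.inl ?_⟩,
      Or.inr ⟨by omega, ?_⟩⟩
    · rw [ht]; ring
    · rw [ht]; ring

theorem caseV2 (k V : ℕ) (hV : 1 ≤ V) :
    cnt (V + 2) (fun n => Odd n ∧ (n % 8 = 1 ∨ n % 8 = 7) ∧ ¬ Reach (k + 1) (V + 1) n) ≤
      cnt (V + 1) (bad0 k V) := by
  refine cnt_le_of_rel (V + 2) (V + 1) _ _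
    (fun n X => (X % 4 = 1 ∧ 2 * X = 3 * n - 1) ∨ (X % 4 = 3 ∧ 2 * X = 3 * n + 1))
    (bad0_per k V) ?_ ?_
  · rintro n ⟨hn, h8, hR⟩
    obtain ⟨X, hs, hX⟩ := stepV2 hn h8
    refine ⟨X, ⟨hs.2.2.1, fun hXR => hR ?_⟩, hX⟩
    obtain ⟨N, hN⟩ := hXR
    exact ⟨N, Path.cons hs hN⟩
  · rintro n n' X X' - - hX hX' hdvd
    obtain ⟨r, hr⟩ := hdvd
    obtain ⟨W', rfl⟩ : ∃ W', V = W' + 1 := ⟨V - 1, by omega⟩
    have h4 : (2 : ℤ) ^ (W' + 1 + 1) = 4 * 2 ^ W' := by ring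
    rw [h4] at hr
    have h43 : (X - X') % 4 = 0 := by
      rw [hr, mul_assoc]; exact Int.mul_emod_right 4 _
    have hcop : IsCoprime ((2 : ℤ) ^ (W' + 1 + 2)) 3 := by
      apply IsCoprime.pow_left
      exact ⟨-1, 1, by norm_num⟩
    have hd3 : (2 : ℤ) ^ (W' + 1 + 2) ∣ 3 * (n - n') := by
      refine ⟨r, ?_⟩
      have e : (2 : ℤ) ^ (W' + 1 + 2) = 2 * (4 * 2 ^ W') := by ring
      rw [e]
      rcases hX with ⟨a1, a2⟩ | ⟨a1, a2⟩ <;> rcases hX' with ⟨b1, b2⟩ | ⟨b1, b2⟩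
      · linear_combination 2 * hr - a2 + b2
      · omega
      · omega
      · linear_combination 2 * hr - a2 + b2
    exact hcop.dvd_of_dvd_mul_left hd3

theorem caseB (j k V : ℕ) (hj : Odd j) :
    cnt (V + j + 1) (fun n => Odd n ∧ Val j n ∧ ¬ Reach (k + 1) (V + j) n) ≤
      2 * cnt (V + 1) (bad0 k V) := by
  have hcop : IsCoprime ((2 : ℤ) ^ (V + j + 1)) 3 := by
    apply IsCoprime.pow_left
    exact ⟨-1, 1, by norm_num⟩
  have key : ∀ η : ℤ, (η = 1 ∨ η = -1) →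
      cnt (V + j + 1) (fun n => Odd n ∧ (∃ m : ℤ, Odd m ∧ 3 * n + η = 2 ^ j * m) ∧
        ¬ Reach (k + 1) (V + j) n) ≤ cnt (V + 1) (bad0 k V) := by
    intro η hη
    refine cnt_le_of_rel (V + j + 1) (V + 1) _ _ (fun n m => 3 * n + η = 2 ^ j * m)
      (bad0_per k V) ?_ ?_
    · rintro n ⟨hn, ⟨m, hm, he⟩, hR⟩
      refine ⟨m, ⟨hm, fun hmR => hR ?_⟩, he⟩
      obtain ⟨N, hN⟩ := hmR
      refine ⟨N, Path.cons ⟨hj, hn, hm, ?_⟩ hN⟩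
      rcases hη with h | h
      · left; rw [← he, h]
      · right; rw [← he, h]; ring
    · rintro n n' m m' - - he he' ⟨r, hr⟩
      have hd3 : (2 : ℤ) ^ (V + j + 1) ∣ 3 * (n - n') := by
        refine ⟨r, ?_⟩
        have e : (2 : ℤ) ^ (V + j + 1) = 2 ^ j * 2 ^ (V + 1) := by
          rw [← pow_add]; congr 1; ring
        rw [e]
        linear_combination he - he' + 2 ^ j * hr
      exact hcop.dvd_of_dvd_mul_left hd3
  calc cnt (V + j + 1) (fun n => Odd n ∧ Val j n ∧ ¬ Reach (k + 1) (V + j) n)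
      ≤ cnt (V + j + 1) (fun n => Odd n ∧ (∃ m : ℤ, Odd m ∧ 3 * n + 1 = 2 ^ j * m) ∧
          ¬ Reach (k + 1) (V + j) n) +
        cnt (V + j + 1) (fun n => Odd n ∧ (∃ m : ℤ, Odd m ∧ 3 * n + (-1) = 2 ^ j * m) ∧
          ¬ Reach (k + 1) (V + j) n) := by
        refine cnt_or_le _ _ _ _ ?_
        rintro n ⟨hn, ⟨m, hm, he | he⟩, hR⟩
        · exact Or.inl ⟨hn, ⟨m, hm, he⟩, hR⟩
        · exact Or.inr ⟨hn, ⟨m, hm, by rw [← he]; ring⟩, hR⟩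
    _ ≤ cnt (V + 1) (bad0 k V) + cnt (V + 1) (bad0 k V) :=
        add_le_add (key 1 (Or.inl rfl)) (key (-1) (Or.inr rfl))
    _ = 2 * cnt (V + 1) (bad0 k V) := by ring

end Beanstalk
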