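import Pool.Agent.Work.MP_8093a3_co.LatA
import Pool.Agent.Work.MP_8093a3_co.LatB

/-!
# Module LatRec: the lattice lemma

Every odd `n` has `n % 8 ∈ {1,7}` (valuation 2) or `n % 8 ∈ {3,5}` (valuation `≥ 3`), and in the
second case the valuation is 3, 4, 5, 6, 7 or `≥ 8`. Write (`V = k+2d`)
`u0(k,d) = cnt (V+1) (bad0 k V) / 2^V`, `u1(k,d) = 2 cnt (V+1) (bad1 k V) / 2^V`.
From `caseV2`, `caseB` (`j = 3,5,7`), `caseA` (`j = 4,6` and `j = 5, 7` for small `d`),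
`caseTail`:

* (0) `u0(k,0) = u1(k,0) = 0` (`exists_pathA`), `u0 ≤ 1`, `u1 ≤ 2` always (`cnt_odd_le`);
* (1) `u0(k+1,d) ≤ u0(k,d)/2 + u1(k+1,d)/2` for `d ≥ 1`;
* (2) for `k ≥ 6`, `d ≥ 3`: `u1(k,d) ≤ u0(k-1,d-1)/2 + u1(k-2,d)/4 + u0(k-1,d-2)/8
      + u1(k-4,d)/16 + u0(k-1,d-3)/32 + u0(k-6,d)/32`;
* (2') `k ≥ 6`, `d = 2`: the same with the term `u0(k-1,d-3)/32` replaced by `u1(k-5,d)/32`;
* (2'') `k ≥ 6`, `d = 1`: in addition `u0(k-1,d-2)/8` replaced by `u1(k-3,d)/8`.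

(Check of one term: `j = 3`: `cnt (V+1) ≤ 2 cnt (V-2) (bad0 (k-1) (V-3))`, so the contribution to
`u1` is `2·2·u0·2^{V-3}/2^V = u0/2`. `j = 4`: `cnt (V+1) ≤ cnt (V-1) (bad1 (k-2) (V-2))`,
contribution `2·(u1 2^{V-2}/2)/2^V = u1/4`. `j ≥ 8`: `2·u0·2^{V-6}/2^V = u0/32`.)

Claim: with `γ = 1073/1000`, `β = 41/40`, `h = 39/40`:
`u0(k,d) ≤ 3 γ^d β^{-k}` and `u1(k,d) ≤ 3 h γ^d β^{-k}`. Strong induction on `k` (`u1` first).
For `k < 6`: `3 h β^{-6} ≥ 2`. For `k ≥ 6`: `d = 0` trivial; (2) needs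
`β/(2γ) + β²h/4 + β/(8γ²) + β⁴h/16 + β/(32γ³) + β⁶/32 ≤ h`; (2') (with `u0(k-1,0) = 0`) needs
`β/(2γ) + β²h/4 + β⁴h/16 + β⁵h/32 + β⁶/32 ≤ h`; (2'') (with `u0(k-1,0) = 0`) needs
`β²h/4 + β³h/8 + β⁴h/16 + β⁵h/32 + β⁶/32 ≤ h`; (1) needs `β/2 + h/2 ≤ 1`. All four hold.
(The recursions were verified numerically.)
-/

namespace Beanstalk

noncomputable def u0 (k d : ℕ) : ℝ := (cnt (k + 2 * d + 1) (bad0 k (k + 2 * d)) : ℝ) / 2 ^ (k + 2 * d)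

noncomputable def u1 (k d : ℕ) : ℝ :=
  2 * (cnt (k + 2 * d + 1) (bad1 k (k + 2 * d)) : ℝ) / 2 ^ (k + 2 * d)

theorem u0_nonneg (k d : ℕ) : 0 ≤ u0 k d := by unfold u0; positivity

theorem u1_nonneg (k d : ℕ) : 0 ≤ u1 k d := by unfold u1; positivity

theorem u0_zero (k : ℕ) : u0 k 0 = 0 := by
  unfold u0
  rw [cnt_false]
  · simp
  · rintro n ⟨hn, hR⟩
    obtain ⟨n', h⟩ := exists_pathA k hn
    exact hR ⟨n', by simpa using h⟩

theorem u1_zero (k : ℕ) : u1 k 0 = 0 := by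
  unfold u1
  rw [cnt_false]
  · simp
  · rintro n ⟨hn, -, hR⟩
    obtain ⟨n', h⟩ := exists_pathA k hn
    exact hR ⟨n', by simpa using h⟩

theorem u0_le_one (k d : ℕ) : u0 k d ≤ 1 := by
  unfold u0
  rw [div_le_one (by positivity)]
  have := cnt_odd_le (k + 2 * d) (bad0 k (k + 2 * d)) (fun n h => h.1)
  exact_mod_cast this

theorem u1_le_two (k d : ℕ) : u1 k d ≤ 2 := by
  unfold u1
  rw [div_le_iff₀ (by positivity)]
  have := cnt_odd_le (k + 2 * d) (bad1 k (k + 2 * d)) (fun n h => h.1)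
  have h2 : (cnt (k + 2 * d + 1) (bad1 k (k + 2 * d)) : ℝ) ≤ 2 ^ (k + 2 * d) := by exact_mod_cast this
  linarith

theorem rec0 (k d : ℕ) : u0 (k + 1) (d + 1) ≤ u0 k (d + 1) / 2 + u1 (k + 1) (d + 1) / 2 := by
  have hV : k + 1 + 2 * (d + 1) = k + 2 * (d + 1) + 1 := by ring
  unfold u0 u1
  rw [hV]
  set V := k + 2 * (d + 1) with hVdef
  have h1 := caseV2 k V (by omega)
  have h2 : cnt (V + 1 + 1) (bad0 (k + 1) (V + 1)) ≤
      cnt (V + 2) (fun n => Odd n ∧ (n % 8 = 1 ∨ n % 8 = 7) ∧ ¬ Reach (k + 1) (V + 1) n) +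
        cnt (V + 1 + 1) (bad1 (k + 1) (V + 1)) := by
    refine cnt_or_le _ _ _ _ ?_
    rintro n ⟨hn, hR⟩
    have h8 : n % 8 = 1 ∨ n % 8 = 7 ∨ n % 8 = 3 ∨ n % 8 = 5 := by
      obtain ⟨r, hr⟩ := hn
      omega
    rcases h8 with h | h | h | h
    · exact Or.inl ⟨hn, Or.inl h, hR⟩
    · exact Or.inl ⟨hn, Or.inr h, hR⟩
    · exact Or.inr ⟨hn, Or.inl h, hR⟩
    · exact Or.inr ⟨hn, Or.inr h, hR⟩
  have h3 : (cnt (V + 1 + 1) (bad0 (k + 1) (V + 1)) : ℝ) ≤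
      cnt (V + 1) (bad0 k V) + cnt (V + 1 + 1) (bad1 (k + 1) (V + 1)) := by
    exact_mod_cast le_trans h2 (Nat.add_le_add_right h1 _)
  have hp : (0 : ℝ) < 2 ^ V := by positivity
  rw [pow_succ]
  rw [div_le_iff₀ (by positivity)]
  have e : ((cnt (V + 1) (bad0 k V) : ℝ) / 2 ^ V / 2 +
      2 * (cnt (V + 1 + 1) (bad1 (k + 1) (V + 1)) : ℝ) / (2 ^ V * 2) / 2) * (2 ^ V * 2) =
      cnt (V + 1) (bad0 k V) + cnt (V + 1 + 1) (bad1 (k + 1) (V + 1)) := by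
    field_simp
  rw [e]
  exact h3

theorem LB (i K K' d d' : ℕ) (hK : K' = K + 1) (hd : d' = d + i) :
    2 * (cnt (K' + 2 * d' + 1)
      (fun n => Odd n ∧ Val (2 * i + 1) n ∧ ¬ Reach K' (K' + 2 * d') n) : ℝ) / 2 ^ (K' + 2 * d') ≤
      2 * u0 K d / 4 ^ i := by
  subst hK hd
  have h := caseB (2 * i + 1) K (K + 2 * d) ⟨i, rfl⟩
  have e : K + 2 * d + (2 * i + 1) = K + 1 + 2 * (d + i) := by ring
  rw [e] at h
  have h' : (cnt (K + 1 + 2 * (d + i) + 1)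
      (fun n => Odd n ∧ Val (2 * i + 1) n ∧ ¬ Reach (K + 1) (K + 1 + 2 * (d + i)) n) : ℝ) ≤
      2 * cnt (K + 2 * d + 1) (bad0 K (K + 2 * d)) := by exact_mod_cast h
  unfold u0
  have e2 : (2 : ℝ) ^ (K + 1 + 2 * (d + i)) = 2 ^ (K + 2 * d) * 2 * 4 ^ i := by
    have : (4 : ℝ) ^ i = 2 ^ (2 * i) := by rw [pow_mul]; norm_num
    rw [this, ← e, pow_add, pow_succ]; ring
  rw [e2, div_le_iff₀ (by positivity)]
  have e3 : 2 * ((cnt (K + 2 * d + 1) (bad0 K (K + 2 * d)) : ℝ) / 2 ^ (K + 2 * d)) / 4 ^ i *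
      (2 ^ (K + 2 * d) * 2 * 4 ^ i) = 4 * cnt (K + 2 * d + 1) (bad0 K (K + 2 * d)) := by
    field_simp
    ring
  rw [e3]
  linarith

theorem LA (j K K' d : ℕ) (hj : 4 ≤ j) (hK : K' = K + (j - 2)) (hV : 2 ≤ K + 2 * d) :
    2 * (cnt (K' + 2 * d + 1)
      (fun n => Odd n ∧ Val j n ∧ ¬ Reach K' (K' + 2 * d) n) : ℝ) / 2 ^ (K' + 2 * d) ≤
      u1 K d / 2 ^ (j - 2) := by
  subst hK
  have h := caseA j K (K + 2 * d) hj hV
  have e : K + 2 * d + (j - 2) = K + (j - 2) + 2 * d := by ring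
  rw [e] at h
  have h' : (cnt (K + (j - 2) + 2 * d + 1)
      (fun n => Odd n ∧ Val j n ∧ ¬ Reach (K + (j - 2)) (K + (j - 2) + 2 * d) n) : ℝ) ≤
      cnt (K + 2 * d + 1) (bad1 K (K + 2 * d)) := by exact_mod_cast h
  unfold u1
  have e2 : (2 : ℝ) ^ (K + (j - 2) + 2 * d) = 2 ^ (K + 2 * d) * 2 ^ (j - 2) := by
    rw [← e, pow_add]
  rw [e2, div_le_iff₀ (by positivity)]
  have e3 : 2 * (cnt (K + 2 * d + 1) (bad1 K (K + 2 * d)) : ℝ) / 2 ^ (K + 2 * d) / 2 ^ (j - 2) *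
      (2 ^ (K + 2 * d) * 2 ^ (j - 2)) = 2 * cnt (K + 2 * d + 1) (bad1 K (K + 2 * d)) := by
    field_simp
  rw [e3]
  linarith

theorem LT (K K' d : ℕ) (hK : K' = K + 6) (hV : 1 ≤ K + 2 * d) :
    2 * (cnt (K' + 2 * d + 1)
      (fun n => Odd n ∧ (∃ m : ℤ, 3 * n + 1 = 2 ^ 8 * m ∨ 3 * n - 1 = 2 ^ 8 * m) ∧
        ¬ Reach K' (K' + 2 * d) n) : ℝ) / 2 ^ (K' + 2 * d) ≤
      u0 K d / 32 := by
  subst hK
  have h := caseTail K (K + 2 * d) hV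
  have e : K + 2 * d + 6 = K + 6 + 2 * d := by ring
  rw [e] at h
  have h' : (cnt (K + 6 + 2 * d + 1)
      (fun n => Odd n ∧ (∃ m : ℤ, 3 * n + 1 = 2 ^ 8 * m ∨ 3 * n - 1 = 2 ^ 8 * m) ∧
        ¬ Reach (K + 6) (K + 6 + 2 * d) n) : ℝ) ≤
      cnt (K + 2 * d + 1) (bad0 K (K + 2 * d)) := by exact_mod_cast h
  unfold u0
  have e2 : (2 : ℝ) ^ (K + 6 + 2 * d) = 2 ^ (K + 2 * d) * 64 := by
    rw [← e, pow_add]; norm_num
  rw [e2, div_le_iff₀ (by positivity)]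
  have e3 : (cnt (K + 2 * d + 1) (bad0 K (K + 2 * d)) : ℝ) / 2 ^ (K + 2 * d) / 32 *
      (2 ^ (K + 2 * d) * 64) = 2 * cnt (K + 2 * d + 1) (bad0 K (K + 2 * d)) := by
    field_simp
    ring
  rw [e3]
  linarith

theorem val_split {n : ℤ} (h8 : n % 8 = 3 ∨ n % 8 = 5) :
    Val 3 n ∨ Val 4 n ∨ Val 5 n ∨ Val 6 n ∨ Val 7 n ∨
      (∃ m : ℤ, 3 * n + 1 = 2 ^ 8 * m ∨ 3 * n - 1 = 2 ^ 8 * m) := by
  have key : ∀ x y : ℤ, x = 8 * y → (∃ m, Odd m ∧ x = 2 ^ 3 * m) ∨ (∃ m, Odd m ∧ x = 2 ^ 4 * m) ∨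
      (∃ m, Odd m ∧ x = 2 ^ 5 * m) ∨ (∃ m, Odd m ∧ x = 2 ^ 6 * m) ∨ (∃ m, Odd m ∧ x = 2 ^ 7 * m) ∨
      (∃ m, x = 2 ^ 8 * m) := by
    intro x y hx
    rcases Int.even_or_odd y with ⟨a, ha⟩ | h
    · rcases Int.even_or_odd a with ⟨b, hb⟩ | h
      · rcases Int.even_or_odd b with ⟨c, hc⟩ | h
        · rcases Int.even_or_odd c with ⟨d, hd⟩ | h
          · rcases Int.even_or_odd d with ⟨e, he⟩ | h
            · right; right; right; right; right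
              exact ⟨e, by rw [hx, ha, hb, hc, hd, he]; ring⟩
            · right; right; right; right; left
              exact ⟨d, h, by rw [hx, ha, hb, hc, hd]; ring⟩
          · right; right; right; left
            exact ⟨c, h, by rw [hx, ha, hb, hc]; ring⟩
        · right; right; left
          exact ⟨b, h, by rw [hx, ha, hb]; ring⟩
      · right; left
        exact ⟨a, h, by rw [hx, ha]; ring⟩
    · left
      exact ⟨y, h, by rw [hx]; ring⟩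
  rcases h8 with h | h
  · have hx : 3 * n - 1 = 8 * ((3 * n - 1) / 8) := by omega
    rcases key _ _ hx with ⟨m, h1, h2⟩ | ⟨m, h1, h2⟩ | ⟨m, h1, h2⟩ | ⟨m, h1, h2⟩ | ⟨m, h1, h2⟩ |
      ⟨m, h2⟩
    · exact Or.inl ⟨m, h1, Or.inr h2⟩
    · exact Or.inr (Or.inl ⟨m, h1, Or.inr h2⟩)
    · exact Or.inr (Or.inr (Or.inl ⟨m, h1, Or.inr h2⟩))
    · exact Or.inr (Or.inr (Or.inr (Or.inl ⟨m, h1, Or.inr h2⟩)))
    · exact Or.inr (Or.inr (Or.inr (Or.inr (Or.inl ⟨m, h1, Or.inr h2⟩))))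
    · exact Or.inr (Or.inr (Or.inr (Or.inr (Or.inr ⟨m, Or.inr h2⟩))))
  · have hx : 3 * n + 1 = 8 * ((3 * n + 1) / 8) := by omega
    rcases key _ _ hx with ⟨m, h1, h2⟩ | ⟨m, h1, h2⟩ | ⟨m, h1, h2⟩ | ⟨m, h1, h2⟩ | ⟨m, h1, h2⟩ |
      ⟨m, h2⟩
    · exact Or.inl ⟨m, h1, Or.inl h2⟩
    · exact Or.inr (Or.inl ⟨m, h1, Or.inl h2⟩)
    · exact Or.inr (Or.inr (Or.inl ⟨m, h1, Or.inl h2⟩))
    · exact Or.inr (Or.inr (Or.inr (Or.inl ⟨m, h1, Or.inl h2⟩)))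
    · exact Or.inr (Or.inr (Or.inr (Or.inr (Or.inl ⟨m, h1, Or.inl h2⟩))))
    · exact Or.inr (Or.inr (Or.inr (Or.inr (Or.inr ⟨m, Or.inl h2⟩))))

/-- the contribution of valuation `j` -/
noncomputable def cv (j K d : ℕ) : ℝ :=
  2 * (cnt (K + 2 * d + 1) (fun n => Odd n ∧ Val j n ∧ ¬ Reach K (K + 2 * d) n) : ℝ) /
    2 ^ (K + 2 * d)

noncomputable def ct (K d : ℕ) : ℝ :=
  2 * (cnt (K + 2 * d + 1)
      (fun n => Odd n ∧ (∃ m : ℤ, 3 * n + 1 = 2 ^ 8 * m ∨ 3 * n - 1 = 2 ^ 8 * m) ∧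
        ¬ Reach K (K + 2 * d) n) : ℝ) / 2 ^ (K + 2 * d)

theorem rec1 (K d : ℕ) :
    u1 K d ≤ cv 3 K d + cv 4 K d + cv 5 K d + cv 6 K d + cv 7 K d + ct K d := by
  have h : cnt (K + 2 * d + 1) (bad1 K (K + 2 * d)) ≤
      cnt (K + 2 * d + 1) (fun n => Odd n ∧ Val 3 n ∧ ¬ Reach K (K + 2 * d) n) +
      (cnt (K + 2 * d + 1) (fun n => Odd n ∧ Val 4 n ∧ ¬ Reach K (K + 2 * d) n) +
      (cnt (K + 2 * d + 1) (fun n => Odd n ∧ Val 5 n ∧ ¬ Reach K (K + 2 * d) n) +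
      (cnt (K + 2 * d + 1) (fun n => Odd n ∧ Val 6 n ∧ ¬ Reach K (K + 2 * d) n) +
      (cnt (K + 2 * d + 1) (fun n => Odd n ∧ Val 7 n ∧ ¬ Reach K (K + 2 * d) n) +
      cnt (K + 2 * d + 1)
        (fun n => Odd n ∧ (∃ m : ℤ, 3 * n + 1 = 2 ^ 8 * m ∨ 3 * n - 1 = 2 ^ 8 * m) ∧
          ¬ Reach K (K + 2 * d) n))))) := by
    refine le_trans (cnt_or_le _ _ _
      (fun n => Odd n ∧ (Val 4 n ∨ Val 5 n ∨ Val 6 n ∨ Val 7 n ∨
        (∃ m : ℤ, 3 * n + 1 = 2 ^ 8 * m ∨ 3 * n - 1 = 2 ^ 8 * m)) ∧ ¬ Reach K (K + 2 * d) n) ?_)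
      (Nat.add_le_add_left ?_ _)
    · rintro n ⟨hn, h8, hR⟩
      rcases val_split h8 with h | h
      · exact Or.inl ⟨hn, h, hR⟩
      · exact Or.inr ⟨hn, h, hR⟩
    refine le_trans (cnt_or_le _ _ _
      (fun n => Odd n ∧ (Val 5 n ∨ Val 6 n ∨ Val 7 n ∨
        (∃ m : ℤ, 3 * n + 1 = 2 ^ 8 * m ∨ 3 * n - 1 = 2 ^ 8 * m)) ∧ ¬ Reach K (K + 2 * d) n) ?_)
      (Nat.add_le_add_left ?_ _)
    · rintro n ⟨hn, h | h, hR⟩
      · exact Or.inl ⟨hn, h, hR⟩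
      · exact Or.inr ⟨hn, h, hR⟩
    refine le_trans (cnt_or_le _ _ _
      (fun n => Odd n ∧ (Val 6 n ∨ Val 7 n ∨
        (∃ m : ℤ, 3 * n + 1 = 2 ^ 8 * m ∨ 3 * n - 1 = 2 ^ 8 * m)) ∧ ¬ Reach K (K + 2 * d) n) ?_)
      (Nat.add_le_add_left ?_ _)
    · rintro n ⟨hn, h | h, hR⟩
      · exact Or.inl ⟨hn, h, hR⟩
      · exact Or.inr ⟨hn, h, hR⟩
    refine le_trans (cnt_or_le _ _ _
      (fun n => Odd n ∧ (Val 7 n ∨
        (∃ m : ℤ, 3 * n + 1 = 2 ^ 8 * m ∨ 3 * n - 1 = 2 ^ 8 * m)) ∧ ¬ Reach K (K + 2 * d) n) ?_)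
      (Nat.add_le_add_left ?_ _)
    · rintro n ⟨hn, h | h, hR⟩
      · exact Or.inl ⟨hn, h, hR⟩
      · exact Or.inr ⟨hn, h, hR⟩
    refine cnt_or_le _ _ _ _ ?_
    rintro n ⟨hn, h | h, hR⟩
    · exact Or.inl ⟨hn, h, hR⟩
    · exact Or.inr ⟨hn, h, hR⟩
  have h' : (cnt (K + 2 * d + 1) (bad1 K (K + 2 * d)) : ℝ) ≤
      cnt (K + 2 * d + 1) (fun n => Odd n ∧ Val 3 n ∧ ¬ Reach K (K + 2 * d) n) +
      (cnt (K + 2 * d + 1) (fun n => Odd n ∧ Val 4 n ∧ ¬ Reach K (K + 2 * d) n) +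
      (cnt (K + 2 * d + 1) (fun n => Odd n ∧ Val 5 n ∧ ¬ Reach K (K + 2 * d) n) +
      (cnt (K + 2 * d + 1) (fun n => Odd n ∧ Val 6 n ∧ ¬ Reach K (K + 2 * d) n) +
      (cnt (K + 2 * d + 1) (fun n => Odd n ∧ Val 7 n ∧ ¬ Reach K (K + 2 * d) n) +
      cnt (K + 2 * d + 1)
        (fun n => Odd n ∧ (∃ m : ℤ, 3 * n + 1 = 2 ^ 8 * m ∨ 3 * n - 1 = 2 ^ 8 * m) ∧
          ¬ Reach K (K + 2 * d) n))))) := by
    exact_mod_cast h
  unfold u1 cv ct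
  have hp : (0 : ℝ) < 2 ^ (K + 2 * d) := by positivity
  rw [← add_div, ← add_div, ← add_div, ← add_div, ← add_div]
  refine div_le_div_of_nonneg_right ?_ hp.le
  linarith

theorem lyap (k : ℕ) : ∀ d : ℕ, u0 k d ≤ 3 * (1073 / 1000) ^ d * (40 / 41) ^ k ∧
    u1 k d ≤ 3 * (39 / 40) * (1073 / 1000) ^ d * (40 / 41) ^ k := by
  induction k using Nat.strong_induction_on with
  | _ k ih =>
    intro d
    by_cases hk : k < 6
    · -- trivial bounds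
      have h1 : (1 : ℝ) ≤ (1073 / 1000) ^ d := one_le_pow₀ (by norm_num)
      have h2 : (40 / 41 : ℝ) ^ 5 ≤ (40 / 41) ^ k :=
        pow_le_pow_of_le_one (by norm_num) (by norm_num) (by omega)
      have h3 : (2 : ℝ) ≤ 3 * (39 / 40) * (40 / 41) ^ 5 := by norm_num
      have h4 : (40 / 41 : ℝ) ^ 5 ≤ (1073 / 1000) ^ d * (40 / 41) ^ k := by
        calc (40 / 41 : ℝ) ^ 5 = 1 * (40 / 41) ^ 5 := by ring
          _ ≤ (1073 / 1000) ^ d * (40 / 41) ^ k := mul_le_mul h1 h2 (by positivity) (by positivity)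
      have h5 := u0_le_one k d
      have h6 := u1_le_two k d
      constructor
      · have e : (3 : ℝ) * (1073 / 1000) ^ d * (40 / 41) ^ k =
            3 * ((1073 / 1000) ^ d * (40 / 41) ^ k) := by ring
        rw [e]; nlinarith
      · have e : (3 : ℝ) * (39 / 40) * (1073 / 1000) ^ d * (40 / 41) ^ k =
            3 * (39 / 40) * ((1073 / 1000) ^ d * (40 / 41) ^ k) := by ring
        rw [e]; nlinarith
    · obtain ⟨K, rfl⟩ : ∃ K, k = K + 6 := ⟨k - 6, by omega⟩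
      have i0 := ih K (by omega)
      have i1 := ih (K + 1) (by omega)
      have i2 := ih (K + 2) (by omega)
      have i3 := ih (K + 3) (by omega)
      have i4 := ih (K + 4) (by omega)
      have i5 := ih (K + 5) (by omega)
      rcases d with _ | d
      · rw [u0_zero, u1_zero]
        constructor <;> positivity
      -- the bound for u1
      have hu1 : u1 (K + 6) (d + 1) ≤
          3 * (39 / 40) * (1073 / 1000) ^ (d + 1) * (40 / 41) ^ (K + 6) := by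
        have hr := rec1 (K + 6) (d + 1)
        have hA4 : cv 4 (K + 6) (d + 1) ≤ u1 (K + 4) (d + 1) / 2 ^ 2 :=
          LA 4 (K + 4) (K + 6) (d + 1) (by norm_num) (by omega) (by omega)
        have hA6 : cv 6 (K + 6) (d + 1) ≤ u1 (K + 2) (d + 1) / 2 ^ 4 :=
          LA 6 (K + 2) (K + 6) (d + 1) (by norm_num) (by omega) (by omega)
        have hTt : ct (K + 6) (d + 1) ≤ u0 K (d + 1) / 32 :=
          LT K (K + 6) (d + 1) (by omega) (by omega)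
        have hB3 : cv 3 (K + 6) (d + 1) ≤ 2 * u0 (K + 5) d / 4 ^ 1 :=
          LB 1 (K + 5) (K + 6) d (d + 1) (by omega) (by omega)
        rcases d with _ | d
        · -- d = 1
          rw [u0_zero] at hB3
          have hA5 : cv 5 (K + 6) (0 + 1) ≤ u1 (K + 3) (0 + 1) / 2 ^ 3 :=
            LA 5 (K + 3) (K + 6) (0 + 1) (by norm_num) (by omega) (by omega)
          have hA7 : cv 7 (K + 6) (0 + 1) ≤ u1 (K + 1) (0 + 1) / 2 ^ 5 :=
            LA 7 (K + 1) (K + 6) (0 + 1) (by norm_num) (by omega) (by omega)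
          have j0 := (i0 (0 + 1)).1
          have j1 := (i1 (0 + 1)).2
          have j2 := (i2 (0 + 1)).2
          have j3 := (i3 (0 + 1)).2
          have j4 := (i4 (0 + 1)).2
          simp only [pow_add] at j0 j1 j2 j3 j4 ⊢
          set y : ℝ := (40 / 41) ^ K with hy
          have hy0 : 0 < y := by positivity
          norm_num at j0 j1 j2 j3 j4 hA4 hA5 hA6 hA7 hB3 hTt hr ⊢
          nlinarith
        · have hd2 : d + 1 = d + 1 := rfl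
          rcases d with _ | d
          · -- d = 2
            have hB5 : cv 5 (K + 6) (0 + 1 + 1) ≤ 2 * u0 (K + 5) 0 / 4 ^ 2 :=
              LB 2 (K + 5) (K + 6) 0 (0 + 1 + 1) (by omega) (by omega)
            rw [u0_zero] at hB5
            have hA7 : cv 7 (K + 6) (0 + 1 + 1) ≤ u1 (K + 1) (0 + 1 + 1) / 2 ^ 5 :=
              LA 7 (K + 1) (K + 6) (0 + 1 + 1) (by norm_num) (by omega) (by omega)
            have j0 := (i0 (0 + 1 + 1)).1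
            have j1 := (i1 (0 + 1 + 1)).2
            have j2 := (i2 (0 + 1 + 1)).2
            have j4 := (i4 (0 + 1 + 1)).2
            have j5 := (i5 (0 + 1)).1
            simp only [pow_add] at j0 j1 j2 j4 j5 ⊢
            set y : ℝ := (40 / 41) ^ K with hy
            have hy0 : 0 < y := by positivity
            norm_num at j0 j1 j2 j4 j5 hA4 hB5 hA6 hA7 hB3 hTt hr ⊢
            nlinarith
          · -- d ≥ 3
            have hB5 : cv 5 (K + 6) (d + 1 + 1 + 1) ≤ 2 * u0 (K + 5) (d + 1) / 4 ^ 2 :=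
              LB 2 (K + 5) (K + 6) (d + 1) (d + 1 + 1 + 1) (by omega) (by omega)
            have hB7 : cv 7 (K + 6) (d + 1 + 1 + 1) ≤ 2 * u0 (K + 5) d / 4 ^ 3 :=
              LB 3 (K + 5) (K + 6) d (d + 1 + 1 + 1) (by omega) (by omega)
            have j0 := (i0 (d + 1 + 1 + 1)).1
            have j2 := (i2 (d + 1 + 1 + 1)).2
            have j4 := (i4 (d + 1 + 1 + 1)).2
            have j5 := (i5 (d + 1 + 1)).1
            have j5' := (i5 (d + 1)).1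
            have j5'' := (i5 d).1
            simp only [pow_add] at j0 j2 j4 j5 j5' j5'' ⊢
            set y : ℝ := (40 / 41) ^ K with hy
            set z : ℝ := (1073 / 1000) ^ d with hz
            have hy0 : 0 < y := by positivity
            have hz0 : 0 < z := by positivity
            have hyz : 0 < z * y := by positivity
            norm_num at j0 j2 j4 j5 j5' j5'' hA4 hB5 hA6 hB7 hB3 hTt hr ⊢
            nlinarith
      refine ⟨?_, hu1⟩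
      have h0 := rec0 (K + 5) d
      have e : K + 5 + 1 = K + 6 := by ring
      rw [e] at h0
      have j5 := (i5 (d + 1)).1
      refine le_trans h0 ?_
      have e6 : (40 / 41 : ℝ) ^ (K + 6) = (40 / 41) ^ (K + 5) * (40 / 41) := by
        rw [← pow_succ]
      rw [e6] at hu1 ⊢
      have hp : (0 : ℝ) < (1073 / 1000) ^ (d + 1) * (40 / 41) ^ (K + 5) := by positivity
      nlinarith

theorem lattice_bound (k d : ℕ) :
    (cnt (k + 2 * d + 1) (bad0 k (k + 2 * d)) : ℝ) ≤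
      3 * (1073 / 1000) ^ d * (40 / 41) ^ k * 2 ^ (k + 2 * d) := by
  have h := (lyap k d).1
  unfold u0 at h
  rw [div_le_iff₀ (by positivity)] at h
  exact h

end Beanstalk
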