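import Pool.Agent.Work.MP_8093a3_co.PathE

/-!
# Module PairStep: reducing a difference

2. `pair_step`: for every even `d` there is an odd `n₀` such that `n₀` and `n₀ + d` both have a
   path of type `(3,5)`: this depends on `n₀, n₀+d` modulo 64 (`reach_per 3 5`); of the 32 odd
   residues modulo 64, exactly 16 have such a path and every even residue is a difference of two of
   them (checked by computer). Let `M, M'` be the ends; `|M - 27/32 n₀| ≤ 19/8` and the same for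
   `M'` (`path_err`), so `|M'-M| ≤ 27/32 |d| + 19/4`, which is `< |d|` for `|d| ≥ 32`.
-/

namespace Beanstalk

private theorem p3 (n a b c : ℤ) (u v w : ℕ) (h : (decide (u % 2 = 1) && decide (v % 2 = 1) &&
    decide (w % 2 = 1) && decide (n % 2 = 1) && decide (a % 2 = 1) && decide (b % 2 = 1) &&
    decide (c % 2 = 1) && decide (w + v + u = 5) &&
    (decide (3 * n + 1 = 2 ^ u * a) || decide (3 * n - 1 = 2 ^ u * a)) &&
    (decide (3 * a + 1 = 2 ^ v * b) || decide (3 * a - 1 = 2 ^ v * b)) &&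
    (decide (3 * b + 1 = 2 ^ w * c) || decide (3 * b - 1 = 2 ^ w * c))) = true) :
    ∃ N, Path 3 5 n N := by
  simp only [Bool.and_eq_true, Bool.or_eq_true, decide_eq_true_eq] at h
  obtain ⟨⟨⟨⟨⟨⟨⟨⟨⟨⟨h1, h2⟩, h3⟩, h4⟩, h5⟩, h6⟩, h7⟩, h8⟩, h9⟩, h10⟩, h11⟩ := h
  refine ⟨c, ?_⟩
  have s1 : Step u n a := ⟨Nat.odd_iff.2 h1, Int.odd_iff.2 h4, Int.odd_iff.2 h5, h9⟩
  have s2 : Step v a b := ⟨Nat.odd_iff.2 h2, Int.odd_iff.2 h5, Int.odd_iff.2 h6, h10⟩
  have s3 : Step w b c := ⟨Nat.odd_iff.2 h3, Int.odd_iff.2 h6, Int.odd_iff.2 h7, h11⟩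
  have := Path.cons s1 (Path.cons s2 (Path.cons s3 (Path.refl c (Int.odd_iff.2 h7))))
  have e : 0 + w + v + u = 5 := by omega
  rw [e] at this
  exact this

private theorem q3 : ∃ N, Path 3 5 3 N := p3 3 1 1 1 3 1 1 (by decide)

private theorem q9 : ∃ N, Path 3 5 9 N := p3 9 13 19 7 1 1 3 (by decide)

private theorem q13 : ∃ N, Path 3 5 13 N := p3 13 19 29 11 1 1 3 (by decide)

private theorem q15 : ∃ N, Path 3 5 15 N := p3 15 23 35 13 1 1 3 (by decide)

private theorem q19 : ∃ N, Path 3 5 19 N := p3 19 29 11 17 1 3 1 (by decide)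

private theorem q23 : ∃ N, Path 3 5 23 N := p3 23 35 13 19 1 3 1 (by decide)

private theorem q27 : ∃ N, Path 3 5 27 N := p3 27 41 61 23 1 1 3 (by decide)

private theorem q29 : ∃ N, Path 3 5 29 N := p3 29 11 17 25 3 1 1 (by decide)

private theorem q35 : ∃ N, Path 3 5 35 N := p3 35 13 19 29 3 1 1 (by decide)

private theorem q37 : ∃ N, Path 3 5 37 N := p3 37 55 83 31 1 1 3 (by decide)

private theorem q41 : ∃ N, Path 3 5 41 N := p3 41 61 23 35 1 3 1 (by decide)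

private theorem q45 : ∃ N, Path 3 5 45 N := p3 45 67 25 37 1 3 1 (by decide)

private theorem q49 : ∃ N, Path 3 5 49 N := p3 49 73 109 41 1 1 3 (by decide)

private theorem q51 : ∃ N, Path 3 5 51 N := p3 51 77 115 43 1 1 3 (by decide)

private theorem q55 : ∃ N, Path 3 5 55 N := p3 55 83 125 47 1 1 3 (by decide)

private theorem q61 : ∃ N, Path 3 5 61 N := p3 61 23 35 53 3 1 1 (by decide)

private theorem comb (d a b j : ℤ) (ha : ∃ N, Path 3 5 a N) (hb : ∃ N, Path 3 5 b N)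
    (h : a + d = b + 64 * j) : ∃ n₀ M M' : ℤ, Path 3 5 n₀ M ∧ Path 3 5 (n₀ + d) M' := by
  obtain ⟨M, hM⟩ := ha
  obtain ⟨M', hM'⟩ := hb
  have h3 := path_shift hM' j
  have e : b + 2 ^ (5 + 1) * j = a + d := by rw [h]; norm_num
  rw [e] at h3
  exact ⟨a, M, _, hM, h3⟩

theorem pair_step (d : ℤ) (hd : Even d) :
    ∃ n₀ M M' : ℤ, Path 3 5 n₀ M ∧ Path 3 5 (n₀ + d) M' := by
  obtain ⟨e, he⟩ := hd
  obtain ⟨r, j, hr0, hr1, hj⟩ : ∃ r j : ℤ, 0 ≤ r ∧ r < 32 ∧ e = r + 32 * j :=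
    ⟨e % 32, e / 32, Int.emod_nonneg _ (by norm_num), Int.emod_lt_of_pos _ (by norm_num),
      by omega⟩
  have hd : d = 2 * r + 64 * j := by omega
  clear hj he
  interval_cases r
  · exact comb d 3 3 (j + (0)) q3 q3 (by rw [hd]; ring)
  · exact comb d 13 15 (j + (0)) q13 q15 (by rw [hd]; ring)
  · exact comb d 9 13 (j + (0)) q9 q13 (by rw [hd]; ring)
  · exact comb d 3 9 (j + (0)) q3 q9 (by rw [hd]; ring)
  · exact comb d 15 23 (j + (0)) q15 q23 (by rw [hd]; ring)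
  · exact comb d 3 13 (j + (0)) q3 q13 (by rw [hd]; ring)
  · exact comb d 3 15 (j + (0)) q3 q15 (by rw [hd]; ring)
  · exact comb d 9 23 (j + (0)) q9 q23 (by rw [hd]; ring)
  · exact comb d 3 19 (j + (0)) q3 q19 (by rw [hd]; ring)
  · exact comb d 9 27 (j + (0)) q9 q27 (by rw [hd]; ring)
  · exact comb d 3 23 (j + (0)) q3 q23 (by rw [hd]; ring)
  · exact comb d 13 35 (j + (0)) q13 q35 (by rw [hd]; ring)
  · exact comb d 3 27 (j + (0)) q3 q27 (by rw [hd]; ring)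
  · exact comb d 3 29 (j + (0)) q3 q29 (by rw [hd]; ring)
  · exact comb d 9 37 (j + (0)) q9 q37 (by rw [hd]; ring)
  · exact comb d 15 45 (j + (0)) q15 q45 (by rw [hd]; ring)
  · exact comb d 3 35 (j + (0)) q3 q35 (by rw [hd]; ring)
  · exact comb d 3 37 (j + (0)) q3 q37 (by rw [hd]; ring)
  · exact comb d 9 45 (j + (0)) q9 q45 (by rw [hd]; ring)
  · exact comb d 3 41 (j + (0)) q3 q41 (by rw [hd]; ring)
  · exact comb d 9 49 (j + (0)) q9 q49 (by rw [hd]; ring)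
  · exact comb d 3 45 (j + (0)) q3 q45 (by rw [hd]; ring)
  · exact comb d 23 3 (j + (1)) q23 q3 (by rw [hd]; ring)
  · exact comb d 3 49 (j + (0)) q3 q49 (by rw [hd]; ring)
  · exact comb d 3 51 (j + (0)) q3 q51 (by rw [hd]; ring)
  · exact comb d 23 9 (j + (1)) q23 q9 (by rw [hd]; ring)
  · exact comb d 3 55 (j + (0)) q3 q55 (by rw [hd]; ring)
  · exact comb d 13 3 (j + (1)) q13 q3 (by rw [hd]; ring)
  · exact comb d 23 15 (j + (1)) q23 q15 (by rw [hd]; ring)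
  · exact comb d 3 61 (j + (0)) q3 q61 (by rw [hd]; ring)
  · exact comb d 13 9 (j + (1)) q13 q9 (by rw [hd]; ring)
  · exact comb d 15 13 (j + (1)) q15 q13 (by rw [hd]; ring)

/-- the error estimate for the difference of the ends -/
theorem pair_diff {n₀ d M M' : ℤ} (h1 : Path 3 5 n₀ M) (h2 : Path 3 5 (n₀ + d) M')
    (hd : 32 ≤ |d|) : |M' - M| < |d| ∧ Even (M' - M) := by
  constructor
  · have e1 := path_err h1
    have e2 := path_err h2
    norm_num at e1 e2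
    have hd' : (32 : ℝ) ≤ |(d : ℝ)| := by exact_mod_cast hd
    have h3 : |((M' - M : ℤ) : ℝ)| < |((d : ℤ) : ℝ)| := by
      push_cast
      have h4 : ((M' : ℝ) - M) = ((M' : ℝ) - 27 / 32 * (n₀ + d)) - ((M : ℝ) - 27 / 32 * n₀) +
          27 / 32 * d := by ring
      rw [h4]
      calc |((M' : ℝ) - 27 / 32 * (n₀ + d)) - ((M : ℝ) - 27 / 32 * n₀) + 27 / 32 * d|
          ≤ |((M' : ℝ) - 27 / 32 * (n₀ + d)) - ((M : ℝ) - 27 / 32 * n₀)| + |27 / 32 * (d : ℝ)| :=
            abs_add_le _ _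
        _ ≤ |(M' : ℝ) - 27 / 32 * (n₀ + d)| + |(M : ℝ) - 27 / 32 * n₀| + |27 / 32 * (d : ℝ)| := by
            gcongr
            exact abs_sub _ _
        _ ≤ 19 / 8 + 19 / 8 + 27 / 32 * |(d : ℝ)| := by
            rw [abs_mul, abs_of_pos (by norm_num : (0 : ℝ) < 27 / 32)]
            gcongr
        _ < |(d : ℝ)| := by linarith
    exact_mod_cast h3
  · have o1 := (path_odd h1).2
    have o2 := (path_odd h2).2
    exact o2.sub_odd o1

end Beanstalk
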