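import Pool.Agent.Work.MP_8093a3_co.PairSmall
import Pool.Agent.Work.MP_8093a3_co.PairStep

/-!
# Module Pair: two odd numbers with any even difference can be merged

3. `pair_comp`: `Path k V n₀ M`, `Path k V (n₀+d) (M+d')`, `Pair d'` imply `Pair d`: let
   `(k',V',n')` witness `Pair d'`. Choose `j` with `M + 2·3^k j ≡ n' (mod 2^{V'+1})` (`n'-M` is
   even, `3^k` is invertible modulo `2^{V'}`). Shift (`path_shift`) both first paths by
   `2^{V+1}j`: ends `M+2·3^kj = n' + 2^{V'+1}i` and the same `+ d'`; shift the second pair of paths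
   by `2^{V'+1}i` and compose.
4. Strong induction on `|d|`.
-/

namespace Beanstalk

/-- a power of 3 is invertible modulo a power of 2 -/
private theorem inv3 (k V : ℕ) : ∃ c i : ℤ, 3 ^ k * c = 1 + 2 ^ V * i := by
  have h : IsCoprime ((3 : ℤ) ^ k) (2 ^ V) :=
    IsCoprime.pow (by rw [Int.isCoprime_iff_gcd_eq_one]; decide)
  obtain ⟨a, b, hab⟩ := h
  exact ⟨a, -b, by linear_combination hab⟩

theorem pair_comp {k V : ℕ} {n₀ d M d' : ℤ} (h1 : Path k V n₀ M) (h2 : Path k V (n₀ + d) (M + d'))
    (h : Pair d') : Pair d := by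
  obtain ⟨k', V', n', N, h3, h4⟩ := h
  obtain ⟨r, hr⟩ := (path_odd h1).2
  obtain ⟨s, hs⟩ := (path_odd h3).1
  obtain ⟨c, i, hc⟩ := inv3 k V'
  -- M + 2 3^k j = n' + 2^(V'+1) i'
  set j : ℤ := c * (s - r) with hj
  have e1 : M + 2 * 3 ^ k * j = n' + 2 ^ (V' + 1) * (i * (s - r)) := by
    rw [hr, hs, hj]
    linear_combination 2 * (s - r) * hc
  have g1 := path_shift h1 j
  have g2 := path_shift h2 j
  have g3 := path_shift h3 (i * (s - r))
  have g4 := path_shift h4 (i * (s - r))
  rw [e1] at g1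
  have e2 : M + d' + 2 * 3 ^ k * j = n' + d' + 2 ^ (V' + 1) * (i * (s - r)) := by
    linear_combination e1
  rw [e2] at g2
  refine ⟨k + k', V + V', n₀ + 2 ^ (V + 1) * j, _, path_trans g1 g3, ?_⟩
  have e3 : n₀ + 2 ^ (V + 1) * j + d = n₀ + d + 2 ^ (V + 1) * j := by ring
  rw [e3]
  exact path_trans g2 g4

theorem pair_all (d : ℤ) (hd : Even d) : Pair d := by
  induction hn : d.natAbs using Nat.strong_induction_on generalizing d with
  | _ n ih =>
    by_cases h : |d| < 32
    · exact pair_small d hd h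
    · push Not at h
      obtain ⟨n₀, M, M', h1, h2⟩ := pair_step d hd
      obtain ⟨h3, h4⟩ := pair_diff h1 h2 h
      have h5 : (M' - M).natAbs < n := by
        rw [← hn]
        have e1 := Int.natCast_natAbs (M' - M)
        have e2 := Int.natCast_natAbs d
        omega
      have h6 := ih _ h5 (M' - M) h4 rfl
      have e : M + (M' - M) = M' := by ring
      refine pair_comp (d' := M' - M) h1 ?_ h6
      rw [e]
      exact h2

end Beanstalk
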