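import Pool.Agent.Work.MP_8093a3_co.LatRec
import Pool.Agent.Work.MP_8093a3_co.Pair

/-!
# Module Merge: every finite set of odd numbers can be merged after a suitable even shift

`Mergeable S`: there are `k, V, N` and an even `c` with `Path k V (s+c) N` for all `s ∈ S`.
Induction on `S.card`; `card ≤ 1` trivial (type `(0,0)`, `c = 0`).
Let `s₁ ≠ s₂` be in `S`. `pair_all (s₂ - s₁)`: `Path k₀ V₀ n N₀'`, `Path k₀ V₀ (n + s₂ - s₁) N₀'`,
`n` odd; put `c₀ = n - s₁` (even). So `Path k₀ V₀ (s₁+c₀) N₀`, `Path k₀ V₀ (s₂+c₀) N₀`.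
For the other `s`: `Path V₀ V₀ (s+c₀) A_s` (`exists_pathA`). For all `j` (`path_shift`), with
`c = c₀ + 2^{V₀+1}j`: `s₁+c, s₂+c` go to `N₀+2·3^{k₀}j` (type `(k₀,V₀)`), `s+c` goes to
`A_s + 2·3^{V₀}j` (type `(V₀,V₀)`).
Let `M` be large, `L = 5M - V₀`. For `j ∈ [0,2^L)`: number of `j` with
`¬ Reach (3M-V₀) (5M-V₀) (A_s+2·3^{V₀}j)` is at most `cnt (L+1) (bad0 (3M-V₀) (5M-V₀)) ≤
3 γ^M β^{-(3M-V₀)} 2^L` (`cnt_le_of_rel`: `j ↦ A_s+2·3^{V₀}j` is injective from residues modulo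
`2^L` to residues modulo `2^{L+1}`; `lattice_bound` with `k = 3M-V₀`, `d = M`), and number of `j`
with `¬ Reach (3M-k₀) (5M-V₀) (N₀+2·3^{k₀}j)` is at most `3 γ^d β^{-(3M-k₀)} 2^L` with
`d = M - (V₀-k₀)/2` (`V₀ - k₀` is even: each exponent is odd; prove it as a lemma on paths).
Since `γ β^{-3} < 1` (`γ = 1073/1000`, `β = 41/40`), for `M` large the sum of these `< |S|`
bounds is `< 2^L`, so some `j` is good for all. Choose the ends: all `s + c`, `s ∈ S`, have paths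
of type `(3M,5M)` to odd numbers `x_s`, with `x_{s₁} = x_{s₂}`. `S' = {x_s}` has fewer elements; by
induction `Path k' V' (x+c') N'` for `x ∈ S'`, `c'` even. Choose `j'` with
`2·3^{3M} j' ≡ c' (mod 2^{V'+1})`, `2·3^{3M}j' = c' + 2^{V'+1} i`. Shift: `s + c + 2^{5M+1}j'` goes
(type `(3M,5M)`) to `x_s + 2·3^{3M}j' = (x_s+c') + 2^{V'+1}i`, which goes to `N' + 2·3^{k'} i`.
-/

namespace Beanstalk

def Mergeable (S : Finset ℤ) : Prop :=
  ∃ (k V : ℕ) (c N : ℤ), Even c ∧ ∀ s ∈ S, Path k V (s + c) N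

private theorem inv3' (k V : ℕ) : ∃ c i : ℤ, 3 ^ k * c = 1 + 2 ^ V * i := by
  have h : IsCoprime ((3 : ℤ) ^ k) (2 ^ V) :=
    IsCoprime.pow (by rw [Int.isCoprime_iff_gcd_eq_one]; decide)
  obtain ⟨a, b, hab⟩ := h
  exact ⟨a, -b, by linear_combination hab⟩

private theorem path_par {k V : ℕ} {n N : ℤ} (h : Path k V n N) : ∃ r, V = k + 2 * r := by
  induction h with
  | refl n hn => exact ⟨0, rfl⟩
  | cons hs _ ih =>
    obtain ⟨r, hr⟩ := ih
    obtain ⟨v', hv'⟩ := hs.1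
    exact ⟨r + v', by omega⟩

private theorem cnt_aff (k L e : ℕ) (A : ℤ) (hA : Odd A) :
    cnt L (fun j => ¬ Reach k L (A + 2 * 3 ^ e * j)) ≤ cnt (L + 1) (bad0 k L) := by
  refine cnt_le_of_rel L (L + 1) _ _ (fun n X => X = A + 2 * 3 ^ e * n) (bad0_per k L) ?_ ?_
  · intro n hn
    refine ⟨_, ⟨?_, hn⟩, rfl⟩
    obtain ⟨r, hr⟩ := hA
    exact ⟨r + 3 ^ e * n, by rw [hr]; ring⟩
  · rintro n n' X X' - - rfl rfl hdvd
    have e1 : A + 2 * 3 ^ e * n - (A + 2 * 3 ^ e * n') = 2 * (3 ^ e * (n - n')) := by ring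
    rw [e1, pow_succ', mul_dvd_mul_iff_left (by norm_num)] at hdvd
    have hc : IsCoprime ((2 : ℤ) ^ L) (3 ^ e) :=
      IsCoprime.pow (by rw [Int.isCoprime_iff_gcd_eq_one]; decide)
    exact hc.dvd_of_dvd_mul_left hdvd

private theorem exists_M (c : ℝ) (hc : 0 ≤ c) (V₀ : ℕ) : ∃ M : ℕ, V₀ ≤ M ∧
    c * (3 * (1073 / 1000) ^ M * (40 / 41) ^ (3 * M - V₀)) < 1 := by
  have hρ : (1073 / 1000 : ℝ) * (40 / 41) ^ 3 < 1 := by norm_num
  have hρ0 : (0 : ℝ) ≤ (1073 / 1000 : ℝ) * (40 / 41) ^ 3 := by norm_num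
  obtain ⟨M0, hM0⟩ := exists_pow_lt_of_lt_one
    (show (0 : ℝ) < 1 / ((c + 1) * (3 * (41 / 40) ^ V₀)) by positivity) hρ
  refine ⟨max M0 V₀, le_max_right _ _, ?_⟩
  set M := max M0 V₀ with hM
  have h1 : ((1073 / 1000 : ℝ) * (40 / 41) ^ 3) ^ M ≤ ((1073 / 1000 : ℝ) * (40 / 41) ^ 3) ^ M0 :=
    pow_le_pow_of_le_one hρ0 hρ.le (le_max_left _ _)
  have h2 : (40 / 41 : ℝ) ^ (3 * M - V₀) = (41 / 40) ^ V₀ * ((40 / 41) ^ 3) ^ M := by
    have hVM : V₀ ≤ M := le_max_right _ _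
    have h3 : ((40 / 41 : ℝ) ^ 3) ^ M = (40 / 41) ^ (3 * M - V₀) * (40 / 41) ^ V₀ := by
      rw [← pow_mul, ← pow_add]
      congr 1
      omega
    rw [h3]
    have h4 : (41 / 40 : ℝ) ^ V₀ * (40 / 41) ^ V₀ = 1 := by
      rw [← mul_pow]; norm_num
    linear_combination -(40 / 41 : ℝ) ^ (3 * M - V₀) * h4
  have h5 : c * (3 * (1073 / 1000) ^ M * (40 / 41) ^ (3 * M - V₀)) =
      (c * (3 * (41 / 40) ^ V₀)) * ((1073 / 1000 : ℝ) * (40 / 41) ^ 3) ^ M := by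
    rw [h2, mul_pow]; ring
  rw [h5]
  have h6 : ((1073 / 1000 : ℝ) * (40 / 41) ^ 3) ^ M < 1 / ((c + 1) * (3 * (41 / 40) ^ V₀)) :=
    lt_of_le_of_lt h1 hM0
  have h7 : (0 : ℝ) < 3 * (41 / 40) ^ V₀ := by positivity
  calc (c * (3 * (41 / 40) ^ V₀)) * ((1073 / 1000 : ℝ) * (40 / 41) ^ 3) ^ M
      ≤ ((c + 1) * (3 * (41 / 40) ^ V₀)) * ((1073 / 1000 : ℝ) * (40 / 41) ^ 3) ^ M := by
        gcongr
        linarith
    _ < ((c + 1) * (3 * (41 / 40) ^ V₀)) * (1 / ((c + 1) * (3 * (41 / 40) ^ V₀))) := by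
        apply mul_lt_mul_of_pos_left h6
        positivity
    _ = 1 := by
        have : (c + 1) * (3 * (41 / 40) ^ V₀) ≠ 0 := by positivity
        field_simp

open Classical in
private theorem exists_good (S : Finset ℤ) (L : ℕ) (P : ℤ → ℤ → Prop) (ε : ℝ)
    (h : ∀ s ∈ S, (cnt L (fun j => ¬ P s j) : ℝ) ≤ ε * 2 ^ L) (hε : S.card * ε < 1) :
    ∃ j : ℤ, ∀ s ∈ S, P s j := by
  by_contra hno
  push Not at hno
  have h1 : (Finset.range (2 ^ L)) ⊆
      S.biUnion (fun s => (Finset.range (2 ^ L)).filter (fun n : ℕ => ¬ P s (n : ℤ))) := by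
    intro n hn
    obtain ⟨s, hs, hps⟩ := hno (n : ℤ)
    rw [Finset.mem_biUnion]
    exact ⟨s, hs, Finset.mem_filter.2 ⟨hn, hps⟩⟩
  have h2 : 2 ^ L ≤ ∑ s ∈ S, cnt L (fun j => ¬ P s j) := by
    have := (Finset.card_le_card h1).trans Finset.card_biUnion_le
    rw [Finset.card_range] at this
    refine this.trans (Finset.sum_le_sum fun s _ => ?_)
    unfold cnt
    exact le_of_eq (by congr)
  have h3 : (2 ^ L : ℝ) ≤ ∑ s ∈ S, (cnt L (fun j => ¬ P s j) : ℝ) := by exact_mod_cast h2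
  have h4 : ∑ s ∈ S, (cnt L (fun j => ¬ P s j) : ℝ) ≤ S.card * (ε * 2 ^ L) := by
    refine (Finset.sum_le_sum h).trans ?_
    rw [Finset.sum_const, nsmul_eq_mul]
  have h5 : (0 : ℝ) < 2 ^ L := by positivity
  nlinarith

private theorem step_merge (S : Finset ℤ) (hS : ∀ s ∈ S, Odd s) (s₁ s₂ : ℤ) (h1 : s₁ ∈ S)
    (h2 : s₂ ∈ S) : ∃ (k V : ℕ) (c : ℤ) (f : ℤ → ℤ), Even c ∧
      (∀ s ∈ S, Path k V (s + c) (f s)) ∧ f s₁ = f s₂ := by
  have hd : Even (s₂ - s₁) := (hS s₂ h2).sub_odd (hS s₁ h1)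
  obtain ⟨k₀, V₀, n, N₀, p1, p2⟩ := pair_all _ hd
  set c₀ : ℤ := n - s₁ with hc₀
  have hc₀e : Even c₀ := ((path_odd p1).1).sub_odd (hS s₁ h1)
  have hk₀ := path_le p1
  obtain ⟨r₀, hr₀⟩ := path_par p1
  -- types and ends
  have hex : ∀ s : ℤ, ∃ (κ : ℕ) (A : ℤ), s ∈ S → ((s = s₁ ∨ s = s₂ → κ = k₀ ∧ A = N₀) ∧
      Path κ V₀ (s + c₀) A) := by
    intro s
    by_cases hs : s ∈ S
    · by_cases h12 : s = s₁ ∨ s = s₂
      · refine ⟨k₀, N₀, fun _ => ⟨fun _ => ⟨rfl, rfl⟩, ?_⟩⟩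
        rcases h12 with rfl | rfl
        · have e : s + c₀ = n := by rw [hc₀]; ring
          rw [e]; exact p1
        · have e : s + c₀ = n + (s - s₁) := by rw [hc₀]; ring
          rw [e]; exact p2
      · have hodd : Odd (s + c₀) := (hS s hs).add_even hc₀e
        obtain ⟨A, hA⟩ := exists_pathA V₀ hodd
        exact ⟨V₀, A, fun _ => ⟨fun h => absurd h h12, hA⟩⟩
    · exact ⟨0, 0, fun h => absurd h hs⟩
  choose κ A hκA using hex
  obtain ⟨M, hVM, hM⟩ := exists_M S.card (Nat.cast_nonneg _) V₀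
  set ε : ℝ := 3 * (1073 / 1000) ^ M * (40 / 41) ^ (3 * M - V₀) with hε
  obtain ⟨L, hL⟩ : ∃ L, L = 5 * M - V₀ := ⟨_, rfl⟩
  have hgood := exists_good S L (fun s j => Reach (3 * M - κ s) L (A s + 2 * 3 ^ (κ s) * j)) ε
    (by
      intro s hs
      obtain ⟨-, hp⟩ := hκA s hs
      have hle := path_le hp
      obtain ⟨r, hr⟩ := path_par hp
      have hLeq : L = (3 * M - κ s) + 2 * (M - r) := by omega
      have b1 := cnt_aff (3 * M - κ s) L (κ s) (A s) (path_odd hp).2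
      have b2 := lattice_bound (3 * M - κ s) (M - r)
      rw [← hLeq] at b2
      have b3 : (cnt L (fun j => ¬ Reach (3 * M - κ s) L (A s + 2 * 3 ^ (κ s) * j)) : ℝ) ≤
          (cnt (L + 1) (bad0 (3 * M - κ s) L) : ℝ) := by exact_mod_cast b1
      refine (b3.trans b2).trans ?_
      rw [hε]
      have e1 : (1073 / 1000 : ℝ) ^ (M - r) ≤ (1073 / 1000) ^ M :=
        pow_le_pow_right₀ (by norm_num) (by omega)
      have e2 : (40 / 41 : ℝ) ^ (3 * M - κ s) ≤ (40 / 41) ^ (3 * M - V₀) :=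
        pow_le_pow_of_le_one (by norm_num) (by norm_num) (by omega)
      gcongr)
    hM
  obtain ⟨j, hj⟩ := hgood
  have hG : ∀ (κ' : ℕ) (A' : ℤ), ∃ x, Reach (3 * M - κ') L (A' + 2 * 3 ^ κ' * j) →
      Path (3 * M - κ') L (A' + 2 * 3 ^ κ' * j) x := by
    intro κ' A'
    by_cases h : Reach (3 * M - κ') L (A' + 2 * 3 ^ κ' * j)
    · obtain ⟨x, hx⟩ := h
      exact ⟨x, fun _ => hx⟩
    · exact ⟨0, fun h' => absurd h' h⟩
  choose G hG using hG
  refine ⟨3 * M, 5 * M, c₀ + 2 ^ (V₀ + 1) * j, fun s => G (κ s) (A s), ?_, ?_, ?_⟩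
  · obtain ⟨r, hr⟩ := hc₀e
    exact ⟨r + 2 ^ V₀ * j, by rw [hr]; ring⟩
  · intro s hs
    obtain ⟨-, hp⟩ := hκA s hs
    have hle := path_le hp
    have g1 := path_shift hp j
    have g2 := hG _ _ (hj s hs)
    have g3 := path_trans g1 g2
    have e1 : κ s + (3 * M - κ s) = 3 * M := by omega
    have e2 : V₀ + L = 5 * M := by omega
    have e3 : s + c₀ + 2 ^ (V₀ + 1) * j = s + (c₀ + 2 ^ (V₀ + 1) * j) := by ring
    rw [e1, e2, e3] at g3
    exact g3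
  · have a1 := (hκA s₁ h1).1 (Or.inl rfl)
    have a2 := (hκA s₂ h2).1 (Or.inr rfl)
    simp only [a1.1, a1.2, a2.1, a2.2]

theorem merge_all (S : Finset ℤ) (hS : ∀ s ∈ S, Odd s) : Mergeable S := by
  classical
  induction hn : S.card using Nat.strong_induction_on generalizing S with
  | _ n ih =>
    by_cases h1 : S.card ≤ 1
    · rcases Finset.card_le_one_iff_subset_singleton.1 h1 with ⟨x, hx⟩
      by_cases hxS : x ∈ S
      · refine ⟨0, 0, 0, x, by decide, fun s hs => ?_⟩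
        have := Finset.mem_singleton.1 (hx hs)
        subst this
        rw [add_zero]
        exact Path.refl _ (hS _ hs)
      · refine ⟨0, 0, 0, x, by decide, fun s hs => ?_⟩
        have := Finset.mem_singleton.1 (hx hs)
        subst this
        exact absurd hs hxS
    · push Not at h1
      obtain ⟨s₁, h1', s₂, h2', hne⟩ := Finset.one_lt_card.1 h1
      obtain ⟨k, V, c, f, hc, hp, hf⟩ := step_merge S hS s₁ s₂ h1' h2'
      have hcard : (S.image f).card < n := by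
        rw [← hn]
        refine lt_of_le_of_ne Finset.card_image_le fun heq => hne ?_
        exact (Finset.card_image_iff.1 heq) h1' h2' hf
      obtain ⟨k', V', c', N', hc', hp'⟩ := ih _ hcard (S.image f) (by
        intro x hx
        obtain ⟨s, hs, rfl⟩ := Finset.mem_image.1 hx
        exact (path_odd (hp s hs)).2) rfl
      obtain ⟨c'', hc''⟩ := hc'
      obtain ⟨a, i, hai⟩ := inv3' k V'
      refine ⟨k + k', V + V', c + 2 ^ (V + 1) * (a * c''), N' + 2 * 3 ^ k' * (i * c''), ?_, ?_⟩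
      · obtain ⟨r, hr⟩ := hc
        exact ⟨r + 2 ^ V * (a * c''), by rw [hr]; ring⟩
      · intro s hs
        have g1 := path_shift (hp s hs) (a * c'')
        have g2 := path_shift (hp' (f s) (Finset.mem_image_of_mem f hs)) (i * c'')
        have e1 : f s + 2 * 3 ^ k * (a * c'') = f s + c' + 2 ^ (V' + 1) * (i * c'') := by
          rw [hc'']
          linear_combination 2 * c'' * hai
        rw [e1] at g1
        have g3 := path_trans g1 g2
        have e2 : s + c + 2 ^ (V + 1) * (a * c'') = s + (c + 2 ^ (V + 1) * (a * c'')) := by ring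
        rw [e2] at g3
        exact g3

end Beanstalk
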