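import Pool.Agent.Work.MP_8093a3_co.PathE

/-!
# Module PairSmall: merging two odd numbers with a small difference

1. `pair_small`: `d = 2, 4, …, 30` explicitly (numbers are visited numbers; exponent `v` of each
   step in brackets):
   * 2:  3→5(1)→7(1)→11(1)→1(5) and 5→7(1)→11(1)→1(5)→1(1): type (4,8)
   * 4:  3→5(1)→7(1)→11(1)→1(5) and 7→11(1)→1(5)→1(1)→1(1): (4,8)
   * 6:  5→7(1)→11(1)→1(5) and 11→1(5)→1(1)→1(1): (3,7)
   * 8:  3→5→7→11→1(5) and 11→1(5)→1→1→1: (4,8)
   * 10: 9→13(1)→19(1)→7(3)→11(1)→1(5) and 19→7(3)→11(1)→1(5)→1(1)→1(1): (5,11)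
   * 12: 199→299(1)→7(7)→11(1)→17(1)→25(1) and 211→79(3)→119(1)→179(1)→67(3)→25(3): (5,11)
   * 14: 29→43(1)→1(7) and 43→1(7)→1(1): (2,8)
   * 16: 13→19(1)→7(3)→11(1)→1(5) and 29→43(1)→1(7)→1(1)→1(1): (4,10)
   * 18: 299→7(7)→11(1)→17(1)→25(1) and 317→119(3)→179(1)→67(3)→25(3): (4,10)
   * 20: 9→13(1)→19(1)→7(3)→11(1)→1(5) and 29→43(1)→1(7)→1→1→1: (5,11)
   * 22: 53→5(5)→7(1)→11(1)→1(5) and 75→7(5)→11(1)→1(5)→1(1): (4,12)
   * 24: 19→7(3)→11(1)→1(5) and 43→1(7)→1(1)→1(1): (3,9)
   * 26: 51→19(3)→7(3)→11(1)→1(5) and 77→115(1)→43(3)→1(7)→1(1): (4,12)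
   * 28: 541→811(1)→19(7)→7(3) and 569→853(1)→5(9)→7(1): (3,11)
   * 30: 13→19(1)→7(3)→11(1)→1(5) and 43→1(7)→1→1→1: (4,10)
   `d = 0` trivial; `Pair d → Pair (-d)` by exchanging the roles.
-/

namespace Beanstalk

private def chk : ℤ → List (ℕ × ℤ) → Bool
  | n, [] => decide (n % 2 = 1)
  | n, (v, m) :: l => decide (v % 2 = 1) && decide (n % 2 = 1) && decide (m % 2 = 1) &&
      (decide (3 * n + 1 = 2 ^ v * m) || decide (3 * n - 1 = 2 ^ v * m)) && chk m l

private def tot : List (ℕ × ℤ) → ℕ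
  | [] => 0
  | (v, _) :: l => tot l + v

private def fin : ℤ → List (ℕ × ℤ) → ℤ
  | n, [] => n
  | _, (_, m) :: l => fin m l

private theorem path_of : ∀ (l : List (ℕ × ℤ)) (n : ℤ), chk n l = true →
    Path l.length (tot l) n (fin n l)
  | [], n, h => by
    simp only [chk, decide_eq_true_eq] at h
    exact Path.refl n (Int.odd_iff.2 h)
  | (v, m) :: l, n, h => by
    simp only [chk, Bool.and_eq_true, Bool.or_eq_true, decide_eq_true_eq] at h
    obtain ⟨⟨⟨⟨h1, h2⟩, h3⟩, h4⟩, h5⟩ := h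
    have ih := path_of l m h5
    exact Path.cons ⟨Nat.odd_iff.2 h1, Int.odd_iff.2 h2, Int.odd_iff.2 h3, h4⟩ ih

private theorem pair_of (d n : ℤ) (l l' : List (ℕ × ℤ)) (h : chk n l = true)
    (h' : chk (n + d) l' = true) (e1 : l'.length = l.length) (e2 : tot l' = tot l)
    (e3 : fin (n + d) l' = fin n l) : Pair d := by
  refine ⟨l.length, tot l, n, fin n l, path_of l n h, ?_⟩
  have := path_of l' (n + d) h'
  rw [e1, e2, e3] at this
  exact this

private theorem pair_neg {d : ℤ} (h : Pair d) : Pair (-d) := by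
  obtain ⟨k, V, n, N, h1, h2⟩ := h
  refine ⟨k, V, n + d, N, h2, ?_⟩
  have e : n + d + -d = n := by ring
  rw [e]
  exact h1

private theorem p0 : Pair 0 := ⟨0, 0, 1, 1, Path.refl 1 (by decide), Path.refl 1 (by decide)⟩

private theorem p2 : Pair 2 :=
  pair_of 2 3 [(1, 5), (1, 7), (1, 11), (5, 1)]
    [(1, 7), (1, 11), (5, 1), (1, 1)] (by decide) (by decide) (by decide) (by decide) (by decide)

private theorem p4 : Pair 4 :=
  pair_of 4 3 [(1, 5), (1, 7), (1, 11), (5, 1)]
    [(1, 11), (5, 1), (1, 1), (1, 1)] (by decide) (by decide) (by decide) (by decide) (by decide)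

private theorem p6 : Pair 6 :=
  pair_of 6 5 [(1, 7), (1, 11), (5, 1)]
    [(5, 1), (1, 1), (1, 1)] (by decide) (by decide) (by decide) (by decide) (by decide)

private theorem p8 : Pair 8 :=
  pair_of 8 3 [(1, 5), (1, 7), (1, 11), (5, 1)]
    [(5, 1), (1, 1), (1, 1), (1, 1)] (by decide) (by decide) (by decide) (by decide) (by decide)

private theorem p10 : Pair 10 :=
  pair_of 10 9 [(1, 13), (1, 19), (3, 7), (1, 11), (5, 1)]
    [(3, 7), (1, 11), (5, 1), (1, 1), (1, 1)] (by decide) (by decide) (by decide) (by decide) (by decide)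

private theorem p12 : Pair 12 :=
  pair_of 12 199 [(1, 299), (7, 7), (1, 11), (1, 17), (1, 25)]
    [(3, 79), (1, 119), (1, 179), (3, 67), (3, 25)] (by decide) (by decide) (by decide) (by decide) (by decide)

private theorem p14 : Pair 14 :=
  pair_of 14 29 [(1, 43), (7, 1)]
    [(7, 1), (1, 1)] (by decide) (by decide) (by decide) (by decide) (by decide)

private theorem p16 : Pair 16 :=
  pair_of 16 13 [(1, 19), (3, 7), (1, 11), (5, 1)]
    [(1, 43), (7, 1), (1, 1), (1, 1)] (by decide) (by decide) (by decide) (by decide) (by decide)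

private theorem p18 : Pair 18 :=
  pair_of 18 299 [(7, 7), (1, 11), (1, 17), (1, 25)]
    [(3, 119), (1, 179), (3, 67), (3, 25)] (by decide) (by decide) (by decide) (by decide) (by decide)

private theorem p20 : Pair 20 :=
  pair_of 20 9 [(1, 13), (1, 19), (3, 7), (1, 11), (5, 1)]
    [(1, 43), (7, 1), (1, 1), (1, 1), (1, 1)] (by decide) (by decide) (by decide) (by decide) (by decide)

private theorem p22 : Pair 22 :=
  pair_of 22 53 [(5, 5), (1, 7), (1, 11), (5, 1)]
    [(5, 7), (1, 11), (5, 1), (1, 1)] (by decide) (by decide) (by decide) (by decide) (by decide)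

private theorem p24 : Pair 24 :=
  pair_of 24 19 [(3, 7), (1, 11), (5, 1)]
    [(7, 1), (1, 1), (1, 1)] (by decide) (by decide) (by decide) (by decide) (by decide)

private theorem p26 : Pair 26 :=
  pair_of 26 51 [(3, 19), (3, 7), (1, 11), (5, 1)]
    [(1, 115), (3, 43), (7, 1), (1, 1)] (by decide) (by decide) (by decide) (by decide) (by decide)

private theorem p28 : Pair 28 :=
  pair_of 28 541 [(1, 811), (7, 19), (3, 7)]
    [(1, 853), (9, 5), (1, 7)] (by decide) (by decide) (by decide) (by decide) (by decide)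

private theorem p30 : Pair 30 :=
  pair_of 30 13 [(1, 19), (3, 7), (1, 11), (5, 1)]
    [(7, 1), (1, 1), (1, 1), (1, 1)] (by decide) (by decide) (by decide) (by decide) (by decide)

theorem pair_small (d : ℤ) (hd : Even d) (h : |d| < 32) : Pair d := by
  have hpos : ∀ d : ℤ, Even d → 0 ≤ d → d < 32 → Pair d := by
    intro d hd h0 h1
    obtain ⟨r, hr⟩ := hd
    have hr0 : 0 ≤ r := by omega
    have hr1 : r < 16 := by omega
    subst hr
    clear h0 h1
    interval_cases r
    · exact p0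
    · exact p2
    · exact p4
    · exact p6
    · exact p8
    · exact p10
    · exact p12
    · exact p14
    · exact p16
    · exact p18
    · exact p20
    · exact p22
    · exact p24
    · exact p26
    · exact p28
    · exact p30
  rw [abs_lt] at h
  rcases le_total 0 d with h0 | h0
  · exact hpos d hd h0 h.2
  · have := pair_neg (hpos (-d) (by simpa using hd) (by omega) (by omega))
    rwa [neg_neg] at this

end Beanstalk
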