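import Pool.Agent.Work.MP_8093a3_co.ParamIdx

/-!
# Module ParamB

`(1073/1000)(40/41)^3 < 0.9964 < 1`, and `pw m ≤ 2^{320(s+1)^4+2}`, `s = Nat.log 2 m ≤ log₂ m`, is
subexponential in `m` (`(log m)^4 = o(m)`).
-/

namespace Beanstalk

set_option exponentiation.threshold 400

/-- `pw` is bounded by `2^(s^5)` for large `s = log₂ m`, with room for a constant. -/
theorem pw_le_two_pow (K : ℝ) : ∃ S : ℕ, ∀ m : ℕ, S ≤ Nat.log 2 m →
    K * pw m * ((Nat.log 2 m : ℝ) + 1) ^ 2 ≤ 2 ^ ((Nat.log 2 m) ^ 5) := by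
  obtain ⟨k, hk⟩ := pow_unbounded_of_one_lt |K| (by norm_num : (1 : ℝ) < 2)
  refine ⟨max k 10000, ?_⟩
  intro m hm
  set s := Nat.log 2 m with hs
  have hsk : k ≤ s := le_trans (le_max_left _ _) hm
  have hs1 : 10000 ≤ s := le_trans (le_max_right _ _) hm
  have h1 : pw m ≤ 2 ^ (320 * (s + 1) ^ 4 + 2) := by
    unfold pw
    rw [← hs]
    have h2 : (3 / 2 : ℝ) ^ (320 * (s + 1) ^ 4) ≤ 2 ^ (320 * (s + 1) ^ 4) :=
      pow_le_pow_left₀ (by norm_num) (by norm_num) _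
    have h3 : (1 : ℝ) ≤ 2 ^ (320 * (s + 1) ^ 4) := one_le_pow₀ (by norm_num)
    rw [pow_add]
    linarith
  have h4 : ((s : ℝ) + 1) ^ 2 ≤ 2 ^ (2 * s + 2) := by
    have h5 : (s : ℝ) + 1 ≤ 2 ^ (s + 1) := by
      have : s + 1 < 2 ^ (s + 1) := Nat.lt_two_pow_self
      exact_mod_cast this.le
    calc ((s : ℝ) + 1) ^ 2 ≤ (2 ^ (s + 1)) ^ 2 := pow_le_pow_left₀ (by positivity) h5 2
      _ = 2 ^ (2 * s + 2) := by rw [← pow_mul]; congr 1; ring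
  have h6 : K ≤ 2 ^ s := by
    calc K ≤ |K| := le_abs_self K
      _ ≤ 2 ^ k := hk.le
      _ ≤ 2 ^ s := pow_le_pow_right₀ (by norm_num) hsk
  have hpw0 : 0 ≤ pw m := le_trans (by norm_num) (pw_pos m)
  have h7 : K * pw m * ((s : ℝ) + 1) ^ 2 ≤ 2 ^ s * 2 ^ (320 * (s + 1) ^ 4 + 2) * 2 ^ (2 * s + 2) := by
    refine mul_le_mul ?_ h4 (by positivity) (by positivity)
    exact mul_le_mul h6 h1 hpw0 (by positivity)
  refine le_trans h7 ?_
  rw [← pow_add, ← pow_add]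
  refine pow_le_pow_right₀ (by norm_num) ?_
  -- s + 320 (s+1)^4 + 2 + 2 s + 2 ≤ s^5
  have h8 : (s + 1) ^ 4 ≤ 2 * s ^ 4 := by
    have h9 : 10000 * (s + 1) ≤ 10001 * s := by omega
    have h10 : (10000 * (s + 1)) ^ 4 ≤ (10001 * s) ^ 4 := Nat.pow_le_pow_left h9 4
    rw [mul_pow, mul_pow] at h10
    have h11 : 10001 ^ 4 * s ^ 4 ≤ (10000 ^ 4 * 2) * s ^ 4 := Nat.mul_le_mul_right _ (by norm_num)
    have h12 : 10000 ^ 4 * (s + 1) ^ 4 ≤ 10000 ^ 4 * (2 * s ^ 4) := by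
      refine le_trans h10 (le_trans h11 (le_of_eq ?_))
      ring
    exact Nat.le_of_mul_le_mul_left h12 (by norm_num)
  have h13 : s ≤ s ^ 4 := Nat.le_self_pow (by norm_num) s
  have h14 : 10000 * s ^ 4 ≤ s ^ 5 := by
    calc 10000 * s ^ 4 ≤ s * s ^ 4 := Nat.mul_le_mul_right _ hs1
      _ = s ^ 5 := by ring
  omega

/-- growth comparison -/
theorem pw_growth (K : ℝ) (N : ℕ) : ∃ M : ℕ, ∀ m ≥ M, ∃ e : ℕ, K * pw m ≤ 2 ^ e ∧ N * e ≤ m := by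
  obtain ⟨S, hS⟩ := pw_le_two_pow |K|
  refine ⟨2 ^ (max (max S N) 200), ?_⟩
  intro m hm
  have hlog : max (max S N) 200 ≤ Nat.log 2 m := Nat.le_log_of_pow_le (by norm_num) hm
  set s := Nat.log 2 m with hs
  have hsS : S ≤ s := le_trans (le_trans (le_max_left _ _) (le_max_left _ _)) hlog
  have hsN : N ≤ s := le_trans (le_trans (le_max_right _ _) (le_max_left _ _)) hlog
  have hs200 : 200 ≤ s := le_trans (le_max_right _ _) hlog
  have hm0 : m ≠ 0 := by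
    have : 1 ≤ 2 ^ (max (max S N) 200) := Nat.one_le_two_pow
    omega
  have h1 := hS m hsS
  rw [← hs] at h1
  refine ⟨s ^ 5, ?_, ?_⟩
  · refine le_trans ?_ h1
    have hpw0 : 0 ≤ pw m := le_trans (by norm_num) (pw_pos m)
    have h2 : K * pw m ≤ |K| * pw m := mul_le_mul_of_nonneg_right (le_abs_self K) hpw0
    have h3 : (1 : ℝ) ≤ ((s : ℝ) + 1) ^ 2 := one_le_pow₀ (by
      have : (0 : ℝ) ≤ s := by positivity
      linarith)
    have h4 : 0 ≤ |K| * pw m := mul_nonneg (abs_nonneg K) hpw0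
    nlinarith
  · calc N * s ^ 5 ≤ s ^ 5 * s ^ 5 := Nat.mul_le_mul_right _
          (le_trans hsN (Nat.le_self_pow (by norm_num) s))
      _ = s ^ 10 := by ring
      _ ≤ 2 ^ s := pow_ten_le s hs200
      _ ≤ m := Nat.pow_log_le_self 2 hm0

theorem param_B (ε : ℝ) (hε : 0 < ε) : ∃ M : ℕ, ∀ m ≥ M,
    12 * pw m * ((1073 / 1000) * (40 / 41) ^ 3 : ℝ) ^ m ≤ ε := by
  obtain ⟨M, hM⟩ := pw_growth (12 / ε) 200
  refine ⟨M, ?_⟩
  intro m hm
  obtain ⟨e, h1, h2⟩ := hM m hm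
  set q : ℝ := (1073 / 1000) * (40 / 41) ^ 3 with hq
  have hq0 : 0 < q := by positivity
  have hq1 : q ≤ 1 := by rw [hq]; norm_num
  have hq2 : q ^ 200 ≤ 1 / 2 := by rw [hq]; norm_num
  have h3 : q ^ m ≤ (1 / 2) ^ e := by
    calc q ^ m ≤ q ^ (200 * e) := pow_le_pow_of_le_one hq0.le hq1 h2
      _ = (q ^ 200) ^ e := by rw [pow_mul]
      _ ≤ (1 / 2) ^ e := pow_le_pow_left₀ (by positivity) hq2 e
  have hpw0 : 0 ≤ pw m := le_trans (by norm_num) (pw_pos m)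
  have h4 : 12 * pw m ≤ ε * 2 ^ e := by
    have : 12 / ε * pw m * ε ≤ 2 ^ e * ε := mul_le_mul_of_nonneg_right h1 hε.le
    have e1 : 12 / ε * pw m * ε = 12 * pw m := by field_simp
    linarith
  calc 12 * pw m * q ^ m ≤ (ε * 2 ^ e) * (1 / 2) ^ e :=
        mul_le_mul h4 h3 (by positivity) (by positivity)
    _ = ε * (2 * (1 / 2)) ^ e := by rw [mul_pow]; ring
    _ = ε := by norm_num

end Beanstalk
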