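import Pool.Agent.Work.MP_8093a3_co.Defs

/-!
# Parameters of the recursion as functions of the scale `m` (the interval is `(32/27)^m [y0,y1]`)
-/

namespace Beanstalk

/-- block size -/
def pa (m : ℕ) : ℕ := (Nat.log 2 m) ^ 4

/-- half of the number of blocks -/
def pT (m : ℕ) : ℕ := m / (3200 * (Nat.log 2 m) ^ 4)

/-- number of bad blocks that is not tolerated any more -/
def pR (m : ℕ) : ℕ := pT m / (65 * (Nat.log 2 m) ^ 3) + 1

/-- window radius -/
noncomputable def pw (m : ℕ) : ℝ := 2 * (3 / 2) ^ (320 * (Nat.log 2 m + 1) ^ 4) + 1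

end Beanstalk
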