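import Pool.Agent.Work.MP_8093a3_co.ParamB

/-!
# Module ParamG: growth conditions

`s = Nat.log 2 m`, `2^s ≤ m`. `pw m ≤ 2^{320(s+1)^4+2}` is subexponential in `m`
(`320 (s+1)^4 + 2 ≤ η m` for every fixed `η > 0` and `m` large).

* (g2): `64 a (T+1) ≥ m/50`, so `(27/32)^{64a(T+1)} ≤ (27/32)^{m/50}` (real exponent).
* (g1): `(27/32)^{128aT} (32/27)^m ≥ (32/27)^{24m/25}` since `128 a T ≤ m/25`; the subtracted term
  is at most `(3/2)^C pw m`.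
* (g3): `(2/3)^c (32/27)^m ≥ (2/3)^C (32/27)^m`.
* (g4): `320 a (2T) = 640 a T ≤ m/5` and `(32/27)^5 > 2.33`, so
  `(32/27)^m / 2^{m/5} ≥ (2.33/2)^{m/5}`.
-/

namespace Beanstalk

theorem param_G (C : ℕ) : ∃ M : ℕ, ∀ m ≥ M, ∀ c ≤ C,
    ((27 / 32 : ℝ) ^ (64 * pa m * (pT m + 1)) * (3 / 2) ^ c * (pw m + 1) ≤ 1) ∧
    (∀ y0 : ℝ, 1 ≤ y0 → 2 * (3 / 2 : ℝ) ^ (320 * pa m) + 4 ≤
      (27 / 32) ^ (128 * pa m * pT m) * (3 / 2) ^ c * (((2 / 3) ^ c * (32 / 27) ^ m) * y0 - pw m)) ∧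
    (2 * pw m ≤ (2 / 3) ^ c * (32 / 27) ^ m) ∧
    ((2 : ℝ) ^ (c + 320 * pa m * (2 * pT m) + 1) ≤ (2 / 3) ^ c * (32 / 27) ^ m) := by
  obtain ⟨M1, h1⟩ := param_idx 1
  obtain ⟨M2, h2⟩ := pw_growth (4 * (3 / 2) ^ C + 4) 250
  obtain ⟨k0, hk0⟩ := exists_nat_gt ((2 : ℝ) ^ (C + 1) * (3 / 2) ^ C / (1 / 10))
  refine ⟨max (max M1 M2) (5 * k0 + 5), ?_⟩
  intro m hm c hc
  have hm1 : M1 ≤ m := le_trans (le_trans (le_max_left _ _) (le_max_left _ _)) hm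
  have hm2 : M2 ≤ m := le_trans (le_trans (le_max_right _ _) (le_max_left _ _)) hm
  have hm3 : 5 * k0 + 5 ≤ m := le_trans (le_max_right _ _) hm
  obtain ⟨-, -, -, ha1, hT1, -, -, hY, hX, hidx, -⟩ := h1 m hm1
  obtain ⟨e, he1, he2⟩ := h2 m hm2
  have hpw1 := pw_pos m
  have hcC : (3 / 2 : ℝ) ^ c ≤ (3 / 2) ^ C := pow_le_pow_right₀ (by norm_num) hc
  have hc0 : (0 : ℝ) < (3 / 2) ^ c := by positivity
  have hC1 : (1 : ℝ) ≤ (3 / 2) ^ C := one_le_pow₀ (by norm_num)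
  have hcpw : (3 / 2 : ℝ) ^ c * pw m ≤ (3 / 2) ^ C * pw m :=
    mul_le_mul_of_nonneg_right hcC (by linarith)
  have hθ : (2 : ℝ) ≤ (32 / 27) ^ 5 := by norm_num
  have hθn : ∀ n : ℕ, 5 * e ≤ n → (2 : ℝ) ^ e ≤ (32 / 27) ^ n := by
    intro n hn
    calc (2 : ℝ) ^ e ≤ ((32 / 27) ^ 5) ^ e := pow_le_pow_left₀ (by norm_num) hθ e
      _ = (32 / 27) ^ (5 * e) := by rw [pow_mul]
      _ ≤ (32 / 27) ^ n := pow_le_pow_right₀ (by norm_num) hn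
  set X := 64 * pa m * (pT m + 1) with hXdef
  set Y := 128 * pa m * pT m with hYdef
  have hXn : m ≤ 50 * X := by
    have : (m : ℝ) ≤ ((50 * X : ℕ) : ℝ) := by push_cast at hX ⊢; linarith
    exact_mod_cast this
  have hYn : 25 * Y ≤ m := by
    have : ((25 * Y : ℕ) : ℝ) ≤ m := by push_cast at hY ⊢; linarith
    exact_mod_cast this
  have hinv : ∀ n : ℕ, (27 / 32 : ℝ) ^ n * (32 / 27) ^ n = 1 := by
    intro n; rw [← mul_pow]; norm_num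
  have hprod : (3 / 2 : ℝ) ^ c * (2 / 3) ^ c = 1 := by
    rw [← mul_pow]; norm_num
  have hcpos : (0 : ℝ) < (2 / 3) ^ c := by positivity
  refine ⟨?_, ?_, ?_, ?_⟩
  · -- (g2)
    have h3 : (2 : ℝ) ^ e ≤ (32 / 27) ^ X := hθn X (by omega)
    have h4 : (3 / 2 : ℝ) ^ c * (pw m + 1) ≤ 2 ^ e := by
      refine le_trans ?_ he1
      nlinarith
    calc (27 / 32 : ℝ) ^ X * (3 / 2) ^ c * (pw m + 1)
        = (27 / 32 : ℝ) ^ X * ((3 / 2) ^ c * (pw m + 1)) := by ring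
      _ ≤ (27 / 32 : ℝ) ^ X * (32 / 27) ^ X :=
          mul_le_mul_of_nonneg_left (le_trans h4 h3) (by positivity)
      _ = 1 := hinv X
  · -- (g1)
    intro y0 hy0
    have hYm : Y ≤ m := by omega
    have h5 : (27 / 32 : ℝ) ^ Y * (32 / 27) ^ m = (32 / 27) ^ (m - Y) := by
      have e1 : (32 / 27 : ℝ) ^ m = (32 / 27) ^ Y * (32 / 27) ^ (m - Y) := by
        rw [← pow_add]; congr 1; omega
      rw [e1, ← mul_assoc, hinv Y, one_mul]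
    have h6 : (2 : ℝ) ^ e ≤ (32 / 27) ^ (m - Y) := hθn (m - Y) (by omega)
    have hY1 : (27 / 32 : ℝ) ^ Y ≤ 1 := pow_le_one₀ (by norm_num) (by norm_num)
    have hY0 : (0 : ℝ) < (27 / 32 : ℝ) ^ Y := by positivity
    have h7 : (27 / 32 : ℝ) ^ Y * (3 / 2) ^ c * (((2 / 3) ^ c * (32 / 27) ^ m) * y0 - pw m) =
        (32 / 27) ^ (m - Y) * y0 - (27 / 32 : ℝ) ^ Y * ((3 / 2) ^ c * pw m) := by
      rw [← h5]
      have : (27 / 32 : ℝ) ^ Y * (3 / 2) ^ c * (((2 / 3) ^ c * (32 / 27) ^ m) * y0 - pw m) =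
        ((3 / 2 : ℝ) ^ c * (2 / 3) ^ c) * ((27 / 32 : ℝ) ^ Y * (32 / 27) ^ m * y0) -
          (27 / 32 : ℝ) ^ Y * ((3 / 2) ^ c * pw m) := by ring
      rw [this, hprod]; ring
    rw [h7]
    have h8 : (32 / 27 : ℝ) ^ (m - Y) ≤ (32 / 27) ^ (m - Y) * y0 := by
      have : (0 : ℝ) < (32 / 27) ^ (m - Y) := by positivity
      nlinarith
    have h9 : (27 / 32 : ℝ) ^ Y * ((3 / 2) ^ c * pw m) ≤ (3 / 2) ^ C * pw m := by
      calc (27 / 32 : ℝ) ^ Y * ((3 / 2) ^ c * pw m) ≤ 1 * ((3 / 2) ^ C * pw m) :=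
            mul_le_mul hY1 hcpw (by positivity) (by norm_num)
        _ = (3 / 2) ^ C * pw m := one_mul _
    have h10 : 2 * (3 / 2 : ℝ) ^ (320 * pa m) + 1 ≤ pw m := by
      have hmem : 2 * pT m ∈ Finset.Ioc (pT m) (2 * pT m) := Finset.mem_Ioc.mpr ⟨by omega, le_rfl⟩
      obtain ⟨-, -, -, -, i5⟩ := hidx _ hmem
      exact le_trans i5 (pw_mono (Nat.sub_le _ _))
    nlinarith
  · -- (g3)
    have h3 : (2 : ℝ) ^ e ≤ (32 / 27) ^ m := hθn m (by omega)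
    have h4 : (3 / 2 : ℝ) ^ c * (2 * pw m) ≤ (32 / 27) ^ m := by
      refine le_trans ?_ h3
      refine le_trans ?_ he1
      nlinarith
    calc 2 * pw m = (3 / 2 : ℝ) ^ c * (2 / 3) ^ c * (2 * pw m) := by rw [hprod, one_mul]
      _ = (2 / 3 : ℝ) ^ c * ((3 / 2) ^ c * (2 * pw m)) := by ring
      _ ≤ (2 / 3) ^ c * (32 / 27) ^ m := mul_le_mul_of_nonneg_left h4 hcpos.le
  · -- (g4)
    set k := m / 5 with hk
    have hk5 : 5 * k ≤ m := Nat.mul_div_le m 5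
    have hk0' : k0 ≤ k := by omega
    have hYk : 5 * Y ≤ k := by omega
    have h3 : (2 : ℝ) * (11 / 10) ≤ (32 / 27) ^ 5 := by norm_num
    have h4 : (2 : ℝ) ^ k * (11 / 10) ^ k ≤ (32 / 27) ^ m := by
      calc (2 : ℝ) ^ k * (11 / 10) ^ k = (2 * (11 / 10)) ^ k := by rw [mul_pow]
        _ ≤ ((32 / 27) ^ 5) ^ k := pow_le_pow_left₀ (by norm_num) h3 k
        _ = (32 / 27) ^ (5 * k) := by rw [pow_mul]
        _ ≤ (32 / 27) ^ m := pow_le_pow_right₀ (by norm_num) hk5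
    have h5 : (2 : ℝ) ^ (C + 1) * (3 / 2) ^ C ≤ (11 / 10) ^ k := by
      have h6 : 1 + (k : ℝ) * (1 / 10) ≤ (1 + 1 / 10) ^ k := one_add_mul_le_pow (by norm_num) k
      have h7 : (1 + 1 / 10 : ℝ) = 11 / 10 := by norm_num
      rw [h7] at h6
      have h8 : (k0 : ℝ) ≤ k := by exact_mod_cast hk0'
      rw [div_lt_iff₀ (by norm_num)] at hk0
      linarith
    have e1 : c + 320 * pa m * (2 * pT m) + 1 = (c + 1) + 5 * Y := by rw [hYdef]; ring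
    have h9 : (2 : ℝ) ^ (c + 1) ≤ 2 ^ (C + 1) := pow_le_pow_right₀ (by norm_num) (by omega)
    have h10 : (2 : ℝ) ^ (5 * Y) ≤ 2 ^ k := pow_le_pow_right₀ (by norm_num) hYk
    have h11 : (3 / 2 : ℝ) ^ c * 2 ^ (c + 320 * pa m * (2 * pT m) + 1) ≤ (32 / 27) ^ m := by
      rw [e1, pow_add]
      calc (3 / 2 : ℝ) ^ c * (2 ^ (c + 1) * 2 ^ (5 * Y))
          ≤ (3 / 2) ^ C * (2 ^ (C + 1) * 2 ^ k) := by
            refine mul_le_mul hcC ?_ (by positivity) (by positivity)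
            exact mul_le_mul h9 h10 (by positivity) (by positivity)
        _ = 2 ^ k * (2 ^ (C + 1) * (3 / 2) ^ C) := by ring
        _ ≤ 2 ^ k * (11 / 10) ^ k := mul_le_mul_of_nonneg_left h5 (by positivity)
        _ ≤ (32 / 27) ^ m := h4
    calc (2 : ℝ) ^ (c + 320 * pa m * (2 * pT m) + 1)
        = (3 / 2 : ℝ) ^ c * (2 / 3) ^ c * 2 ^ (c + 320 * pa m * (2 * pT m) + 1) := by
          rw [hprod, one_mul]
      _ = (2 / 3 : ℝ) ^ c * ((3 / 2) ^ c * 2 ^ (c + 320 * pa m * (2 * pT m) + 1)) := by ring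
      _ ≤ (2 / 3) ^ c * (32 / 27) ^ m := mul_le_mul_of_nonneg_left h11 hcpos.le

end Beanstalk
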