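import Pool.Agent.Work.MP_8093a3_co.ParamDefs

/-!
# Module ParamIdx: elementary size facts of the parameters

With `s = Nat.log 2 m`: `2^s ≤ m < 2^{s+1}`; `pT m = ⌊m/(3200 s⁴)⌋`, so
`3200 s⁴ (pT m) ≤ m < 3200 s⁴ (pT m + 1)`. Hence for `t ∈ Ioc (pT m) (2 pT m)`:
`64 s⁴ t ≤ 128 s⁴ pT m ≤ m/25` and `64 s⁴ t ≥ 64 s⁴ (pT m + 1) > m/50`.
`65 pR m ≤ pT m / s³ + 65`, and `pT m ≥ 2^s/(3200 s⁴) - 1` is much larger than `130 s³`, so
`65 pR m ≤ (3/2) pT m / s³` and `T/(T-65R) ≤ 1/(1-3/(2s³)) ≤ 1 + 4/s³`.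
`S₀` is an arbitrary prescribed lower bound for `s` (take `M` at least `2^{S₀}`).
`log_le`: `log 2 < 0.7` and `m < 2^{s+1}`.
-/

namespace Beanstalk

theorem pow_ten_le (s : ℕ) (hs : 200 ≤ s) : s ^ 10 ≤ 2 ^ s := by
  induction s, hs using Nat.le_induction with
  | base => norm_num
  | succ s hs ih =>
    have h1 : 200 * (s + 1) ≤ 201 * s := by omega
    have h2 : (200 * (s + 1)) ^ 10 ≤ (201 * s) ^ 10 := Nat.pow_le_pow_left h1 10
    rw [mul_pow, mul_pow] at h2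
    have h3 : 201 ^ 10 * s ^ 10 ≤ (200 ^ 10 * 2) * s ^ 10 :=
      Nat.mul_le_mul_right _ (by norm_num)
    have h4 : 200 ^ 10 * (s + 1) ^ 10 ≤ 200 ^ 10 * (2 * s ^ 10) := by
      refine le_trans h2 (le_trans h3 (le_of_eq ?_))
      ring
    have h5 : (s + 1) ^ 10 ≤ 2 * s ^ 10 := Nat.le_of_mul_le_mul_left h4 (by norm_num)
    calc (s + 1) ^ 10 ≤ 2 * s ^ 10 := h5
      _ ≤ 2 * 2 ^ s := Nat.mul_le_mul_left _ ih
      _ = 2 ^ (s + 1) := by ring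

theorem pw_mono {m m' : ℕ} (h : m ≤ m') : pw m ≤ pw m' := by
  unfold pw
  have h1 : Nat.log 2 m ≤ Nat.log 2 m' := Nat.log_mono_right h
  have h2 : 320 * (Nat.log 2 m + 1) ^ 4 ≤ 320 * (Nat.log 2 m' + 1) ^ 4 :=
    Nat.mul_le_mul_left _ (Nat.pow_le_pow_left (by omega) 4)
  have h3 : (3 / 2 : ℝ) ^ (320 * (Nat.log 2 m + 1) ^ 4) ≤
      (3 / 2) ^ (320 * (Nat.log 2 m' + 1) ^ 4) := pow_le_pow_right₀ (by norm_num) h2
  linarith

theorem pw_pos (m : ℕ) : 1 ≤ pw m := by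
  unfold pw
  have : (0 : ℝ) < (3 / 2) ^ (320 * (Nat.log 2 m + 1) ^ 4) := by positivity
  linarith

theorem param_idx (S₀ : ℕ) : ∃ M : ℕ, ∀ m ≥ M,
    S₀ ≤ Nat.log 2 m ∧ 1 ≤ Nat.log 2 m ∧ 1 ≤ m ∧ 1 ≤ pa m ∧ 1 ≤ pT m ∧ 65 * pR m < pT m ∧
    ((pT m : ℝ) / ((pT m : ℝ) - 65 * pR m) ≤ 1 + 4 / (Nat.log 2 m : ℝ) ^ 3) ∧
    ((128 * pa m * pT m : ℕ) : ℝ) ≤ m / 25 ∧
    (m : ℝ) / 50 ≤ ((64 * pa m * (pT m + 1) : ℕ) : ℝ) ∧
    (∀ t ∈ Finset.Ioc (pT m) (2 * pT m),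
      64 * pa m * t ≤ m ∧ m ≤ 2 * (m - 64 * pa m * t) ∧
      ((m - 64 * pa m * t : ℕ) : ℝ) ≤ 49 / 50 * m ∧
      Nat.log 2 m ≤ Nat.log 2 (m - 64 * pa m * t) + 1 ∧
      2 * (3 / 2 : ℝ) ^ (320 * pa m) + 1 ≤ pw (m - 64 * pa m * t)) ∧
    Real.log m ≤ 7 / 10 * ((Nat.log 2 m : ℝ) + 1) := by
  refine ⟨2 ^ (max S₀ 200), ?_⟩
  intro m hm
  have hm1 : 1 ≤ m := le_trans Nat.one_le_two_pow hm
  have hm0 : m ≠ 0 := by omega
  have hlog : max S₀ 200 ≤ Nat.log 2 m := Nat.le_log_of_pow_le (by norm_num) hm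
  have hS0 : S₀ ≤ Nat.log 2 m := le_trans (le_max_left _ _) hlog
  have hs200 : 200 ≤ Nat.log 2 m := le_trans (le_max_right _ _) hlog
  have hpow : 2 ^ Nat.log 2 m ≤ m := Nat.pow_log_le_self 2 hm0
  have hpow2 : m < 2 ^ (Nat.log 2 m + 1) := Nat.lt_pow_succ_log_self (by norm_num) m
  unfold pa pR
  have hTdef : pT m = m / (3200 * (Nat.log 2 m) ^ 4) := rfl
  set s := Nat.log 2 m with hs
  set T := pT m with hT
  have hs4 : 0 < s ^ 4 := by positivity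
  have hs3 : 0 < s ^ 3 := by positivity
  have h10 := pow_ten_le s hs200
  have hTle : 3200 * s ^ 4 * T ≤ m := by
    rw [hTdef]; exact Nat.mul_div_le m _
  have hTlt : m < 3200 * s ^ 4 * (T + 1) := by
    rw [hTdef]; exact Nat.lt_mul_div_succ m (by positivity)
  have hbig : 130 * s ^ 3 ≤ T := by
    rw [hTdef, Nat.le_div_iff_mul_le (by positivity)]
    have h1 : 130 * s ^ 3 * (3200 * s ^ 4) = 416000 * s ^ 7 := by ring
    rw [h1]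
    have h2 : 416000 ≤ s ^ 3 := le_trans (by norm_num : 416000 ≤ 200 ^ 3)
      (Nat.pow_le_pow_left hs200 3)
    calc 416000 * s ^ 7 ≤ s ^ 3 * s ^ 7 := Nat.mul_le_mul_right _ h2
      _ = s ^ 10 := by ring
      _ ≤ 2 ^ s := h10
      _ ≤ m := hpow
  have hs3big : 8 ≤ s ^ 3 := le_trans (by norm_num : 8 ≤ 200 ^ 3) (Nat.pow_le_pow_left hs200 3)
  have hT1 : 1 ≤ T := by omega
  set R := T / (65 * s ^ 3) + 1 with hR
  have hRle : 65 * s ^ 3 * (T / (65 * s ^ 3)) ≤ T := Nat.mul_div_le T _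
  have hRs : s ^ 3 * (65 * R) ≤ T + 65 * s ^ 3 := by
    calc s ^ 3 * (65 * R) = 65 * s ^ 3 * (T / (65 * s ^ 3)) + 65 * s ^ 3 := by rw [hR]; ring
      _ ≤ T + 65 * s ^ 3 := Nat.add_le_add_right hRle _
  have hRs2 : 2 * (s ^ 3 * (65 * R)) ≤ 3 * T := by omega
  have h65 : 65 * R < T := by
    by_contra hcon
    push Not at hcon
    have : s ^ 3 * T ≤ s ^ 3 * (65 * R) := Nat.mul_le_mul_left _ hcon
    have h8T : 8 * T ≤ s ^ 3 * T := Nat.mul_le_mul_right _ hs3big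
    omega
  have hsR : (200 : ℝ) ≤ s := by exact_mod_cast hs200
  have hTR : (1 : ℝ) ≤ T := by exact_mod_cast hT1
  have h65R : 65 * (R : ℝ) < T := by exact_mod_cast h65
  have hRs2R : 2 * ((s : ℝ) ^ 3 * (65 * R)) ≤ 3 * T := by exact_mod_cast hRs2
  have hs3R : (8 : ℝ) ≤ (s : ℝ) ^ 3 := by exact_mod_cast hs3big
  have h25 : ∀ t, t ≤ 2 * T → 25 * (64 * s ^ 4 * t) ≤ m := by
    intro t ht
    calc 25 * (64 * s ^ 4 * t) = 1600 * s ^ 4 * t := by ring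
      _ ≤ 1600 * s ^ 4 * (2 * T) := Nat.mul_le_mul_left _ ht
      _ = 3200 * s ^ 4 * T := by ring
      _ ≤ m := hTle
  have h50 : ∀ t, T < t → m ≤ 50 * (64 * s ^ 4 * t) := by
    intro t ht
    calc m ≤ 3200 * s ^ 4 * (T + 1) := hTlt.le
      _ ≤ 3200 * s ^ 4 * t := Nat.mul_le_mul_left _ ht
      _ = 50 * (64 * s ^ 4 * t) := by ring
  refine ⟨hS0, by omega, hm1, hs4, hT1, h65, ?_, ?_, ?_, ?_, ?_⟩
  · rw [div_le_iff₀ (by linarith)]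
    have hs3p : (0 : ℝ) < (s : ℝ) ^ 3 := by positivity
    have e : (1 + 4 / (s : ℝ) ^ 3) * ((T : ℝ) - 65 * R) =
        (((s : ℝ) ^ 3 + 4) * ((T : ℝ) - 65 * R)) / (s : ℝ) ^ 3 := by
      field_simp
    rw [e, le_div_iff₀ hs3p]
    have hq0 : (0 : ℝ) ≤ 65 * R := by positivity
    nlinarith [mul_le_mul_of_nonneg_right hs3R hq0]
  · have h1 := h25 (2 * T) le_rfl
    have h2 : 25 * (128 * s ^ 4 * T) ≤ m := by
      calc 25 * (128 * s ^ 4 * T) = 25 * (64 * s ^ 4 * (2 * T)) := by ring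
        _ ≤ m := h1
    have h3 : (25 : ℝ) * ((128 * s ^ 4 * T : ℕ) : ℝ) ≤ m := by exact_mod_cast h2
    linarith
  · have h1 := h50 (T + 1) (by omega)
    have h3 : (m : ℝ) ≤ 50 * ((64 * s ^ 4 * (T + 1) : ℕ) : ℝ) := by exact_mod_cast h1
    linarith
  · intro t ht
    rw [Finset.mem_Ioc] at ht
    have h1 := h25 t ht.2
    have h2 := h50 t ht.1
    set x := 64 * s ^ 4 * t with hx
    have hxm : x ≤ m := by omega
    have hm2 : m ≤ 2 * (m - x) := by omega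
    have hlogle : s ≤ Nat.log 2 (m - x) + 1 := by
      have h3 : Nat.log 2 m ≤ Nat.log 2 ((m - x) * 2) := Nat.log_mono_right (by omega)
      rw [Nat.log_mul_base (by norm_num) (by omega)] at h3
      exact h3
    refine ⟨hxm, hm2, ?_, hlogle, ?_⟩
    · rw [Nat.cast_sub hxm]
      have h3 : (m : ℝ) ≤ 50 * (x : ℝ) := by exact_mod_cast h2
      linarith
    · unfold pw
      have h4 : 320 * s ^ 4 ≤ 320 * (Nat.log 2 (m - x) + 1) ^ 4 :=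
        Nat.mul_le_mul_left _ (Nat.pow_le_pow_left hlogle 4)
      have h5 : (3 / 2 : ℝ) ^ (320 * s ^ 4) ≤ (3 / 2) ^ (320 * (Nat.log 2 (m - x) + 1) ^ 4) :=
        pow_le_pow_right₀ (by norm_num) h4
      linarith
  · have h1 : (m : ℝ) ≤ 2 ^ (s + 1) := by exact_mod_cast hpow2.le
    have hmpos : (0 : ℝ) < m := by exact_mod_cast hm1
    have h2 : Real.log m ≤ Real.log (2 ^ (s + 1)) := Real.log_le_log hmpos h1
    rw [Real.log_pow] at h2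
    have h3 : Real.log 2 < 0.6931471808 := Real.log_two_lt_d9
    push_cast at h2
    have hs1 : (0 : ℝ) < (s : ℝ) + 1 := by linarith
    nlinarith

end Beanstalk
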