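import Pool.Agent.Work.MP_8093a3_co.ParamB

/-!
# Module ParamN: the exceptional numbers are negligible

With `s = Nat.log 2 m`, `a = s⁴`, `T = pT m ≥ m/(3200 s⁴) - 1`, `R ≥ T/(65 s³)`:
for `s ≥ 10^4`: `6 (9/10)^a ≤ (19/20)^a`, so
`(6(9/10)^a)^R ≤ (19/20)^{s⁴ R} ≤ (19/20)^{sT/65}` and `(19/20)^{s/65} ≤ 1/8` (as
`(19/20)^{14} ≤ 1/2`, `s/65 ≥ 42`), hence `2^{2T} (6(9/10)^a)^R ≤ 2^{-T}`.
Finally `4 pw m (s+1)² 2^{-T} → 0`, because `pw m ≤ 2^{320(s+1)^4+2}` and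
`T ≥ 2^s/(3200 s⁴) - 1` grows much faster than `320(s+1)^4`.
(`Tendsto` in `s` is enough: everything is bounded by a function of `s`, and `s → ∞`.)
-/

namespace Beanstalk

theorem param_N (ε : ℝ) (hε : 0 < ε) : ∃ M : ℕ, ∀ m ≥ M,
    4 * pw m * 2 ^ (2 * pT m) * (6 * (9 / 10 : ℝ) ^ (pa m)) ^ (pR m) ≤
      ε / ((Nat.log 2 m : ℝ) + 1) ^ 2 := by
  obtain ⟨S, hS⟩ := pw_le_two_pow (4 / ε)
  obtain ⟨M1, h1⟩ := param_idx (max S 10000)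
  refine ⟨M1, ?_⟩
  intro m hm
  obtain ⟨hs, -, hm1, -, hT1, -, -, -, -, -, -⟩ := h1 m hm
  have hsS : S ≤ Nat.log 2 m := le_trans (le_max_left _ _) hs
  have hs1 : 10000 ≤ Nat.log 2 m := le_trans (le_max_right _ _) hs
  have h2 := hS m hsS
  unfold pR pa
  have hTdef : pT m = m / (3200 * (Nat.log 2 m) ^ 4) := rfl
  have hpow : 2 ^ Nat.log 2 m ≤ m := Nat.pow_log_le_self 2 (by omega)
  set s := Nat.log 2 m with hsdef
  set T := pT m with hT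
  have h10 := pow_ten_le s (by omega)
  have hs4 : 0 < s ^ 4 := by positivity
  have hs3 : 0 < s ^ 3 := by positivity
  -- T ≥ s^5
  have hT5 : s ^ 5 ≤ T := by
    rw [hTdef, Nat.le_div_iff_mul_le (by positivity)]
    calc s ^ 5 * (3200 * s ^ 4) = 3200 * s ^ 9 := by ring
      _ ≤ s * s ^ 9 := Nat.mul_le_mul_right _ (by omega)
      _ = s ^ 10 := by ring
      _ ≤ 2 ^ s := h10
      _ ≤ m := hpow
  -- exponent a R ≥ 42 T
  have hR : T < 65 * s ^ 3 * (T / (65 * s ^ 3) + 1) := Nat.lt_mul_div_succ T (by positivity)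
  set R := T / (65 * s ^ 3) + 1 with hRdef
  have haR : 42 * T ≤ s ^ 4 * R := by
    have h3 : 65 * (s ^ 4 * R) = s * (65 * s ^ 3 * R) := by ring
    have h4 : 10000 * T ≤ s * (65 * s ^ 3 * R) := by
      calc 10000 * T ≤ s * T := Nat.mul_le_mul_right _ hs1
        _ ≤ s * (65 * s ^ 3 * R) := Nat.mul_le_mul_left _ hR.le
    omega
  -- 6 (9/10)^a ≤ (19/20)^a
  have h5 : 6 * (9 / 10 : ℝ) ^ (s ^ 4) ≤ (19 / 20) ^ (s ^ 4) := by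
    have h6 : (6 : ℝ) ≤ (19 / 18) ^ (s ^ 4) := by
      calc (6 : ℝ) ≤ (19 / 18) ^ 40 := by norm_num
        _ ≤ (19 / 18) ^ (s ^ 4) := by
            refine pow_le_pow_right₀ (by norm_num) ?_
            calc 40 ≤ s := by omega
              _ ≤ s ^ 4 := Nat.le_self_pow (by norm_num) s
    have h7 : (19 / 20 : ℝ) ^ (s ^ 4) = (19 / 18) ^ (s ^ 4) * (9 / 10) ^ (s ^ 4) := by
      rw [← mul_pow]; norm_num
    rw [h7]
    exact mul_le_mul_of_nonneg_right h6 (by positivity)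
  have h8 : (6 * (9 / 10 : ℝ) ^ (s ^ 4)) ^ R ≤ (1 / 8) ^ T := by
    calc (6 * (9 / 10 : ℝ) ^ (s ^ 4)) ^ R ≤ ((19 / 20) ^ (s ^ 4)) ^ R :=
          pow_le_pow_left₀ (by positivity) h5 R
      _ = (19 / 20) ^ (s ^ 4 * R) := by rw [pow_mul]
      _ ≤ (19 / 20) ^ (42 * T) := pow_le_pow_of_le_one (by norm_num) (by norm_num) haR
      _ = ((19 / 20) ^ 42) ^ T := by rw [pow_mul]
      _ ≤ (1 / 8) ^ T := pow_le_pow_left₀ (by positivity) (by norm_num) T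
  have h9 : (2 : ℝ) ^ (2 * T) * (6 * (9 / 10 : ℝ) ^ (s ^ 4)) ^ R ≤ (1 / 2) ^ T := by
    calc (2 : ℝ) ^ (2 * T) * (6 * (9 / 10 : ℝ) ^ (s ^ 4)) ^ R ≤ 2 ^ (2 * T) * (1 / 8) ^ T :=
          mul_le_mul_of_nonneg_left h8 (by positivity)
      _ = (1 / 2) ^ T := by
          rw [pow_mul, ← mul_pow]; norm_num
  have hpw0 : 0 ≤ pw m := le_trans (by norm_num) (pw_pos m)
  have hs1p : (0 : ℝ) < ((s : ℝ) + 1) ^ 2 := by positivity
  rw [le_div_iff₀ hs1p]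
  have h11 : 4 * pw m * ((s : ℝ) + 1) ^ 2 ≤ ε * 2 ^ T := by
    have h12 : (2 : ℝ) ^ (s ^ 5) ≤ 2 ^ T := pow_le_pow_right₀ (by norm_num) hT5
    have h13 : 4 / ε * pw m * ((s : ℝ) + 1) ^ 2 * ε ≤ 2 ^ T * ε :=
      mul_le_mul_of_nonneg_right (le_trans h2 h12) hε.le
    have e1 : 4 / ε * pw m * ((s : ℝ) + 1) ^ 2 * ε = 4 * pw m * ((s : ℝ) + 1) ^ 2 := by
      field_simp
    linarith
  calc 4 * pw m * 2 ^ (2 * T) * (6 * (9 / 10 : ℝ) ^ (s ^ 4)) ^ R * ((s : ℝ) + 1) ^ 2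
      = (4 * pw m * ((s : ℝ) + 1) ^ 2) * (2 ^ (2 * T) * (6 * (9 / 10 : ℝ) ^ (s ^ 4)) ^ R) := by ring
    _ ≤ (ε * 2 ^ T) * (1 / 2) ^ T := mul_le_mul h11 h9 (by positivity) (by positivity)
    _ = ε * (2 * (1 / 2)) ^ T := by rw [mul_pow]; ring
    _ = ε := by norm_num

end Beanstalk
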