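import Pool.Agent.Work.MP_8093a3_co.Defs

/-!
# Module PathE: basic facts about paths

Proof hints (all by induction on `Path`, `Step v n m` means `3n+η = 2^v m`, `η = ±1`, `v` odd):

* `path_shift`: if `3n+η = 2^v m` then `3(n+2^{V+v+1}j)+η = 2^v (m + 2^{V+1}(3j))`; apply the
  induction hypothesis with `3j`: the end becomes `N + 2·3^k·(3j) = N + 2·3^{k+1}j`.
* `path_err`: `|m - 3/2^v n| ≤ 1/2`, and `3^k/2^V ≤ (3/2)^k` because `k ≤ V`; hence the error is
  `≤ (3/2)^k - 1 + (3/2)^k/2 = (3/2)^{k+1} - 1`.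
* `W_ge`: base `3n+1 = 4^j ≥ 16` (so `n ≥ 5`; `n` is odd since `4^j-1` is odd);
  step `3n+1 ≥ 2·3` so `n ≥ 2` and `n` odd.
* `exists_pathA`: for `n` odd one of `3n+1, 3n-1` is `2 (mod 4)`, so `Step 1 n m` for some `m`.
* `reach_per`: from `path_shift`.  `bad0_per`: `n ≡ n' (mod 2^{V+1})` both directions of
  `reach_per` (use `-j`), parity preserved.
-/

namespace Beanstalk

theorem path_odd {k V : ℕ} {n N : ℤ} (h : Path k V n N) : Odd n ∧ Odd N := by
  induction h with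
  | refl n hn => exact ⟨hn, hn⟩
  | cons hs _ ih => exact ⟨hs.2.1, ih.2⟩

theorem path_le {k V : ℕ} {n N : ℤ} (h : Path k V n N) : k ≤ V := by
  induction h with
  | refl n hn => exact le_rfl
  | cons hs _ ih =>
    have := hs.1.pos
    omega

theorem path_trans {k1 V1 k2 V2 : ℕ} {n M N : ℤ} (h1 : Path k1 V1 n M) (h2 : Path k2 V2 M N) :
    Path (k1 + k2) (V1 + V2) n N := by
  induction h1 with
  | refl n hn => simpa using h2
  | @cons k V v n m M' hs _ ih =>
    have := ih h2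
    have h3 := Path.cons hs this
    have e1 : k + 1 + k2 = k + k2 + 1 := by ring
    have e2 : V + v + V2 = V + V2 + v := by ring
    rw [e1, e2]
    exact h3

theorem path_shift {k V : ℕ} {n N : ℤ} (h : Path k V n N) (j : ℤ) :
    Path k V (n + 2 ^ (V + 1) * j) (N + 2 * 3 ^ k * j) := by
  induction h generalizing j with
  | refl n hn =>
    have e : n + 2 * 3 ^ 0 * j = n + 2 ^ (0 + 1) * j := by ring
    rw [e]
    refine Path.refl _ ?_
    obtain ⟨r, hr⟩ := hn
    exact ⟨r + j, by rw [hr]; ring⟩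
  | @cons k V v n m M' hs _ ih =>
    have h3 := ih (3 * j)
    obtain ⟨hv, hn, hm, he⟩ := hs
    have hs' : Step v (n + 2 ^ (V + v + 1) * j) (m + 2 ^ (V + 1) * (3 * j)) := by
      refine ⟨hv, ?_, ?_, ?_⟩
      · obtain ⟨r, hr⟩ := hn
        exact ⟨r + 2 ^ (V + v) * j, by rw [hr]; ring⟩
      · obtain ⟨r, hr⟩ := hm
        exact ⟨r + 2 ^ V * (3 * j), by rw [hr]; ring⟩
      · rcases he with he | he
        · left
          have : 3 * (n + 2 ^ (V + v + 1) * j) + 1 = (3 * n + 1) + 3 * 2 ^ (V + v + 1) * j := by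
            ring
          rw [this, he]; ring
        · right
          have : 3 * (n + 2 ^ (V + v + 1) * j) - 1 = (3 * n - 1) + 3 * 2 ^ (V + v + 1) * j := by
            ring
          rw [this, he]; ring
    have h4 := Path.cons hs' h3
    have e : M' + 2 * 3 ^ k * (3 * j) = M' + 2 * 3 ^ (k + 1) * j := by ring
    rw [e] at h4
    exact h4

/-- The exact form with an integer error, used for injectivity of the end point. -/
theorem path_int {k V : ℕ} {n N : ℤ} (_h : Path k V n N) :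
    ∃ e : ℤ, 2 ^ V * N = 3 ^ k * n + e := ⟨2 ^ V * N - 3 ^ k * n, by ring⟩

theorem path_err {k V : ℕ} {n N : ℤ} (h : Path k V n N) :
    |(N : ℝ) - 3 ^ k / 2 ^ V * n| ≤ (3 / 2) ^ k - 1 := by
  induction h with
  | refl n hn => simp
  | @cons k V v n m M' hs hp ih =>
    have hkV := path_le hp
    obtain ⟨hv, hn, hm, he⟩ := hs
    have hv1 : 1 ≤ v := hv.pos
    have h2v : (0 : ℝ) < 2 ^ v := by positivity
    -- |m - 3/2^v n| ≤ 1/2
    have h1 : |(m : ℝ) - 3 / 2 ^ v * n| ≤ 1 / 2 := by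
      have h2le : (2 : ℝ) ≤ 2 ^ v := by
        calc (2 : ℝ) = 2 ^ 1 := by norm_num
          _ ≤ 2 ^ v := pow_le_pow_right₀ (by norm_num) hv1
      rcases he with he | he
      · have he' : (3 : ℝ) * n + 1 = 2 ^ v * m := by exact_mod_cast he
        have : (m : ℝ) - 3 / 2 ^ v * n = 1 / 2 ^ v := by
          field_simp
          linarith
        rw [this, abs_of_pos (by positivity)]
        exact one_div_le_one_div_of_le (by norm_num) h2le
      · have he' : (3 : ℝ) * n - 1 = 2 ^ v * m := by exact_mod_cast he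
        have : (m : ℝ) - 3 / 2 ^ v * n = -(1 / 2 ^ v) := by
          field_simp
          linarith
        rw [this, abs_neg, abs_of_pos (by positivity)]
        exact one_div_le_one_div_of_le (by norm_num) h2le
    have h3 : (3 : ℝ) ^ k / 2 ^ V ≤ (3 / 2) ^ k := by
      rw [div_pow]
      refine div_le_div_of_nonneg_left (by positivity) (by positivity) ?_
      exact pow_le_pow_right₀ (by norm_num) hkV
    have h4 : (3 : ℝ) ^ k / 2 ^ V * |(m : ℝ) - 3 / 2 ^ v * n| ≤ (3 / 2) ^ k * (1 / 2) :=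
      mul_le_mul h3 h1 (abs_nonneg _) (by positivity)
    have h5 : (M' : ℝ) - 3 ^ (k + 1) / 2 ^ (V + v) * n =
        ((M' : ℝ) - 3 ^ k / 2 ^ V * m) + 3 ^ k / 2 ^ V * ((m : ℝ) - 3 / 2 ^ v * n) := by
      rw [pow_succ, pow_add]
      field_simp
      ring
    rw [h5]
    refine le_trans (abs_add_le _ _) ?_
    rw [abs_mul, abs_of_nonneg (by positivity : (0 : ℝ) ≤ 3 ^ k / 2 ^ V)]
    have h6 : (3 / 2 : ℝ) ^ (k + 1) = (3 / 2) ^ k + (3 / 2) ^ k * (1 / 2) := by
      rw [pow_succ]; ring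
    rw [h6]
    linarith

theorem W_ge {n : ℤ} (h : W n) : Odd n ∧ 3 ≤ n := by
  induction h with
  | base j n hj h =>
    obtain ⟨i, rfl⟩ : ∃ i, j = i + 2 := ⟨j - 2, by omega⟩
    have e : (4 : ℤ) ^ (i + 2) = 16 * 4 ^ i := by ring
    rw [e] at h
    have h1 : (1 : ℤ) ≤ 4 ^ i := one_le_pow₀ (by norm_num)
    constructor
    · rw [Int.odd_iff]; omega
    · omega
  | step v n m hs _ ih =>
    obtain ⟨hv, hn, hm, he⟩ := hs
    refine ⟨hn, ?_⟩
    have h2 : (2 : ℤ) ≤ 2 ^ v := by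
      calc (2 : ℤ) = 2 ^ 1 := by norm_num
        _ ≤ 2 ^ v := pow_le_pow_right₀ (by norm_num) hv.pos
    have h3 := ih.2
    have h6 : (6 : ℤ) ≤ 2 ^ v * m := by nlinarith
    obtain ⟨r, hr⟩ := hn
    rcases he with he | he <;> omega

theorem W_of_path {k V : ℕ} {n N : ℤ} (h : Path k V n N) (hN : W N) : W n := by
  induction h with
  | refl n hn => exact hN
  | cons hs _ ih => exact W.step _ _ _ hs (ih hN)

theorem D_path {k V : ℕ} {n N : ℤ} (h : Path k V n N) (hn : D n) (hN : 3 ≤ N) : D N :=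
  ⟨(path_odd h).2, hN, fun hW => hn.2.2 (W_of_path h hW)⟩

theorem exists_stepA {n : ℤ} (hn : Odd n) : ∃ m, Step 1 n m := by
  obtain ⟨r, hr⟩ := hn
  rcases Int.even_or_odd r with ⟨t, ht⟩ | ⟨t, ht⟩
  · -- n = 4t+1, 3n - 1 = 12t+2 = 2(6t+1)
    refine ⟨6 * t + 1, ⟨0, by ring⟩, ⟨r, hr⟩, ⟨3 * t, by ring⟩, Or.inr ?_⟩
    rw [hr, ht]; ring
  · -- n = 4t+3, 3n + 1 = 12t + 10 = 2(6t+5)
    refine ⟨6 * t + 5, ⟨0, by ring⟩, ⟨r, hr⟩, ⟨3 * t + 2, by ring⟩, Or.inl ?_⟩
    rw [hr, ht]; ring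

theorem exists_pathA (c : ℕ) {n : ℤ} (hn : Odd n) : ∃ n', Path c c n n' := by
  induction c generalizing n with
  | zero => exact ⟨n, Path.refl n hn⟩
  | succ c ih =>
    obtain ⟨m, hm⟩ := exists_stepA hn
    obtain ⟨n', hn'⟩ := ih hm.2.2.1
    exact ⟨n', Path.cons hm hn'⟩

theorem reach_per (k V : ℕ) : Per (V + 1) (Reach k V) := by
  rintro n j ⟨N, hN⟩
  exact ⟨_, path_shift hN j⟩

theorem bad0_per (k V : ℕ) : Per (V + 1) (bad0 k V) := by
  rintro n j ⟨⟨r, hr⟩, hN⟩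
  refine ⟨⟨r + 2 ^ V * j, by rw [hr]; ring⟩, fun h => hN ?_⟩
  have := reach_per k V _ (-j) h
  have e : n + 2 ^ (V + 1) * j + 2 ^ (V + 1) * -j = n := by ring
  rwa [e] at this

end Beanstalk
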