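import Pool.Agent.Work.MP_8093a3_co.StepPoint
import Pool.Agent.Work.MP_8093a3_co.FailCount
import Pool.Agent.Work.MP_8093a3_co.NTerm

/-!
# Module StepLemma: the window recursion

* `step_lemma`: the set of `y` is contained in the union of
  `N = {y : ∃ n, Fail a (2T) c R n ∧ |σy-n| ≤ w}` (bounded by `nterm`, `fail_per`) and
  `G = {y ∈ [y0,y1] : at least T-65R of the t ∈ Ioc T (2T) satisfy λ_t(3/2)^cσ y ∈ U w'}`
  (because `card (Ioc T (2T)) = T`), and `(T-65R) vol(G) ≤ Σ_t vol{y : λ_t(3/2)^cσ y ∈ U w'}` by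
  Markov's inequality (integrate the sum of the indicators over `[y0,y1]`, or
  `MeasureTheory.meas_ge_le_lintegral_div`, or `mul_meas_ge_le_lintegral`).
-/

open MeasureTheory

namespace Beanstalk

/-- Markov's inequality for a finite family of sets. -/
theorem markov_family {ι : Type*} (I : Finset ι) (A : ι → Set ℝ) (hA : ∀ t ∈ I, MeasurableSet (A t))
    (hfin : ∀ t ∈ I, volume (A t) ≠ ⊤) (G : Set ℝ) (q : ℝ) (hq : 0 < q)
    (hG : ∀ y ∈ G, ∃ Z : Finset ι, Z ⊆ I ∧ q ≤ (I.card : ℝ) - Z.card ∧ ∀ t ∈ I, t ∉ Z → y ∈ A t) :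
    (volume G).toReal ≤ (∑ t ∈ I, (volume (A t)).toReal) / q := by
  classical
  set f : ℝ → ENNReal := fun y => ∑ t ∈ I, (A t).indicator (fun _ => (1 : ENNReal)) y with hf
  have hfm : Measurable f :=
    Finset.measurable_fun_sum _ (fun t ht => (measurable_const.indicator (hA t ht)))
  have hint : ∫⁻ y, f y = ∑ t ∈ I, volume (A t) := by
    rw [hf, lintegral_finsetSum _ (fun t ht => (measurable_const.indicator (hA t ht)))]
    refine Finset.sum_congr rfl (fun t ht => ?_)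
    rw [lintegral_indicator_const (hA t ht), one_mul]
  have hsub : G ⊆ {y | ENNReal.ofReal q ≤ f y} := by
    intro y hy
    obtain ⟨Z, hZI, hZc, hZ⟩ := hG y hy
    rw [Set.mem_ofPred_eq]
    have h1 : f y = ((I.filter (fun t => y ∈ A t)).card : ENNReal) := by
      simp only [hf, Set.indicator_apply]
      rw [Finset.sum_ite, Finset.sum_const_zero, add_zero, Finset.sum_const, nsmul_eq_mul, mul_one]
    have h2 : I.card - Z.card ≤ (I.filter (fun t => y ∈ A t)).card := by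
      have h3 : I \ Z ⊆ I.filter (fun t => y ∈ A t) := by
        intro t ht
        rw [Finset.mem_sdiff] at ht
        exact Finset.mem_filter.mpr ⟨ht.1, hZ t ht.1 ht.2⟩
      have h4 := Finset.card_le_card h3
      rwa [Finset.card_sdiff_of_subset hZI] at h4
    have h5 : q ≤ ((I.filter (fun t => y ∈ A t)).card : ℝ) := by
      have h6 : (I.card : ℝ) - Z.card ≤ ((I.filter (fun t => y ∈ A t)).card : ℝ) := by
        have : I.card ≤ (I.filter (fun t => y ∈ A t)).card + Z.card := by omega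
        have : (I.card : ℝ) ≤ (I.filter (fun t => y ∈ A t)).card + Z.card := by exact_mod_cast this
        linarith
      linarith
    rw [h1]
    rw [← ENNReal.ofReal_natCast]
    exact ENNReal.ofReal_le_ofReal h5
  have hmk := mul_meas_ge_le_lintegral (μ := volume) hfm (ENNReal.ofReal q)
  have hle : ENNReal.ofReal q * volume G ≤ ∑ t ∈ I, volume (A t) := by
    rw [← hint]
    exact le_trans (mul_le_mul_right (measure_mono hsub) _) hmk
  have htop : ∑ t ∈ I, volume (A t) ≠ ⊤ := by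
    rw [ENNReal.sum_ne_top]
    exact hfin
  have h7 := ENNReal.toReal_mono htop hle
  rw [ENNReal.toReal_mul, ENNReal.toReal_ofReal hq.le, ENNReal.toReal_sum hfin] at h7
  rw [le_div_iff₀ hq]
  linarith

theorem step_lemma (a T R c : ℕ) (ha : 1 ≤ a) (hR : 65 * R < T) (y0 y1 σ w : ℝ) (hσ : 0 < σ)
    (hy : y0 ≤ y1) (hw : 0 ≤ w)
    (h1 : 2 * (3 / 2 : ℝ) ^ (320 * a) + 4 ≤
      (27 / 32) ^ (128 * a * T) * (3 / 2) ^ c * (σ * y0 - w))
    (h2 : (27 / 32 : ℝ) ^ (64 * a * (T + 1)) * (3 / 2) ^ c * (w + 1) ≤ 1) :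
    Phi y0 y1 σ w ≤
      (2 * w / σ) * (((σ * (y1 - y0) + 2 * w) / 2 ^ (c + 320 * a * (2 * T) + 1) + 1) *
        cnt (c + 320 * a * (2 * T) + 1) (Fail a (2 * T) c R)) +
      (∑ t ∈ Finset.Ioc T (2 * T),
        Phi y0 y1 ((27 / 32) ^ (64 * a * t) * ((3 / 2) ^ c * σ)) (2 * (3 / 2) ^ (320 * a) + 1)) /
        ((T : ℝ) - 65 * R) := by
  classical
  set w' : ℝ := 2 * (3 / 2) ^ (320 * a) + 1 with hw'
  set I : Finset ℕ := Finset.Ioc T (2 * T) with hI
  set τ : ℕ → ℝ := fun t => (27 / 32) ^ (64 * a * t) * ((3 / 2) ^ c * σ) with hτ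
  set A : ℕ → Set ℝ := fun t => {y : ℝ | y ∈ Set.Icc y0 y1 ∧ τ t * y ∈ U w'} with hAdef
  set N : Set ℝ := {y : ℝ | y ∈ Set.Icc y0 y1 ∧ ∃ n : ℤ, Fail a (2 * T) c R n ∧ |σ * y - n| ≤ w}
    with hN
  set S : Set ℝ := {y : ℝ | y ∈ Set.Icc y0 y1 ∧ σ * y ∈ U w} with hS
  have hRT : (65 * (R : ℝ)) < T := by exact_mod_cast hR
  have hq : 0 < (T : ℝ) - 65 * R := by linarith
  have hcard : I.card = T := by
    rw [hI, Nat.card_Ioc]; omega
  have hmain : S ⊆ N ∪ (S \ N) := by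
    intro y hy
    by_cases hyN : y ∈ N
    · exact Or.inl hyN
    · exact Or.inr ⟨hy, hyN⟩
  have hG : ∀ y ∈ S \ N, ∃ Z : Finset ℕ, Z ⊆ I ∧ (T : ℝ) - 65 * R ≤ (I.card : ℝ) - Z.card ∧
      ∀ t ∈ I, t ∉ Z → y ∈ A t := by
    rintro y ⟨⟨hyI, n, hn, hd⟩, hyN⟩
    have hF : ¬ Fail a (2 * T) c R n := fun hF => hyN ⟨hyI, n, hF, hd⟩
    obtain ⟨Z, hZI, hZc, hZ⟩ := step_point a T R c ha y0 y1 σ w hσ hw h1 h2 y hyI n hn hd hF
    refine ⟨Z, hZI, ?_, fun t ht htZ => ⟨hyI, hZ t ht htZ⟩⟩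
    rw [hcard]
    have : (Z.card : ℝ) ≤ 65 * R := by exact_mod_cast hZc
    linarith
  have hmk := markov_family I A (fun t _ => measurable_window _ _ _ _)
    (fun t _ => Phi_set_ne_top _ _ _ _) (S \ N) _ hq hG
  have hNt := nterm (c + 320 * a * (2 * T) + 1) (Fail a (2 * T) c R) (fail_per a (2 * T) c R)
    y0 y1 σ w hσ hy hw
  have hIcc : volume (Set.Icc y0 y1) ≠ ⊤ := by
    rw [Real.volume_Icc]; exact ENNReal.ofReal_ne_top
  have hNtop : volume N ≠ ⊤ := ne_top_of_le_ne_top hIcc (measure_mono fun y hy => hy.1)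
  have hGtop : volume (S \ N) ≠ ⊤ :=
    ne_top_of_le_ne_top hIcc (measure_mono fun y hy => hy.1.1)
  have hfinal : (volume S).toReal ≤ (volume N).toReal + (volume (S \ N)).toReal := by
    rw [← ENNReal.toReal_add hNtop hGtop]
    refine ENNReal.toReal_mono (ENNReal.add_ne_top.mpr ⟨hNtop, hGtop⟩) ?_
    exact le_trans (measure_mono hmain) (measure_union_le _ _)
  calc Phi y0 y1 σ w = (volume S).toReal := rfl
    _ ≤ (volume N).toReal + (volume (S \ N)).toReal := hfinal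
    _ ≤ _ := add_le_add hNt hmk

end Beanstalk
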