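import Pool.Agent.Work.MP_8093a3_co.StepLemma
import Pool.Agent.Work.MP_8093a3_co.ParamN
import Pool.Agent.Work.MP_8093a3_co.ParamG

/-!
# Module StepParam: the recursion with the parameters inserted

* `step_param`: for `m ≥ M(C,ε)`, `c ≤ C`, `1 ≤ y0`, `y0 + 1 ≤ y1`, `w ≤ pw m`, `0 ≤ w`:
  with `σ = (2/3)^c(32/27)^m`, `ℓ = y1-y0`, `s = Nat.log 2 m`, if every
  `Phi y0 y1 ((32/27)^{m'}) (pw m') ≤ b ℓ` for the `m' = m - 64 (pa m) t`,
  `t ∈ Ioc (pT m) (2 pT m)`, then `Phi y0 y1 σ w ≤ (ε/(s+1)² + (1+4/s³) b) ℓ`.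
  Proof: `step_lemma` with `a = pa m`, `T = pT m`, `R = pR m` (hypotheses from `param_idx`,
  `param_G`; (h1), (h2) for `w ≤ pw m`). First term: with `Q = 2^{c+320a(2T)}`,
  `cnt ≤ C(2T,R) f^R Q` (`fail_count`), `C(2T,R) ≤ 2^{2T}`, and
  `(2w/σ)((σℓ+2w)/(2Q) + 1) Q = 2w [ℓ/2 + w/σ + Q/σ] ≤ 2w[ℓ/2+ℓ/2+ℓ/2] ≤ 4wℓ`
  by `2w ≤ σ`, `2Q ≤ σ`, `ℓ ≥ 1`; then `param_N`. Second term: `(27/32)^{64at}(3/2)^cσ =
  (32/27)^{m-64at}`; `Phi_mono` (radius `2(3/2)^{320a}+1 ≤ pw m'`), each summand `≤ bℓ`, there are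
  `T` of them, `T/(T-65R) ≤ 1+4/s³`.
-/

namespace Beanstalk

theorem step_param (C : ℕ) (ε : ℝ) (hε : 0 < ε) : ∃ M : ℕ, ∀ m ≥ M, ∀ c ≤ C,
    ∀ y0 y1 w b : ℝ, 1 ≤ y0 → y0 + 1 ≤ y1 → 0 ≤ w → w ≤ pw m → 0 ≤ b →
      (∀ t ∈ Finset.Ioc (pT m) (2 * pT m),
        Phi y0 y1 ((32 / 27) ^ (m - 64 * pa m * t)) (pw (m - 64 * pa m * t)) ≤ b * (y1 - y0)) →
      Phi y0 y1 ((2 / 3) ^ c * (32 / 27) ^ m) w ≤
        (ε / ((Nat.log 2 m : ℝ) + 1) ^ 2 + (1 + 4 / (Nat.log 2 m : ℝ) ^ 3) * b) * (y1 - y0) := by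
  obtain ⟨M1, h1⟩ := param_idx 1
  obtain ⟨M2, h2⟩ := param_N ε hε
  obtain ⟨M3, h3⟩ := param_G C
  refine ⟨max M1 (max M2 M3), ?_⟩
  intro m hm c hc y0 y1 w b hy0 hy01 hw0 hw hb hPhi
  have hm1 : M1 ≤ m := le_trans (le_max_left _ _) hm
  have hm2 : M2 ≤ m := le_trans (le_trans (le_max_left _ _) (le_max_right _ _)) hm
  have hm3 : M3 ≤ m := le_trans (le_trans (le_max_right _ _) (le_max_right _ _)) hm
  obtain ⟨-, hs1, -, ha1, hT1, hRT, hratio, -, -, hidx, -⟩ := h1 m hm1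
  have hN := h2 m hm2
  obtain ⟨g2, g1, g3, g4⟩ := h3 m hm3 c hc
  set σ : ℝ := (2 / 3) ^ c * (32 / 27) ^ m with hσdef
  have hσ : 0 < σ := by positivity
  set ℓ : ℝ := y1 - y0 with hℓdef
  have hℓ : 1 ≤ ℓ := by linarith
  have hRT' : (65 * (pR m : ℝ)) < (pT m : ℝ) := by exact_mod_cast hRT
  have hden : 0 < (pT m : ℝ) - 65 * (pR m : ℝ) := by linarith
  -- hypotheses of the step lemma
  have H1 : 2 * (3 / 2 : ℝ) ^ (320 * pa m) + 4 ≤
      (27 / 32) ^ (128 * pa m * pT m) * (3 / 2) ^ c * (σ * y0 - w) := by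
    refine le_trans (g1 y0 hy0) ?_
    have hpos : (0 : ℝ) ≤ (27 / 32) ^ (128 * pa m * pT m) * (3 / 2) ^ c := by positivity
    have : σ * y0 - pw m ≤ σ * y0 - w := by linarith
    exact mul_le_mul_of_nonneg_left this hpos
  have H2 : (27 / 32 : ℝ) ^ (64 * pa m * (pT m + 1)) * (3 / 2) ^ c * (w + 1) ≤ 1 := by
    refine le_trans ?_ g2
    have hpos : (0 : ℝ) ≤ (27 / 32) ^ (64 * pa m * (pT m + 1)) * (3 / 2) ^ c := by positivity
    exact mul_le_mul_of_nonneg_left (by linarith) hpos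
  have hstep := step_lemma (pa m) (pT m) (pR m) c ha1 hRT y0 y1 σ w hσ (by linarith) hw0 H1 H2
  refine le_trans hstep ?_
  have hsplit : (ε / ((Nat.log 2 m : ℝ) + 1) ^ 2 + (1 + 4 / (Nat.log 2 m : ℝ) ^ 3) * b) * ℓ =
      (ε / ((Nat.log 2 m : ℝ) + 1) ^ 2) * ℓ + (1 + 4 / (Nat.log 2 m : ℝ) ^ 3) * b * ℓ := by ring
  rw [hsplit]
  refine add_le_add ?_ ?_
  · -- exceptional numbers
    have hc1 := fail_count (pa m) (2 * pT m) c (pR m)
    set F : ℝ := (6 * (9 / 10 : ℝ) ^ (pa m)) ^ (pR m) with hF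
    have hF0 : 0 ≤ F := by positivity
    set Q : ℝ := 2 ^ (c + 320 * pa m * (2 * pT m)) with hQ
    have hQ0 : 0 < Q := by positivity
    have hchoose : (((2 * pT m).choose (pR m) : ℕ) : ℝ) ≤ 2 ^ (2 * pT m) := by
      have := Nat.choose_le_two_pow (2 * pT m) (pR m)
      exact_mod_cast this
    have hcnt : (cnt (c + 320 * pa m * (2 * pT m) + 1) (Fail (pa m) (2 * pT m) c (pR m)) : ℝ) ≤
        2 ^ (2 * pT m) * F * Q := by
      refine le_trans hc1 ?_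
      have : 0 ≤ F * Q := by positivity
      nlinarith [mul_le_mul_of_nonneg_right hchoose this]
    have hpow : (2 : ℝ) ^ (c + 320 * pa m * (2 * pT m) + 1) = 2 * Q := by
      rw [pow_succ, hQ]; ring
    rw [hpow] at g4 ⊢
    have hfac : 0 ≤ (σ * ℓ + 2 * w) / (2 * Q) + 1 := by positivity
    have hA : (2 * w / σ) * (((σ * ℓ + 2 * w) / (2 * Q) + 1) *
        cnt (c + 320 * pa m * (2 * pT m) + 1) (Fail (pa m) (2 * pT m) c (pR m))) ≤
        (2 * w / σ) * (((σ * ℓ + 2 * w) / (2 * Q) + 1) * (2 ^ (2 * pT m) * F * Q)) := by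
      refine mul_le_mul_of_nonneg_left ?_ (by positivity)
      exact mul_le_mul_of_nonneg_left hcnt hfac
    refine le_trans hA ?_
    have hEq : (2 * w / σ) * (((σ * ℓ + 2 * w) / (2 * Q) + 1) * (2 ^ (2 * pT m) * F * Q)) =
        (2 * w * 2 ^ (2 * pT m) * F) * (ℓ / 2 + w / σ + Q / σ) := by
      field_simp
    rw [hEq]
    have hw1 : w / σ ≤ 1 / 2 := by
      rw [div_le_iff₀ hσ]; linarith [g3]
    have hq1 : Q / σ ≤ 1 / 2 := by
      rw [div_le_iff₀ hσ]; linarith [g4]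
    have hsum : ℓ / 2 + w / σ + Q / σ ≤ 2 * ℓ := by linarith
    calc (2 * w * 2 ^ (2 * pT m) * F) * (ℓ / 2 + w / σ + Q / σ)
        ≤ (2 * w * 2 ^ (2 * pT m) * F) * (2 * ℓ) :=
          mul_le_mul_of_nonneg_left hsum (by positivity)
      _ = (4 * w * 2 ^ (2 * pT m) * F) * ℓ := by ring
      _ ≤ (4 * pw m * 2 ^ (2 * pT m) * F) * ℓ := by
          refine mul_le_mul_of_nonneg_right ?_ (by linarith)
          refine mul_le_mul_of_nonneg_right ?_ hF0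
          refine mul_le_mul_of_nonneg_right ?_ (by positivity)
          linarith
      _ ≤ (ε / ((Nat.log 2 m : ℝ) + 1) ^ 2) * ℓ :=
          mul_le_mul_of_nonneg_right hN (by linarith)
  · -- recursion term
    have hsum : ∑ t ∈ Finset.Ioc (pT m) (2 * pT m),
        Phi y0 y1 ((27 / 32) ^ (64 * pa m * t) * ((3 / 2) ^ c * σ))
          (2 * (3 / 2) ^ (320 * pa m) + 1) ≤ (pT m : ℝ) * (b * ℓ) := by
      have hcard : (Finset.Ioc (pT m) (2 * pT m)).card = pT m := by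
        rw [Nat.card_Ioc]; omega
      calc ∑ t ∈ Finset.Ioc (pT m) (2 * pT m),
          Phi y0 y1 ((27 / 32) ^ (64 * pa m * t) * ((3 / 2) ^ c * σ))
            (2 * (3 / 2) ^ (320 * pa m) + 1)
          ≤ ∑ t ∈ Finset.Ioc (pT m) (2 * pT m), b * ℓ := by
            refine Finset.sum_le_sum ?_
            intro t ht
            obtain ⟨i1, -, -, -, i5⟩ := hidx t ht
            have hscale : (27 / 32 : ℝ) ^ (64 * pa m * t) * ((3 / 2) ^ c * σ) =
                (32 / 27) ^ (m - 64 * pa m * t) := by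
              have e1 : (32 / 27 : ℝ) ^ m =
                  (32 / 27) ^ (m - 64 * pa m * t) * (32 / 27) ^ (64 * pa m * t) := by
                rw [← pow_add, Nat.sub_add_cancel i1]
              have e2 : (27 / 32 : ℝ) ^ (64 * pa m * t) * (32 / 27) ^ (64 * pa m * t) = 1 := by
                rw [← mul_pow]; norm_num
              have e3 : (3 / 2 : ℝ) ^ c * (2 / 3) ^ c = 1 := by
                rw [← mul_pow]; norm_num
              rw [hσdef, e1]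
              calc (27 / 32 : ℝ) ^ (64 * pa m * t) * ((3 / 2) ^ c * ((2 / 3) ^ c *
                    ((32 / 27) ^ (m - 64 * pa m * t) * (32 / 27) ^ (64 * pa m * t))))
                  = ((27 / 32 : ℝ) ^ (64 * pa m * t) * (32 / 27) ^ (64 * pa m * t)) *
                    ((3 / 2 : ℝ) ^ c * (2 / 3) ^ c) * (32 / 27) ^ (m - 64 * pa m * t) := by ring
                _ = (32 / 27) ^ (m - 64 * pa m * t) := by rw [e2, e3]; ring
            rw [hscale]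
            exact le_trans (Phi_mono _ _ _ _ _ i5) (hPhi t ht)
        _ = (pT m : ℝ) * (b * ℓ) := by
            rw [Finset.sum_const, hcard, nsmul_eq_mul]
    calc (∑ t ∈ Finset.Ioc (pT m) (2 * pT m),
        Phi y0 y1 ((27 / 32) ^ (64 * pa m * t) * ((3 / 2) ^ c * σ))
          (2 * (3 / 2) ^ (320 * pa m) + 1)) / ((pT m : ℝ) - 65 * (pR m : ℝ))
        ≤ ((pT m : ℝ) * (b * ℓ)) / ((pT m : ℝ) - 65 * (pR m : ℝ)) :=
          div_le_div_of_nonneg_right hsum hden.le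
      _ = ((pT m : ℝ) / ((pT m : ℝ) - 65 * (pR m : ℝ))) * (b * ℓ) := by ring
      _ ≤ (1 + 4 / (Nat.log 2 m : ℝ) ^ 3) * (b * ℓ) :=
          mul_le_mul_of_nonneg_right hratio (mul_nonneg hb (by linarith))
      _ = (1 + 4 / (Nat.log 2 m : ℝ) ^ 3) * b * ℓ := by ring

end Beanstalk
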