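import Pool.Agent.Work.MP_8093a3_co.TrajProps

/-!
# Module StepPoint: the pointwise step

* `step_point`: `¬ Fail` gives `n'` with `Path c c n n'` and a trajectory of `2T` blocks from `n'`
  with offset 0 and fewer than `R` bad blocks. Take `X`, `Z'` from `traj_exact` and
  `Z = Z' ∩ Ioc T (2T)`. For `t ∈ Ioc T (2T)`, `t ∉ Z`, put `λ = (27/32)^{64at}`.
  Then `|X t - λ n'| ≤ 2(3/2)^{320a}`, `|n' - (3/2)^c n| ≤ (3/2)^c` (`path_err`, type `(c,c)`),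
  `|(3/2)^c n - (3/2)^c σ y| ≤ (3/2)^c w`; since `λ ≤ (27/32)^{64a(T+1)}`, (h2) gives
  `|X t - λ (3/2)^c σ y| ≤ 2(3/2)^{320a} + 1`. Also
  `X t ≥ λ(3/2)^c σ y - 2(3/2)^{320a} - 1 ≥ (27/32)^{128aT}(3/2)^c σ y0 - 2(3/2)^{320a} - 1 ≥ 3` by
  (h1) (note that (h1) with `w ≥ 0` gives `(27/32)^{128aT}(3/2)^c σ y0 ≥ 2(3/2)^{320a}+4`,
  and `y ≥ y0 > 0`). So `D (X t)` by `D_path` applied to the composed path `n → n' → X t`.
-/

namespace Beanstalk

theorem step_point (a T R c : ℕ) (ha : 1 ≤ a) (y0 y1 σ w : ℝ) (hσ : 0 < σ) (hw : 0 ≤ w)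
    (h1 : 2 * (3 / 2 : ℝ) ^ (320 * a) + 4 ≤
      (27 / 32) ^ (128 * a * T) * (3 / 2) ^ c * (σ * y0 - w))
    (h2 : (27 / 32 : ℝ) ^ (64 * a * (T + 1)) * (3 / 2) ^ c * (w + 1) ≤ 1)
    (y : ℝ) (hy : y ∈ Set.Icc y0 y1) (n : ℤ) (hn : D n) (hd : |σ * y - n| ≤ w)
    (hF : ¬ Fail a (2 * T) c R n) :
    ∃ Z : Finset ℕ, Z ⊆ Finset.Ioc T (2 * T) ∧ Z.card ≤ 65 * R ∧
      ∀ t ∈ Finset.Ioc T (2 * T), t ∉ Z →
        (27 / 32 : ℝ) ^ (64 * a * t) * ((3 / 2) ^ c * σ) * y ∈ U (2 * (3 / 2) ^ (320 * a) + 1) := by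
  have hF' : ∃ n', Path c c n n' ∧ Traj a (2 * T) n' 0 R := by
    by_contra hcon
    exact hF ⟨hn.1, hcon⟩
  obtain ⟨n', hpc, htr⟩ := hF'
  obtain ⟨X, Z', hZ', hZ'c, hX⟩ := traj_exact a (2 * T) R ha n' htr
  refine ⟨Z' ∩ Finset.Ioc T (2 * T), Finset.inter_subset_right,
    le_trans (Finset.card_le_card Finset.inter_subset_left) hZ'c, ?_⟩
  intro t ht htZ
  have ht' := Finset.mem_Ioc.mp ht
  have htZ' : t ∉ Z' := fun h => htZ (Finset.mem_inter.mpr ⟨h, ht⟩)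
  obtain ⟨hp, he⟩ := hX t (Finset.mem_Icc.mpr ⟨by omega, by omega⟩) htZ'
  set lam : ℝ := (27 / 32) ^ (64 * a * t) with hlam
  have hlam0 : 0 < lam := by positivity
  have hlam1 : lam ≤ (27 / 32) ^ (64 * a * (T + 1)) :=
    pow_le_pow_of_le_one (by norm_num) (by norm_num)
      (Nat.mul_le_mul_left _ (by omega))
  have hlam2 : (27 / 32 : ℝ) ^ (128 * a * T) ≤ lam := by
    refine pow_le_pow_of_le_one (by norm_num) (by norm_num) ?_
    calc 64 * a * t ≤ 64 * a * (2 * T) := Nat.mul_le_mul_left _ ht'.2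
      _ = 128 * a * T := by ring
  have hc0 : (0 : ℝ) < (3 / 2) ^ c := by positivity
  -- the prefix
  have hpe := path_err hpc
  have hpe' : |(n' : ℝ) - (3 / 2) ^ c * n| ≤ (3 / 2) ^ c := by
    have e : (3 : ℝ) ^ c / 2 ^ c = (3 / 2) ^ c := by rw [div_pow]
    rw [e] at hpe
    linarith
  set w' : ℝ := 2 * (3 / 2) ^ (320 * a) with hw'
  -- distance of X t to the target point
  have hdist : |(X t : ℝ) - lam * ((3 / 2) ^ c * σ) * y| ≤ w' + 1 := by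
    have e : (X t : ℝ) - lam * ((3 / 2) ^ c * σ) * y =
        ((X t : ℝ) - lam * n') + lam * ((n' : ℝ) - (3 / 2) ^ c * n) +
          lam * (3 / 2) ^ c * (-(σ * y - n)) := by ring
    rw [e]
    have a1 : |lam * ((n' : ℝ) - (3 / 2) ^ c * n)| ≤ lam * (3 / 2) ^ c := by
      rw [abs_mul, abs_of_pos hlam0]
      exact mul_le_mul_of_nonneg_left hpe' hlam0.le
    have a2 : |lam * (3 / 2) ^ c * (-(σ * y - n))| ≤ lam * (3 / 2) ^ c * w := by
      rw [abs_mul, abs_of_pos (mul_pos hlam0 hc0), abs_neg]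
      exact mul_le_mul_of_nonneg_left hd (mul_pos hlam0 hc0).le
    have a3 : lam * (3 / 2) ^ c * (w + 1) ≤ 1 := by
      refine le_trans ?_ h2
      refine mul_le_mul_of_nonneg_right ?_ (by linarith)
      exact mul_le_mul_of_nonneg_right hlam1 hc0.le
    have a4 := abs_add_le (((X t : ℝ) - lam * n') + lam * ((n' : ℝ) - (3 / 2) ^ c * n))
      (lam * (3 / 2) ^ c * (-(σ * y - n)))
    have a5 := abs_add_le ((X t : ℝ) - lam * n') (lam * ((n' : ℝ) - (3 / 2) ^ c * n))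
    have a6 : lam * (3 / 2) ^ c * (w + 1) = lam * (3 / 2) ^ c * w + lam * (3 / 2) ^ c := by ring
    linarith
  -- positivity
  have hlow : w' + 4 ≤ lam * ((3 / 2) ^ c * σ) * y := by
    have b0 : 0 < (27 / 32 : ℝ) ^ (128 * a * T) * (3 / 2) ^ c := by positivity
    have b1 : 0 < σ * y0 - w := by
      by_contra hcon
      push Not at hcon
      have : (27 / 32 : ℝ) ^ (128 * a * T) * (3 / 2) ^ c * (σ * y0 - w) ≤ 0 :=
        mul_nonpos_of_nonneg_of_nonpos b0.le hcon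
      have b2 : 0 < w' := by positivity
      linarith
    have b3 : σ * y0 ≤ σ * y := mul_le_mul_of_nonneg_left hy.1 hσ.le
    have b4 : 0 ≤ σ * y := by linarith
    calc w' + 4 ≤ (27 / 32 : ℝ) ^ (128 * a * T) * (3 / 2) ^ c * (σ * y0 - w) := h1
      _ ≤ (27 / 32 : ℝ) ^ (128 * a * T) * (3 / 2) ^ c * (σ * y) :=
          mul_le_mul_of_nonneg_left (by linarith) b0.le
      _ ≤ lam * (3 / 2) ^ c * (σ * y) :=
          mul_le_mul_of_nonneg_right (mul_le_mul_of_nonneg_right hlam2 hc0.le) b4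
      _ = lam * ((3 / 2) ^ c * σ) * y := by ring
  have hX3 : 3 ≤ X t := by
    have : (3 : ℝ) ≤ X t := by
      have := (abs_le.mp hdist).1
      linarith
    exact_mod_cast this
  refine ⟨X t, D_path (path_trans hpc hp) hn hX3, ?_⟩
  rw [abs_sub_comm]
  exact hdist

end Beanstalk
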