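import Pool.Agent.Work.MP_8093a3_co.StepParam
import Pool.Agent.Work.MP_8093a3_co.BaseLemma
import Pool.Agent.Work.MP_8093a3_co.ParamB

/-!
# Module ThmC: small density of `D` above a long `W`-full interval, all scales

* `thmC`: let `ε' = ε/2`. Take `M` such that for `m ≥ M` `step_param` holds with `C = 0` and
  `ε'/100` in place of `ε`, `s ≥ 1000`, `param_B` with `ε'`, and the facts of `param_idx`,
  `param_G` for `C = 0`. Put `L = 2^{5·2M+2}` and `r = pw (2M) + (3/2)^{6M}` (enlarge if
  convenient). Claim: for all `m ≥ M`, `Phi y0 y1 ((32/27)^m) (pw m) ≤ ε'(2 - 1/log m) ℓ`.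
  For `M ≤ m ≤ 2M`: `base_lemma`: with `q = (1073/1000)(40/41)^3`,
  bound `≤ (2w/σ)((σℓ+2w)/2^{5m+1}+1) 3 q^m 2^{5m} = 3q^m w [ℓ + 2w/σ + 2·2^{5m}/σ]
  ≤ 3 q^m w · 3ℓ ≤ 12 w q^m ℓ ≤ ε' ℓ ≤ ε'(2-1/log m)ℓ` (`σ ≥ 1`, `2w ≤ σ`, `ℓ ≥ 2^{5m+2}`).
  For `m > 2M`: the `m'` satisfy `M ≤ m/2 ≤ m' ≤ 0.98 m`; by induction `b = ε'(2 - 1/log(0.98m))`.
  Need `ε'/(100 (s+1)²) + (1+4/s³) ε'(2-1/log(0.98 m)) ≤ ε'(2 - 1/log m)`:
  `1/log(0.98m) - 1/log m ≥ 0.0202/(log m)² ≥ 0.0202/(0.49 (s+1)²) ≥ 0.04/(s+1)²`, while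
  `8/s³ ≤ 0.01/(s+1)²` for `s ≥ 1000`.
-/

namespace Beanstalk

/-- The scalar inequality behind the potential `2 - 1/log m`. -/
theorem potential_ineq (e x s δ : ℝ) (he : 0 < e) (hs : 1000 ≤ s) (hx : 1 < x)
    (hxs : x ≤ 7 / 10 * (s + 1)) (hδ : 1 / 50 ≤ δ) (hδ' : δ < x) :
    e / 100 / (s + 1) ^ 2 + (1 + 4 / s ^ 3) * (e * (2 - 1 / (x - δ))) ≤ e * (2 - 1 / x) := by
  have hs0 : 0 < s := by linarith
  have hx0 : 0 < x := by linarith
  have hxd : 0 < x - δ := by linarith
  have h1 : (1 / 50) / (49 / 100 * (s + 1) ^ 2) ≤ 1 / (x - δ) - 1 / x := by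
    have e1 : 1 / (x - δ) - 1 / x = δ / (x * (x - δ)) := by
      field_simp
      ring
    rw [e1]
    have hpos : 0 < x * (x - δ) := mul_pos hx0 hxd
    have hle : x * (x - δ) ≤ 49 / 100 * (s + 1) ^ 2 := by nlinarith
    exact div_le_div₀ (by linarith) hδ hpos hle
  have h2 : 4 / s ^ 3 * (2 - 1 / (x - δ)) ≤ 1 / 100 / (s + 1) ^ 2 := by
    have h3 : 4 / s ^ 3 * (2 - 1 / (x - δ)) ≤ 4 / s ^ 3 * 2 := by
      refine mul_le_mul_of_nonneg_left ?_ (by positivity)
      have : 0 < 1 / (x - δ) := by positivity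
      linarith
    refine le_trans h3 ?_
    rw [div_mul_eq_mul_div, div_le_div_iff₀ (by positivity) (by positivity)]
    have : (s + 1) ^ 2 ≤ (101 / 100 * s) ^ 2 := by
      refine pow_le_pow_left₀ (by linarith) (by linarith) 2
    nlinarith [mul_pos (mul_pos hs0 hs0) hs0, sq_nonneg s]
  have h4 : (1 / 50 : ℝ) / (49 / 100 * (s + 1) ^ 2) = 200 / 49 * (1 / 100 / (s + 1) ^ 2) := by
    field_simp
    norm_num
  have h5 : 0 < 1 / 100 / (s + 1) ^ 2 := by positivity
  have h6 : 1 / 100 / (s + 1) ^ 2 + (1 + 4 / s ^ 3) * (2 - 1 / (x - δ)) ≤ 2 - 1 / x := by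
    have : (1 + 4 / s ^ 3) * (2 - 1 / (x - δ)) =
        (2 - 1 / (x - δ)) + 4 / s ^ 3 * (2 - 1 / (x - δ)) := by ring
    rw [this]
    rw [h4] at h1
    linarith
  calc e / 100 / (s + 1) ^ 2 + (1 + 4 / s ^ 3) * (e * (2 - 1 / (x - δ)))
      = e * (1 / 100 / (s + 1) ^ 2 + (1 + 4 / s ^ 3) * (2 - 1 / (x - δ))) := by ring
    _ ≤ e * (2 - 1 / x) := mul_le_mul_of_nonneg_left h6 he.le

theorem WFull_mono {x y x' y' : ℝ} (h : WFull x y) (h1 : x ≤ x') (h2 : y' ≤ y) : WFull x' y' :=
  fun n hn hx hy => h n hn (le_trans h1 hx) (le_trans hy h2)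

theorem thmC (ε : ℝ) (hε : 0 < ε) : ∃ (M : ℕ) (L r : ℝ), 1 ≤ L ∧ 0 ≤ r ∧
    ∀ y0 y1 : ℝ, 1 ≤ y0 → y0 + L ≤ y1 → WFull (y0 - r) (y1 + r) →
      ∀ m ≥ M, Phi y0 y1 ((32 / 27) ^ m) (pw m) ≤ ε * (y1 - y0) := by
  set e : ℝ := ε / 2 with hedef
  have he : 0 < e := by positivity
  obtain ⟨M1, h1⟩ := step_param 0 (e / 100) (by positivity)
  obtain ⟨M2, h2⟩ := param_idx 1000
  obtain ⟨M3, h3⟩ := param_B e he
  obtain ⟨M4, h4⟩ := param_G 0
  set M : ℕ := max (max M1 M2) (max M3 M4) + 8 with hM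
  have hM1 : M1 ≤ M := by omega
  have hM2 : M2 ≤ M := by omega
  have hM3 : M3 ≤ M := by omega
  have hM4 : M4 ≤ M := by omega
  have hr0 : (0 : ℝ) ≤ pw (2 * M) + (3 / 2) ^ (6 * M) := by
    have := pw_pos (2 * M)
    positivity
  refine ⟨M, 2 ^ (10 * M + 2), pw (2 * M) + (3 / 2) ^ (6 * M), ?_, hr0, ?_⟩
  · exact one_le_pow₀ (by norm_num)
  intro y0 y1 hy0 hy01 hfull
  have hLone : (1 : ℝ) ≤ 2 ^ (10 * M + 2) := one_le_pow₀ (by norm_num)
  set ℓ : ℝ := y1 - y0 with hℓ
  have hℓL : (2 : ℝ) ^ (10 * M + 2) ≤ ℓ := by linarith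
  have hℓ1 : 1 ≤ ℓ := le_trans hLone hℓL
  have hlog2 : ∀ m : ℕ, M ≤ m → 2 < Real.log m := by
    intro m hm
    have h3m : (8 : ℝ) ≤ m := by
      have : 8 ≤ m := by omega
      exact_mod_cast this
    have h1 : Real.exp 1 < 2.7182818286 := Real.exp_one_lt_d9
    have h2 : Real.exp 2 = Real.exp 1 * Real.exp 1 := by
      rw [← Real.exp_add]; norm_num
    have h0 : 0 < Real.exp 1 := Real.exp_pos 1
    have : Real.exp 2 < m := by
      rw [h2]; nlinarith
    rwa [Real.lt_log_iff_exp_lt (by linarith)]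
  have hlog1 : ∀ m : ℕ, M ≤ m → 1 < Real.log m := fun m hm => by
    have := hlog2 m hm
    linarith
  have key : ∀ m : ℕ, M ≤ m →
      Phi y0 y1 ((32 / 27) ^ m) (pw m) ≤ e * (2 - 1 / Real.log m) * ℓ := by
    intro m
    induction m using Nat.strong_induction_on with
    | _ m ih =>
      intro hm
      have hlm := hlog1 m hm
      have hlinv : 1 / Real.log m ≤ 1 := by
        rw [div_le_one (by linarith)]; linarith
      obtain ⟨g2, g1, g3, g4⟩ := h4 m (le_trans hM4 hm) 0 le_rfl
      have hwpos := pw_pos m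
      by_cases hcase : m ≤ 2 * M
      · -- base
        have hw1 : pw m ≤ pw (2 * M) := pw_mono hcase
        have hpow : (3 / 2 : ℝ) ^ (3 * m) ≤ (3 / 2) ^ (6 * M) :=
          pow_le_pow_right₀ (by norm_num) (by omega)
        have hb := base_lemma m y0 y1 (pw m) (by linarith) (by linarith)
          (WFull_mono hfull (by linarith) (by linarith))
        refine le_trans hb ?_
        set σ : ℝ := (32 / 27) ^ m with hσdef
        have hσ1 : 1 ≤ σ := one_le_pow₀ (by norm_num)
        have hσ : 0 < σ := by linarith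
        set P : ℝ := 2 ^ (5 * m) with hP
        have hP0 : 0 < P := by positivity
        have hPL : 2 * P ≤ ℓ := by
          refine le_trans ?_ hℓL
          have : 2 * P = 2 ^ (5 * m + 1) := by rw [hP, pow_succ]; ring
          rw [this]
          exact pow_le_pow_right₀ (by norm_num) (by omega)
        have hq : (3 : ℝ) * (1073 / 1000) ^ m * (40 / 41) ^ (3 * m) * P =
            3 * ((1073 / 1000) * (40 / 41) ^ 3) ^ m * P := by
          rw [mul_pow, ← pow_mul]; ring
        rw [hq]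
        set q : ℝ := ((1073 / 1000) * (40 / 41) ^ 3) ^ m with hqdef
        have hq0 : 0 ≤ q := by positivity
        have hpow2 : (2 : ℝ) ^ (5 * m + 1) = 2 * P := by rw [hP, pow_succ]; ring
        rw [hpow2]
        have hEq : (2 * pw m / σ) * (((σ * (y1 - y0) + 2 * pw m) / (2 * P) + 1) * (3 * q * P)) =
            3 * q * pw m * (ℓ + 2 * pw m / σ + 2 * P / σ) := by
          rw [hℓ]
          field_simp
        rw [hEq]
        have ha : 2 * pw m / σ ≤ ℓ := by
          refine le_trans ?_ hℓ1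
          rw [div_le_one hσ]
          simpa using g3
        have hb' : 2 * P / σ ≤ ℓ := by
          refine le_trans ?_ hPL
          exact div_le_self (by positivity) hσ1
        have h12 := h3 m (le_trans hM3 hm)
        calc 3 * q * pw m * (ℓ + 2 * pw m / σ + 2 * P / σ)
            ≤ 3 * q * pw m * (3 * ℓ) :=
              mul_le_mul_of_nonneg_left (by linarith) (by positivity)
          _ ≤ (12 * pw m * q) * ℓ := by nlinarith [mul_nonneg hq0 (by linarith : (0:ℝ) ≤ pw m)]
          _ ≤ e * ℓ := mul_le_mul_of_nonneg_right h12 (by linarith)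
          _ ≤ e * (2 - 1 / Real.log m) * ℓ := by
              refine mul_le_mul_of_nonneg_right ?_ (by linarith)
              nlinarith
      · -- recursion
        push Not at hcase
        obtain ⟨hs, -, hm1, -, -, -, -, -, -, hidx, hlogs⟩ := h2 m (le_trans hM2 hm)
        have hm0 : (0 : ℝ) < m := by
          have : 0 < m := by omega
          exact_mod_cast this
        set x : ℝ := Real.log m with hx
        set s : ℝ := (Nat.log 2 m : ℝ) with hsdef
        have hsR : (1000 : ℝ) ≤ s := by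
          rw [hsdef]; exact_mod_cast hs
        set δ : ℝ := - Real.log (49 / 50) with hδdef
        have hδ : 1 / 50 ≤ δ := by
          have := Real.log_le_sub_one_of_pos (show (0 : ℝ) < 49 / 50 by norm_num)
          rw [hδdef]; linarith
        have hδ1 : δ < 1 := by
          rw [hδdef]
          have h1 : Real.log (50 / 49) ≤ 50 / 49 - 1 :=
            Real.log_le_sub_one_of_pos (by norm_num)
          have h2 : Real.log (50 / 49) = - Real.log (49 / 50) := by
            rw [← Real.log_inv]; norm_num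
          linarith
        have hxδ : Real.log (49 / 50 * m) = x - δ := by
          rw [Real.log_mul (by norm_num) (by linarith), hδdef]; ring
        have hpot := potential_ineq e x s δ he hsR hlm hlogs hδ (by linarith)
        have hb0 : 0 ≤ e * (2 - 1 / (x - δ)) := by
          have hx2 := hlog2 m hm
          have : 1 / (x - δ) ≤ 1 := by
            rw [div_le_one (by linarith)]; linarith
          exact mul_nonneg he.le (by linarith)
        have hrec := h1 m (le_trans hM1 hm) 0 le_rfl y0 y1 (pw m) (e * (2 - 1 / (x - δ)))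
          hy0 (by linarith) (by linarith) le_rfl hb0 ?_
        · have hc0 : ((2 / 3 : ℝ) ^ 0 * (32 / 27) ^ m) = (32 / 27) ^ m := by simp
          rw [hc0] at hrec
          refine le_trans hrec ?_
          refine mul_le_mul_of_nonneg_right ?_ (by linarith)
          exact hpot
        · intro t ht
          obtain ⟨i1, i2, i3, -, -⟩ := hidx t ht
          have hm'M : M ≤ m - 64 * pa m * t := by omega
          have hm'lt : m - 64 * pa m * t < m := by
            have h' : ((m - 64 * pa m * t : ℕ) : ℝ) < m := by linarith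
            exact_mod_cast h'
          have := ih _ hm'lt hm'M
          refine le_trans this ?_
          refine mul_le_mul_of_nonneg_right ?_ (by linarith)
          refine mul_le_mul_of_nonneg_left ?_ he.le
          have hl' := hlog1 _ hm'M
          have hle : Real.log ((m - 64 * pa m * t : ℕ) : ℝ) ≤ x - δ := by
            rw [← hxδ]
            refine Real.log_le_log ?_ i3
            by_contra hcon
            push Not at hcon
            have : Real.log ((m - 64 * pa m * t : ℕ) : ℝ) ≤ 0 := by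
              have h0 : ((m - 64 * pa m * t : ℕ) : ℝ) = 0 := le_antisymm hcon (by positivity)
              rw [h0]; simp
            linarith
          have : 1 / (x - δ) ≤ 1 / Real.log ((m - 64 * pa m * t : ℕ) : ℝ) :=
            one_div_le_one_div_of_le (by linarith) hle
          linarith
  intro m hm
  refine le_trans (key m hm) ?_
  have hlm := hlog1 m hm
  have : 0 < 1 / Real.log m := by positivity
  refine mul_le_mul_of_nonneg_right ?_ (by linarith)
  rw [hedef]
  nlinarith

end Beanstalk
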