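import Pool.Agent.Work.MP_8093a3_co.ThmC

/-!
# Module ThmF: the same with a bounded prefix

* `thmF`: `thmC` for `ε/4` (say) gives `L, r, M₀`; for `C` take `M` large: `step_param` with
  `m' ≥ m/2 ≥ M₀`, `b = ε/4`, `w = 1 ≤ pw m`.
-/

namespace Beanstalk

theorem thmF (ε : ℝ) (hε : 0 < ε) : ∃ (L r : ℝ), 1 ≤ L ∧ 0 ≤ r ∧
    ∀ C : ℕ, ∃ M : ℕ, ∀ y0 y1 : ℝ, 1 ≤ y0 → y0 + L ≤ y1 → WFull (y0 - r) (y1 + r) →
      ∀ c ≤ C, ∀ m ≥ M, Phi y0 y1 ((2 / 3) ^ c * (32 / 27) ^ m) 1 ≤ ε * (y1 - y0) := by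
  obtain ⟨M0, L, r, hL, hr, h0⟩ := thmC (ε / 4) (by positivity)
  refine ⟨L, r, hL, hr, ?_⟩
  intro C
  obtain ⟨M1, h1⟩ := step_param C (ε / 4) (by positivity)
  obtain ⟨M2, h2⟩ := param_idx 2
  refine ⟨max M1 (max M2 (2 * M0)), ?_⟩
  intro y0 y1 hy0 hy01 hfull c hc m hm
  have hm1 : M1 ≤ m := le_trans (le_max_left _ _) hm
  have hm2 : M2 ≤ m := le_trans (le_trans (le_max_left _ _) (le_max_right _ _)) hm
  have hm0 : 2 * M0 ≤ m := le_trans (le_trans (le_max_right _ _) (le_max_right _ _)) hm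
  obtain ⟨hs, -, -, -, -, -, -, -, -, hidx, -⟩ := h2 m hm2
  have hℓ : 0 < y1 - y0 := by linarith
  have hrec := h1 m hm1 c hc y0 y1 1 (ε / 4) hy0 (by linarith) (by norm_num) (pw_pos m)
    (by positivity) (fun t ht => by
      obtain ⟨-, i2, -, -, -⟩ := hidx t ht
      exact h0 y0 y1 hy0 hy01 hfull _ (by omega))
  refine le_trans hrec ?_
  refine mul_le_mul_of_nonneg_right ?_ hℓ.le
  have hs2 : (2 : ℝ) ≤ (Nat.log 2 m : ℝ) := by exact_mod_cast hs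
  set s : ℝ := (Nat.log 2 m : ℝ) with hsdef
  have a1 : ε / 4 / (s + 1) ^ 2 ≤ ε / 4 := by
    refine div_le_self (by positivity) ?_
    nlinarith
  have a2 : 4 / s ^ 3 ≤ 1 := by
    rw [div_le_one (by positivity)]
    have : (2 : ℝ) ^ 3 ≤ s ^ 3 := pow_le_pow_left₀ (by norm_num) hs2 3
    linarith
  nlinarith

end Beanstalk
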