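import Pool.Agent.Work.MP_8093a3_co.PathE

/-!
# Module TrajProps: exact times of a trajectory

Let `(X,O,bad)` be a trajectory of `S` blocks with `O 0 = 0`, `B = bad.card < m`.

* number of `t ∈ {1,…,S}` with `O t ≠ 0` is at most `65 B`: for such `t`, block `t-1` is bad, or
  it is good with `O (t-1) > 0` and decreases the offset by one. Potential argument: for all
  `t ≤ S`: `#{t' ∈ [1,t] : O t' ≠ 0} + O t ≤ 65 · #(bad ∩ [0,t))`. Step: bad block: left side
  grows by `≤ 1 + 64`, right side by 65; good block with offset 0: nothing changes; good block with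
  positive offset: `O` decreases by one, the count grows by at most one.
* type: `Path (192 a t + 2 a (O t)) (320 a t) n (X t)` for all `t ≤ S` (bad: `320a = 192a+2a·64`;
  good with positive offset: `190a = 192a - 2a`), by `path_trans` at the end; so at `O t = 0` the
  type is `(192at, 320at)`.
* error: let `μ_t = 3^{192at+2a O_t}/2^{320at}`, `err_t = |X_t - μ_t n|`, `E_t = err_t/3^{2aO_t}`.
  By `path_err` for the block `t` (with `k_t` steps), `err_{t+1} ≤ (3^{k_t}/2^{320a}) err_t +
  (3/2)^{k_t}`, and `k_t = 192a + 2a(O_{t+1}-O_t)`, so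
  `E_{t+1} ≤ (27/32)^{64a} E_t + (3/2)^{320a}` (here `(3/2)^{k_t}/3^{2aO_{t+1}} ≤ (3/2)^{320a}`,
  `k_t ≤ 320a`; and `3^{192a}/2^{320a} = (27/32)^{64a} ≤ 1/2`).
  Hence `E_t ≤ 2 (3/2)^{320a}` for all `t`. At `O_t = 0`, `μ_t = (27/32)^{64at}`.
-/

namespace Beanstalk

/-- error propagation through one block -/
theorem block_err {a k o o' t : ℕ} (ha : 1 ≤ a) {n x x' : ℤ} (hk : k + 2 * a * o = 192 * a + 2 * a * o')
    (hk' : k ≤ 320 * a) (hp : Path k (320 * a) x x')
    (h : |(x : ℝ) - 3 ^ (192 * a * t + 2 * a * o) / 2 ^ (320 * a * t) * n| ≤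
      2 * (3 / 2) ^ (320 * a) * 3 ^ (2 * a * o)) :
    |(x' : ℝ) - 3 ^ (192 * a * (t + 1) + 2 * a * o') / 2 ^ (320 * a * (t + 1)) * n| ≤
      2 * (3 / 2) ^ (320 * a) * 3 ^ (2 * a * o') := by
  have he := path_err hp
  set c : ℝ := 3 ^ k / 2 ^ (320 * a) with hc
  have hc0 : 0 < c := by positivity
  have e1 : (3 : ℝ) ^ (192 * a * (t + 1) + 2 * a * o') / 2 ^ (320 * a * (t + 1)) =
      c * (3 ^ (192 * a * t + 2 * a * o) / 2 ^ (320 * a * t)) := by
    have h1 : 192 * a * (t + 1) + 2 * a * o' = k + (192 * a * t + 2 * a * o) := by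
      have : 192 * a * (t + 1) = 192 * a * t + 192 * a := by ring
      omega
    have h2 : 320 * a * (t + 1) = 320 * a + 320 * a * t := by ring
    rw [h1, h2, pow_add (3 : ℝ) k, pow_add (2 : ℝ) (320 * a), hc]
    field_simp
  have e2 : (x' : ℝ) - 3 ^ (192 * a * (t + 1) + 2 * a * o') / 2 ^ (320 * a * (t + 1)) * n =
      ((x' : ℝ) - c * x) + c * ((x : ℝ) - 3 ^ (192 * a * t + 2 * a * o) / 2 ^ (320 * a * t) * n) := by
    rw [e1]; ring
  rw [e2]
  refine le_trans (abs_add_le _ _) ?_
  rw [abs_mul, abs_of_pos hc0]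
  set w0 : ℝ := (3 / 2) ^ (320 * a) with hw0
  have hw0pos : 0 < w0 := by positivity
  have h3 : (1 : ℝ) ≤ 3 ^ (2 * a * o') := one_le_pow₀ (by norm_num)
  have h4 : |(x' : ℝ) - c * x| ≤ w0 * 3 ^ (2 * a * o') := by
    have : (3 / 2 : ℝ) ^ k ≤ w0 := pow_le_pow_right₀ (by norm_num) hk'
    have h5 : w0 * 1 ≤ w0 * 3 ^ (2 * a * o') := mul_le_mul_of_nonneg_left h3 hw0pos.le
    linarith
  have h6 : c * 3 ^ (2 * a * o) ≤ 1 / 2 * 3 ^ (2 * a * o') := by
    have h7 : c * 3 ^ (2 * a * o) = (3 ^ (192 * a) / 2 ^ (320 * a)) * 3 ^ (2 * a * o') := by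
      rw [hc, div_mul_eq_mul_div, div_mul_eq_mul_div, ← pow_add, ← pow_add, hk]
    have h8 : (3 : ℝ) ^ (192 * a) / 2 ^ (320 * a) ≤ 1 / 2 := by
      have e3 : 192 * a = 3 * (64 * a) := by ring
      have e4 : 320 * a = 5 * (64 * a) := by ring
      have : (3 : ℝ) ^ (192 * a) / 2 ^ (320 * a) = (27 / 32) ^ (64 * a) := by
        rw [e3, e4, pow_mul (3 : ℝ) 3, pow_mul (2 : ℝ) 5, ← div_pow]; norm_num
      rw [this]
      calc (27 / 32 : ℝ) ^ (64 * a) ≤ (27 / 32) ^ 5 :=
            pow_le_pow_of_le_one (by positivity) (by norm_num) (by omega)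
        _ ≤ 1 / 2 := by norm_num
    rw [h7]
    exact mul_le_mul_of_nonneg_right h8 (by positivity)
  calc |(x' : ℝ) - c * x| + c * |(x : ℝ) - 3 ^ (192 * a * t + 2 * a * o) / 2 ^ (320 * a * t) * n|
      ≤ w0 * 3 ^ (2 * a * o') + c * (2 * w0 * 3 ^ (2 * a * o)) :=
        add_le_add h4 (mul_le_mul_of_nonneg_left h hc0.le)
    _ = w0 * 3 ^ (2 * a * o') + 2 * w0 * (c * 3 ^ (2 * a * o)) := by ring
    _ ≤ w0 * 3 ^ (2 * a * o') + 2 * w0 * (1 / 2 * 3 ^ (2 * a * o')) := by
        have := mul_le_mul_of_nonneg_left h6 (by positivity : (0 : ℝ) ≤ 2 * w0)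
        linarith
    _ = 2 * w0 * 3 ^ (2 * a * o') := by ring

theorem traj_exact (a S m : ℕ) (ha : 1 ≤ a) (n : ℤ) (h : Traj a S n 0 m) :
    ∃ (X : ℕ → ℤ) (Z : Finset ℕ), Z ⊆ Finset.Icc 1 S ∧ Z.card ≤ 65 * m ∧
      ∀ t ∈ Finset.Icc 1 S, t ∉ Z →
        Path (192 * a * t) (320 * a * t) n (X t) ∧
        |(X t : ℝ) - (27 / 32) ^ (64 * a * t) * n| ≤ 2 * (3 / 2) ^ (320 * a) := by
  classical
  obtain ⟨X, O, bad, hb, hbc, hX0, hO0, hbad, hg0, hg1⟩ := h
  by_cases hS : S = 0
  · refine ⟨X, ∅, by simp, by simp, ?_⟩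
    intro t ht
    rw [Finset.mem_Icc] at ht
    omega
  have hS0 : 0 < S := by omega
  -- every block is one of the three types
  have hblock : ∀ s < S, ∃ k, k + 2 * a * O s = 192 * a + 2 * a * O (s + 1) ∧ k ≤ 320 * a ∧
      Path k (320 * a) (X s) (X (s + 1)) := by
    intro s hs
    by_cases hsb : s ∈ bad
    · obtain ⟨h1, h2⟩ := hbad s hs hsb
      refine ⟨320 * a, ?_, le_rfl, h1⟩
      rw [h2]; ring
    · by_cases hO : O s = 0
      · obtain ⟨h1, h2⟩ := hg0 s hs hsb hO
        exact ⟨192 * a, by rw [h2, hO], by omega, h1⟩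
      · obtain ⟨h1, h2⟩ := hg1 s hs hsb (Nat.pos_of_ne_zero hO)
        refine ⟨190 * a, ?_, by omega, h1⟩
        rw [← h2]; ring
  have hn : Odd n := by
    obtain ⟨k, -, -, hp⟩ := hblock 0 hS0
    rw [← hX0]
    exact (path_odd hp).1
  have hinv : ∀ t ≤ S, Path (192 * a * t + 2 * a * O t) (320 * a * t) n (X t) ∧
      |(X t : ℝ) - 3 ^ (192 * a * t + 2 * a * O t) / 2 ^ (320 * a * t) * n| ≤
        2 * (3 / 2) ^ (320 * a) * 3 ^ (2 * a * O t) := by
    intro t
    induction t with
    | zero =>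
      intro _
      constructor
      · rw [hX0, hO0]
        simpa using Path.refl n hn
      · rw [hX0, hO0]
        simp only [mul_zero, add_zero, pow_zero, div_one, one_mul, sub_self, abs_zero, mul_one]
        positivity
    | succ t ih =>
      intro ht
      obtain ⟨ih1, ih2⟩ := ih (by omega)
      obtain ⟨k, hk, hk', hp⟩ := hblock t (by omega)
      constructor
      · have h3 := path_trans ih1 hp
        have e1 : 192 * a * t + 2 * a * O t + k = 192 * a * (t + 1) + 2 * a * O (t + 1) := by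
          have : 192 * a * (t + 1) = 192 * a * t + 192 * a := by ring
          omega
        have e2 : 320 * a * t + 320 * a = 320 * a * (t + 1) := by ring
        rw [e1, e2] at h3
        exact h3
      · exact block_err ha hk hk' hp ih2
  have hcount : ∀ t ≤ S, ((Finset.Icc 1 t).filter (fun t' => O t' ≠ 0)).card + O t ≤
      65 * (bad.filter (fun s => s < t)).card := by
    intro t
    induction t with
    | zero =>
      intro _
      simp [hO0]
    | succ t ih =>
      intro ht
      have ih' := ih (by omega)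
      have hI : Finset.Icc 1 (t + 1) = insert (t + 1) (Finset.Icc 1 t) := by
        ext x; rw [Finset.mem_insert, Finset.mem_Icc, Finset.mem_Icc]; omega
      have hcI : ((Finset.Icc 1 (t + 1)).filter (fun t' => O t' ≠ 0)).card ≤
          ((Finset.Icc 1 t).filter (fun t' => O t' ≠ 0)).card + (if O (t + 1) ≠ 0 then 1 else 0) := by
        rw [hI, Finset.filter_insert]
        by_cases hO : O (t + 1) ≠ 0
        · rw [if_pos hO, if_pos hO]
          exact Finset.card_insert_le _ _
        · rw [if_neg hO, if_neg hO]; omega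
      have hmono : (bad.filter (fun s => s < t)).card ≤ (bad.filter (fun s => s < t + 1)).card := by
        refine Finset.card_le_card ?_
        intro x hx
        rw [Finset.mem_filter] at hx ⊢
        exact ⟨hx.1, by omega⟩
      by_cases htb : t ∈ bad
      · obtain ⟨-, h2⟩ := hbad t (by omega) htb
        have hstrict : (bad.filter (fun s => s < t)).card + 1 ≤
            (bad.filter (fun s => s < t + 1)).card := by
          refine Finset.card_lt_card ?_
          rw [Finset.ssubset_iff_of_subset]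
          · exact ⟨t, Finset.mem_filter.mpr ⟨htb, by omega⟩, fun hh => by
              have := (Finset.mem_filter.mp hh).2; omega⟩
          · intro x hx
            rw [Finset.mem_filter] at hx ⊢
            exact ⟨hx.1, by omega⟩
        split_ifs at hcI <;> omega
      · by_cases hO : O t = 0
        · obtain ⟨-, h2⟩ := hg0 t (by omega) htb hO
          have hno : ¬ (O (t + 1) ≠ 0) := fun hh => hh h2
          rw [if_neg hno] at hcI
          omega
        · obtain ⟨-, h2⟩ := hg1 t (by omega) htb (Nat.pos_of_ne_zero hO)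
          split_ifs at hcI <;> omega
  refine ⟨X, (Finset.Icc 1 S).filter (fun t' => O t' ≠ 0), Finset.filter_subset _ _, ?_, ?_⟩
  · have h1 := hcount S le_rfl
    have h2 : (bad.filter (fun s => s < S)).card ≤ bad.card := Finset.card_filter_le _ _
    omega
  · intro t ht htZ
    have htS := (Finset.mem_Icc.mp ht)
    have hO : O t = 0 := by
      by_contra hO
      exact htZ (Finset.mem_filter.mpr ⟨ht, hO⟩)
    obtain ⟨h1, h2⟩ := hinv t htS.2
    rw [hO] at h1 h2
    simp only [mul_zero, add_zero, pow_zero, mul_one] at h1 h2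
    refine ⟨h1, ?_⟩
    have e1 : (3 : ℝ) ^ (192 * a * t) / 2 ^ (320 * a * t) = (27 / 32) ^ (64 * a * t) := by
      have e2 : 192 * a * t = 3 * (64 * a * t) := by ring
      have e3 : 320 * a * t = 5 * (64 * a * t) := by ring
      rw [e2, e3, pow_mul (3 : ℝ) 3, pow_mul (2 : ℝ) 5, ← div_pow]; norm_num
    rw [e1] at h2
    exact h2

end Beanstalk
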